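import Pool.Agent.Lib_helper65.AP.PoissonPoly
import Pool.Agent.Lib_helper42.AP.Swap

/-! Module B: polynomial approximation in the `C²` sense on the square. -/

namespace AP95

open Set Filter Topology Metric MvPolynomial AP AP65
open scoped ContDiff

/-- the square -/
def Q : Set (ℝ × ℝ) := {x | |x.1| ≤ 1 ∧ |x.2| ≤ 1}

lemma isCompact_Q : IsCompact Q := by
  have : Q = Icc (-1 : ℝ) 1 ×ˢ Icc (-1 : ℝ) 1 := by
    ext x
    rw [mem_prod, mem_Icc, mem_Icc, ← abs_le, ← abs_le]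
    rfl
  rw [this]
  exact isCompact_Icc.prod isCompact_Icc

/-- polynomials as continuous functions -/
noncomputable def evHom : MvPolynomial (Fin 2) ℝ →ₐ[ℝ] C(ℝ × ℝ, ℝ) :=
  MvPolynomial.aeval ![⟨Prod.fst, continuous_fst⟩, ⟨Prod.snd, continuous_snd⟩]

lemma evHom_apply (p : MvPolynomial (Fin 2) ℝ) (x : ℝ × ℝ) : evHom p x = ev p x := by
  induction p using MvPolynomial.induction_on with
  | C a => simp [evHom, ev]
  | add p q hp hq => rw [map_add, ev_add, ← hp, ← hq]; rfl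
  | mul_X p i hp =>
    rw [map_mul, ev_mul, ← hp, ContinuousMap.mul_apply]
    congr 1
    fin_cases i <;> simp [evHom, ev]

lemma sw_approx {g : ℝ × ℝ → ℝ} (hg : Continuous g) {ε : ℝ} (hε : 0 < ε) :
    ∃ p : MvPolynomial (Fin 2) ℝ, ∀ x ∈ Q, |g x - ev p x| ≤ ε := by
  have hsep : (evHom.range).SeparatesPoints := by
    intro x y hxy
    by_cases h : x.1 = y.1
    · have h2 : x.2 ≠ y.2 := fun h2 => hxy (Prod.ext h h2)
      refine ⟨_, ⟨evHom (X 1), ⟨X 1, rfl⟩, rfl⟩, ?_⟩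
      show evHom (X 1) x ≠ evHom (X 1) y
      rw [evHom_apply, evHom_apply, ev_X1, ev_X1]
      exact h2
    · refine ⟨_, ⟨evHom (X 0), ⟨X 0, rfl⟩, rfl⟩, ?_⟩
      show evHom (X 0) x ≠ evHom (X 0) y
      rw [evHom_apply, evHom_apply, ev_X0, ev_X0]
      exact h
  obtain ⟨q, ⟨p, rfl⟩, hp⟩ :=
    ContinuousMap.exists_mem_subalgebra_near_continuous_of_isCompact_of_separatesPoints hsep
      ⟨g, hg⟩ isCompact_Q hε
  refine ⟨p, fun x hx => ?_⟩
  have h := hp x hx
  rw [Real.norm_eq_abs] at h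
  have h2 : evHom p x - g x = -(g x - ev p x) := by rw [evHom_apply]; ring
  have h3 : |evHom p x - g x| < ε := h
  rw [h2, abs_neg] at h3
  exact h3.le

lemma exists_pderiv (i : Fin 2) (q : MvPolynomial (Fin 2) ℝ) :
    ∃ P : MvPolynomial (Fin 2) ℝ, pderiv i P = q := by
  induction q using MvPolynomial.induction_on' with
  | monomial s a =>
    refine ⟨monomial (s + Finsupp.single i 1) (a / (s i + 1)), ?_⟩
    rw [pderiv_monomial]
    have h : ((s i : ℝ) + 1) ≠ 0 := by positivity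
    congr 1
    · simp
    · simp only [Finsupp.add_apply, Finsupp.single_eq_same]
      push_cast
      field_simp
  | add p q hp hq =>
    obtain ⟨P, hP⟩ := hp
    obtain ⟨R, hR⟩ := hq
    exact ⟨P + R, by rw [map_add, hP, hR]⟩

lemma exists_derivative (q : Polynomial ℝ) :
    ∃ P : Polynomial ℝ, Polynomial.derivative P = q := by
  induction q using Polynomial.induction_on' with
  | add p q hp hq =>
    obtain ⟨P, hP⟩ := hp
    obtain ⟨R, hR⟩ := hq
    exact ⟨P + R, by rw [Polynomial.derivative_add, hP, hR]⟩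
  | monomial n a =>
    refine ⟨Polynomial.monomial (n + 1) (a / (n + 1)), ?_⟩
    rw [Polynomial.derivative_monomial]
    have h : ((n : ℝ) + 1) ≠ 0 := by positivity
    congr 1
    push_cast
    field_simp

lemma mvt_bound {h h' : ℝ → ℝ} {ε δ t : ℝ} (hd : ∀ x, HasDerivAt h (h' x) x)
    (h0 : |h 0| ≤ δ) (hb : ∀ x, |x| ≤ 1 → |h' x| ≤ ε) (ht : |t| ≤ 1) : |h t| ≤ δ + ε := by
  have hε : 0 ≤ ε := (abs_nonneg _).trans (hb 0 (by simp))
  have hc : Convex ℝ (Icc (-1 : ℝ) 1) := convex_Icc _ _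
  have h1 := hc.norm_image_sub_le_of_norm_hasDerivWithin_le (f := h) (f' := h') (C := ε)
    (x := 0) (y := t) (fun x _ => (hd x).hasDerivWithinAt)
    (fun x hx => hb x (abs_le.2 hx)) (by constructor <;> norm_num) (abs_le.1 ht)
  rw [Real.norm_eq_abs, Real.norm_eq_abs, sub_zero] at h1
  have h2 : |h t| ≤ |h 0| + |h t - h 0| := by
    have := abs_add_le (h 0) (h t - h 0)
    rwa [add_sub_cancel] at this
  nlinarith

lemma one_var (j : ℕ) : ∀ (g : ℝ → ℝ), ContDiff ℝ ∞ g → ∀ ε : ℝ, 0 < ε →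
    ∃ r : Polynomial ℝ, ∀ b ≤ j, ∀ y : ℝ, |y| ≤ 1 →
      |iteratedDeriv b (fun t => g t - r.eval t) y| ≤ ε := by
  induction j with
  | zero =>
    intro g hg ε hε
    obtain ⟨p, hp⟩ := exists_polynomial_near_of_continuousOn (-1) 1 g hg.continuous.continuousOn
      ε hε
    refine ⟨p, fun b hb y hy => ?_⟩
    obtain rfl : b = 0 := by omega
    rw [iteratedDeriv_zero, abs_sub_comm]
    exact (hp y (abs_le.1 hy)).le
  | succ j ih =>
    intro g hg ε hε
    have hg1 : ContDiff ℝ ∞ (deriv g) := by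
      have := (contDiff_infty_iff_deriv (𝕜 := ℝ) (f := g)).1 hg
      exact this.2
    obtain ⟨q, hq⟩ := ih (deriv g) hg1 ε hε
    obtain ⟨P, hP⟩ := exists_derivative q
    refine ⟨P + Polynomial.C (g 0 - P.eval 0), fun b hb y hy => ?_⟩
    have hd : ∀ t, HasDerivAt (fun t => g t - (P + Polynomial.C (g 0 - P.eval 0)).eval t)
        (deriv g t - q.eval t) t := by
      intro t
      have h1 : HasDerivAt g (deriv g t) t := (hg.differentiable (by simp) t).hasDerivAt
      have h2 := (P + Polynomial.C (g 0 - P.eval 0)).hasDerivAt t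
      rw [Polynomial.derivative_add, Polynomial.derivative_C, add_zero, hP] at h2
      exact h1.sub h2
    rcases b with _ | b
    · rw [iteratedDeriv_zero]
      have := mvt_bound (δ := 0) (ε := ε) (t := y) hd (by simp)
        (fun x hx => by
          have := hq 0 (by omega) x hx
          rwa [iteratedDeriv_zero] at this) hy
      rwa [zero_add] at this
    · rw [iteratedDeriv_succ']
      have h3 : deriv (fun t => g t - (P + Polynomial.C (g 0 - P.eval 0)).eval t) =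
          fun t => deriv g t - q.eval t := by
        funext t
        exact (hd t).deriv
      rw [h3]
      exact hq b (by omega) y hy

lemma cdi_D1 {f : ℝ × ℝ → ℝ} (h : ContDiff ℝ ∞ f) : ContDiff ℝ ∞ (D1 f) :=
  contDiff_infty.2 fun n => cd_D1 (contDiff_infty.1 h (n + 1))

lemma cdi_D2 {f : ℝ × ℝ → ℝ} (h : ContDiff ℝ ∞ f) : ContDiff ℝ ∞ (D2 f) :=
  contDiff_infty.2 fun n => cd_D2 (contDiff_infty.1 h (n + 1))

lemma cdi_D1i {f : ℝ × ℝ → ℝ} (h : ContDiff ℝ ∞ f) (a : ℕ) : ContDiff ℝ ∞ (D1^[a] f) := by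
  induction a with
  | zero => exact h
  | succ a ih => rw [Function.iterate_succ_apply']; exact cdi_D1 ih

lemma cdi_D2i {f : ℝ × ℝ → ℝ} (h : ContDiff ℝ ∞ f) (a : ℕ) : ContDiff ℝ ∞ (D2^[a] f) := by
  induction a with
  | zero => exact h
  | succ a ih => rw [Function.iterate_succ_apply']; exact cdi_D2 ih

lemma D12_comm' {f : ℝ × ℝ → ℝ} (h : ContDiff ℝ ∞ f) : D1 (D2 f) = D2 (D1 f) := by
  funext x
  exact D12_comm ((contDiff_infty.1 h 2).contDiffAt)

lemma D1_D2i {f : ℝ × ℝ → ℝ} (h : ContDiff ℝ ∞ f) (b : ℕ) :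
    D1 (D2^[b] f) = D2^[b] (D1 f) := by
  induction b with
  | zero => rfl
  | succ b ih =>
    rw [Function.iterate_succ_apply', Function.iterate_succ_apply', ← ih,
      D12_comm' (cdi_D2i h b)]

lemma D1i_D2i {f : ℝ × ℝ → ℝ} (h : ContDiff ℝ ∞ f) (a b : ℕ) :
    D1^[a] (D2^[b] f) = D2^[b] (D1^[a] f) := by
  induction a with
  | zero => rfl
  | succ a ih =>
    rw [Function.iterate_succ_apply', Function.iterate_succ_apply', ih,
      D1_D2i (cdi_D1i h a)]

lemma D2i_slice {f : ℝ × ℝ → ℝ} (h : ContDiff ℝ ∞ f) (b : ℕ) (x y : ℝ) :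
    D2^[b] f (x, y) = iteratedDeriv b (fun t => f (x, t)) y := by
  induction b generalizing y with
  | zero => simp
  | succ b ih =>
    rw [Function.iterate_succ_apply', iteratedDeriv_succ]
    have h1 : iteratedDeriv b (fun t => f (x, t)) = fun t => D2^[b] f (x, t) := by
      funext t
      exact (ih t).symm
    rw [h1]
    have h2 : DifferentiableAt ℝ (D2^[b] f) (x, y) :=
      (cdi_D2i h b).differentiable (by simp) _
    exact (hasDerivAt_slice2 h2).deriv.symm

/-- approximation up to the order `i` in the first variable and `j` in the second -/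
def R (i j : ℕ) : Prop := ∀ f : ℝ × ℝ → ℝ, ContDiff ℝ ∞ f → ∀ ε : ℝ, 0 < ε →
  ∃ p : MvPolynomial (Fin 2) ℝ, ∀ a ≤ i, ∀ b ≤ j, ∀ x ∈ Q,
    |(D1^[a] (D2^[b] (fun y => f y - ev p y))) x| ≤ ε

lemma R_zero : R 0 0 := by
  intro f hf ε hε
  obtain ⟨p, hp⟩ := sw_approx hf.continuous hε
  refine ⟨p, fun a ha b hb x hx => ?_⟩
  obtain rfl : a = 0 := by omega
  obtain rfl : b = 0 := by omega
  exact hp x hx

lemma ev_aeval (r : Polynomial ℝ) (x : ℝ × ℝ) :
    ev (Polynomial.aeval (X 1 : MvPolynomial (Fin 2) ℝ) r) x = r.eval x.2 := by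
  unfold ev
  rw [Polynomial.aeval_def, Polynomial.hom_eval₂]
  have h : (MvPolynomial.eval ![x.1, x.2]).comp (algebraMap ℝ (MvPolynomial (Fin 2) ℝ)) =
      RingHom.id ℝ := by
    ext a
    simp [MvPolynomial.algebraMap_eq]
  rw [h]
  simp [Polynomial.eval₂_id]

lemma pderiv_aeval (r : Polynomial ℝ) :
    pderiv 0 (Polynomial.aeval (X 1 : MvPolynomial (Fin 2) ℝ) r) = 0 := by
  rw [Derivation.map_aeval]
  simp [pderiv_X]

lemma R_step {i j : ℕ} (hR : R i j) : R (i + 1) j := by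
  intro f hf ε hε
  obtain ⟨q, hq⟩ := hR (D1 f) (cdi_D1 hf) (ε / 2) (half_pos hε)
  obtain ⟨P, hP⟩ := exists_pderiv 0 q
  have hG : ContDiff ℝ ∞ (fun y => f y - ev P y) := hf.sub (ev_contDiff P)
  obtain ⟨r, hr⟩ := one_var j (fun t => f (0, t) - ev P (0, t))
    (hG.comp (contDiff_const.prodMk contDiff_id)) (ε / 2) (half_pos hε)
  refine ⟨P + Polynomial.aeval (X 1 : MvPolynomial (Fin 2) ℝ) r, ?_⟩
  set p := P + Polynomial.aeval (X 1 : MvPolynomial (Fin 2) ℝ) r with hp
  have hF : ContDiff ℝ ∞ (fun y => f y - ev p y) := hf.sub (ev_contDiff p)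
  have hD : D1 (fun y => f y - ev p y) = fun y => D1 f y - ev q y := by
    funext y
    rw [D1_sub (hf.differentiable (by simp) y) (ev_diff p y), D1_ev, hp, map_add, pderiv_aeval,
      add_zero, hP]
  intro a ha b hb x hx
  rcases a with _ | a
  · have h1 : ∀ s, HasDerivAt (fun s => (D2^[b] (fun y => f y - ev p y)) (s, x.2))
        ((D2^[b] (fun y => D1 f y - ev q y)) (s, x.2)) s := by
      intro s
      have h2 : DifferentiableAt ℝ (D2^[b] (fun y => f y - ev p y)) (s, x.2) :=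
        (cdi_D2i hF b).differentiable (by simp) _
      have h3 := hasDerivAt_slice1 h2
      rwa [D1_D2i hF b, hD] at h3
    have h4 := mvt_bound (δ := ε / 2) (ε := ε / 2) (t := x.1) h1 ?_ ?_ hx.1
    · show |(D2^[b] (fun y => f y - ev p y)) x| ≤ ε
      simpa using h4
    · show |(D2^[b] (fun y => f y - ev p y)) (0, x.2)| ≤ ε / 2
      rw [D2i_slice hF b]
      have h5 := hr b hb x.2 hx.2
      have h6 : (fun t => f (0, t) - ev P (0, t) - Polynomial.eval t r) =
          fun t => f (0, t) - ev p (0, t) := by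
        funext t
        rw [hp, ev_add, ev_aeval]
        ring
      rwa [h6] at h5
    · intro s hs
      exact hq 0 (Nat.zero_le _) b hb (s, x.2) ⟨hs, hx.2⟩
  · rw [Function.iterate_succ_apply, D1_D2i hF b, hD]
    exact (hq a (by omega) b hb x hx).trans (by linarith)

lemma D1i_sw {f : ℝ × ℝ → ℝ} (h : ContDiff ℝ ∞ f) (a : ℕ) :
    D1^[a] (fun x => f (sw x)) = fun x => (D2^[a] f) (sw x) := by
  induction a with
  | zero => rfl
  | succ a ih =>
    rw [Function.iterate_succ_apply', Function.iterate_succ_apply', ih,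
      D1_sw ((cdi_D2i h a).differentiable (by simp))]

lemma D2i_sw {f : ℝ × ℝ → ℝ} (h : ContDiff ℝ ∞ f) (a : ℕ) :
    D2^[a] (fun x => f (sw x)) = fun x => (D1^[a] f) (sw x) := by
  induction a with
  | zero => rfl
  | succ a ih =>
    rw [Function.iterate_succ_apply', Function.iterate_succ_apply', ih,
      D2_sw ((cdi_D1i h a).differentiable (by simp))]

lemma ev_rename (p : MvPolynomial (Fin 2) ℝ) (x : ℝ × ℝ) :
    ev (rename (Equiv.swap (0 : Fin 2) 1) p) x = ev p (sw x) := by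
  unfold ev
  rw [eval_rename]
  congr 2
  funext i
  fin_cases i <;> simp [sw]

lemma R_swap {i j : ℕ} (hR : R i j) : R j i := by
  intro f hf ε hε
  obtain ⟨p, hp⟩ := hR (fun x => f (sw x)) (hf.comp contDiff_sw) ε hε
  refine ⟨rename (Equiv.swap (0 : Fin 2) 1) p, fun a ha b hb x hx => ?_⟩
  have h1 : (fun y => f y - ev (rename (Equiv.swap (0 : Fin 2) 1) p) y) =
      fun y => (fun z => f (sw z) - ev p z) (sw y) := by
    funext y
    rw [ev_rename]
    rfl
  have hF : ContDiff ℝ ∞ (fun z => f (sw z) - ev p z) :=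
    (hf.comp contDiff_sw).sub (ev_contDiff p)
  rw [h1, D2i_sw hF b, D1i_sw (cdi_D1i hF b) a]
  show |(D2^[a] (D1^[b] _)) (sw x)| ≤ ε
  rw [← D1i_D2i hF b a]
  exact hp b hb a ha (sw x) ⟨hx.2, hx.1⟩

lemma R22 : R 2 2 := R_step (R_step (R_swap (R_step (R_step R_zero))))

theorem poly_approx {f : ℝ × ℝ → ℝ} (hf : ContDiff ℝ ∞ f) {ε : ℝ} (hε : 0 < ε) :
    ∃ p : MvPolynomial (Fin 2) ℝ, ∀ x : ℝ × ℝ, |x.1| ≤ 1 → |x.2| ≤ 1 →
      |f x - ev p x| ≤ ε ∧ |D1 f x - D1 (ev p) x| ≤ ε ∧ |D2 f x - D2 (ev p) x| ≤ ε ∧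
      |D1 (D1 f) x - D1 (D1 (ev p)) x| ≤ ε ∧ |D1 (D2 f) x - D1 (D2 (ev p)) x| ≤ ε ∧
      |D2 (D2 f) x - D2 (D2 (ev p)) x| ≤ ε := by
  obtain ⟨p, hp⟩ := R22 f hf ε hε
  refine ⟨p, fun x h1 h2 => ?_⟩
  have hx : x ∈ Q := ⟨h1, h2⟩
  have he : ContDiff ℝ ∞ (ev p) := ev_contDiff p
  have e1 : D1 (fun y => f y - ev p y) = fun y => D1 f y - D1 (ev p) y := by
    funext y
    exact D1_sub (hf.differentiable (by simp) y) (ev_diff p y)
  have e2 : D2 (fun y => f y - ev p y) = fun y => D2 f y - D2 (ev p) y := by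
    funext y
    exact D2_sub (hf.differentiable (by simp) y) (ev_diff p y)
  have e11 : D1 (D1 (fun y => f y - ev p y)) x = D1 (D1 f) x - D1 (D1 (ev p)) x := by
    rw [e1]
    exact D1_sub ((cdi_D1 hf).differentiable (by simp) x) ((cdi_D1 he).differentiable (by simp) x)
  have e12 : D1 (D2 (fun y => f y - ev p y)) x = D1 (D2 f) x - D1 (D2 (ev p)) x := by
    rw [e2]
    exact D1_sub ((cdi_D2 hf).differentiable (by simp) x) ((cdi_D2 he).differentiable (by simp) x)
  have e22 : D2 (D2 (fun y => f y - ev p y)) x = D2 (D2 f) x - D2 (D2 (ev p)) x := by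
    rw [e2]
    exact D2_sub ((cdi_D2 hf).differentiable (by simp) x) ((cdi_D2 he).differentiable (by simp) x)
  refine ⟨hp 0 (by norm_num) 0 (by norm_num) x hx, ?_, ?_, ?_, ?_, ?_⟩
  · have := hp 1 (by norm_num) 0 (by norm_num) x hx
    change |D1 (fun y => f y - ev p y) x| ≤ ε at this
    rwa [e1] at this
  · have := hp 0 (by norm_num) 1 (by norm_num) x hx
    change |D2 (fun y => f y - ev p y) x| ≤ ε at this
    rwa [e2] at this
  · rw [← e11]
    exact hp 2 (by norm_num) 0 (by norm_num) x hx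
  · rw [← e12]
    exact hp 1 (by norm_num) 1 (by norm_num) x hx
  · rw [← e22]
    exact hp 0 (by norm_num) 2 (by norm_num) x hx

end AP95
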