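import Pool.Agent.Lib_helper95.AP.Blowup1
import Pool.Agent.Lib_helper44.AQ.H2

/-! Module J: Hölder estimate of the second derivatives for the nonlinear equation,
from the blow-up lemmas `bl_lin`, `bl_nl` (taken as hypotheses). -/

namespace AQ95

open AP AQ Set Filter Topology
open scoped ContDiff

/-- statement of `bl_lin` -/
def BlLin : Prop := ∀ (U : Ultrafilter ℕ) (α : ℝ) (u : ℕ → ℝ × ℝ → ℝ) (S ρ N : ℕ → ℝ)
    (X Y : ℕ → ℝ × ℝ), BU U α u S ρ N X Y → ∀ a11 a12 a22 : ℝ, 0 < a11 →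
    0 < a11 * a22 - a12 ^ 2 →
    (∀ x : ℝ × ℝ, (∀ᶠ k in (U : Filter ℕ), X k + ρ k • x ∈ Disc) →
      Tendsto (fun k => a11 * rs (D1 (D1 (u k))) (X k) (ρ k) (S k * ρ k ^ α) x
        + 2 * (a12 * rs (D1 (D2 (u k))) (X k) (ρ k) (S k * ρ k ^ α) x)
        + a22 * rs (D2 (D2 (u k))) (X k) (ρ k) (S k * ρ k ^ α) x) U (𝓝 0)) → False

/-- statement of `bl_nl` -/
def BlNl : Prop := ∀ (U : Ultrafilter ℕ) (α : ℝ) (u : ℕ → ℝ × ℝ → ℝ) (S ρ N : ℕ → ℝ)
    (X Y : ℕ → ℝ × ℝ), BU U α u S ρ N X Y → ∀ M δ a0 b0 ξ1 ξ2 η1 η2 : ℝ, 0 < δ →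
    ξ1 * η2 - ξ2 * η1 ≠ 0 →
    (∀ x : ℝ × ℝ, ∀ᶠ k in (U : Filter ℕ), X k + ρ k • x ∈ Disc →
      |rs (D1 (D1 (u k))) (X k) (ρ k) (S k * ρ k ^ α) x| ≤ M ∧
      |rs (D1 (D2 (u k))) (X k) (ρ k) (S k * ρ k ^ α) x| ≤ M ∧
      |rs (D2 (D2 (u k))) (X k) (ρ k) (S k * ρ k ^ α) x| ≤ M) →
    (∀ x : ℝ × ℝ, ∀ᶠ k in (U : Filter ℕ), X k + ρ k • x ∈ Disc →
      δ ≤ a0 + ξ1 ^ 2 * rs (D1 (D1 (u k))) (X k) (ρ k) (S k * ρ k ^ α) x
        + 2 * (ξ1 * ξ2 * rs (D1 (D2 (u k))) (X k) (ρ k) (S k * ρ k ^ α) x)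
        + ξ2 ^ 2 * rs (D2 (D2 (u k))) (X k) (ρ k) (S k * ρ k ^ α) x) →
    (∀ x : ℝ × ℝ, (∀ᶠ k in (U : Filter ℕ), X k + ρ k • x ∈ Disc) →
      Tendsto (fun k => (a0 + ξ1 ^ 2 * rs (D1 (D1 (u k))) (X k) (ρ k) (S k * ρ k ^ α) x
        + 2 * (ξ1 * ξ2 * rs (D1 (D2 (u k))) (X k) (ρ k) (S k * ρ k ^ α) x)
        + ξ2 ^ 2 * rs (D2 (D2 (u k))) (X k) (ρ k) (S k * ρ k ^ α) x) *
        (b0 + η1 ^ 2 * rs (D1 (D1 (u k))) (X k) (ρ k) (S k * ρ k ^ α) x
        + 2 * (η1 * η2 * rs (D1 (D2 (u k))) (X k) (ρ k) (S k * ρ k ^ α) x)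
        + η2 ^ 2 * rs (D2 (D2 (u k))) (X k) (ρ k) (S k * ρ k ^ α) x)) U (𝓝 1)) → False

/-- the quadratic form `h(ξ,ξ)` -/
def Qf (ξ1 ξ2 h11 h12 h22 : ℝ) : ℝ := ξ1 ^ 2 * h11 + 2 * (ξ1 * ξ2 * h12) + ξ2 ^ 2 * h22

/-- the hypotheses of module J -/
structure JG (lam Lam : ℝ) (v ξ1 ξ2 η1 η2 a0 b0 : ℝ × ℝ → ℝ) : Prop where
  cd : ContDiff ℝ 3 v
  bc : ∀ x : ℝ × ℝ, x.1 ^ 2 + x.2 ^ 2 = 1 → v x = 0
  v1 : Bd Lam (D1 v)
  v2 : Bd Lam (D2 v)
  v11 : Bd Lam (D1 (D1 v))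
  v12 : Bd Lam (D1 (D2 v))
  v22 : Bd Lam (D2 (D2 v))
  bξ1 : Bd Lam ξ1
  bξ2 : Bd Lam ξ2
  bη1 : Bd Lam η1
  bη2 : Bd Lam η2
  ba0 : Bd Lam a0
  bb0 : Bd Lam b0
  lξ1 : Lip Lam ξ1
  lξ2 : Lip Lam ξ2
  lη1 : Lip Lam η1
  lη2 : Lip Lam η2
  la0 : Lip Lam a0
  lb0 : Lip Lam b0
  nd : ∀ x ∈ Disc, lam ≤ |ξ1 x * η2 x - ξ2 x * η1 x|
  pos : ∀ x ∈ Disc, 0 < a0 x + Qf (ξ1 x) (ξ2 x) (D1 (D1 v) x) (D1 (D2 v) x) (D2 (D2 v) x)
  eq : ∀ x ∈ Disc, (a0 x + Qf (ξ1 x) (ξ2 x) (D1 (D1 v) x) (D1 (D2 v) x) (D2 (D2 v) x)) *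
    (b0 x + Qf (η1 x) (η2 x) (D1 (D1 v) x) (D1 (D2 v) x) (D2 (D2 v) x)) = 1

/-- minimal Hölder constants -/
lemma exists_min {α : ℝ} (hα0 : 0 < α) (hα1 : α < 1) {f g h : ℝ × ℝ → ℝ} (cf : ContDiff ℝ 1 f)
    (cg : ContDiff ℝ 1 g) (ch : ContDiff ℝ 1 h) {c : ℝ} (hc : 0 < c)
    (hbad : ¬ (Hol α c f ∧ Hol α c g ∧ Hol α c h)) :
    ∃ S, c < S ∧ Hol α S f ∧ Hol α S g ∧ Hol α S h ∧ ∃ X ∈ Disc, ∃ Y ∈ Disc, 0 < dist X Y ∧
      S * dist X Y ^ α ≤ 2 * (|f X - f Y| + |g X - g Y| + |h X - h Y|) := by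
  obtain ⟨M1, hM1, k1⟩ := exists_N0 hα0 hα1 cf
  obtain ⟨M2, hM2, k2⟩ := exists_N0 hα0 hα1 cg
  obtain ⟨M3, hM3, k3⟩ := exists_N0 hα0 hα1 ch
  set A : Set ℝ := {S | 0 ≤ S ∧ Hol α S f ∧ Hol α S g ∧ Hol α S h} with hA
  have hne : A.Nonempty := ⟨M1 + M2 + M3, by positivity, k1.2.mono (by linarith),
    k2.2.mono (by linarith), k3.2.mono (by linarith)⟩
  have hbdd : BddBelow A := ⟨0, fun S hS => hS.1⟩
  set S := sInf A with hS
  have hε : ∀ ε > 0, Hol α (S + ε) f ∧ Hol α (S + ε) g ∧ Hol α (S + ε) h := by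
    intro ε hε
    obtain ⟨s, hs, hlt⟩ := exists_lt_of_csInf_lt hne (show sInf A < S + ε by linarith)
    exact ⟨hs.2.1.mono hlt.le, hs.2.2.1.mono hlt.le, hs.2.2.2.mono hlt.le⟩
  have h1 : Hol α S f := Hol.closed fun ε h => (hε ε h).1
  have h2 : Hol α S g := Hol.closed fun ε h => (hε ε h).2.1
  have h3 : Hol α S h := Hol.closed fun ε h => (hε ε h).2.2
  have hcS : c < S := by
    by_contra hcon
    push Not at hcon
    exact hbad ⟨h1.mono hcon, h2.mono hcon, h3.mono hcon⟩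
  have hS0 : 0 < S := hc.trans hcS
  have hhalf : ¬ (Hol α (S / 2) f ∧ Hol α (S / 2) g ∧ Hol α (S / 2) h) := by
    intro hcon
    have : S ≤ S / 2 := csInf_le hbdd ⟨by positivity, hcon⟩
    linarith
  refine ⟨S, hcS, h1, h2, h3, ?_⟩
  have key : ∀ F : ℝ × ℝ → ℝ, ¬ Hol α (S / 2) F → ∃ X ∈ Disc, ∃ Y ∈ Disc, 0 < dist X Y ∧
      S * dist X Y ^ α ≤ 2 * |F X - F Y| := by
    intro F hF
    unfold Hol at hF
    push Not at hF
    obtain ⟨X, hX, Y, hY, hlt⟩ := hF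
    refine ⟨X, hX, Y, hY, ?_, by linarith⟩
    rcases (dist_nonneg (x := X) (y := Y)).eq_or_lt with h0 | h0
    · have hXY : X = Y := dist_eq_zero.1 h0.symm
      subst hXY
      rw [sub_self, abs_zero, dist_self, Real.zero_rpow hα0.ne', mul_zero] at hlt
      exact (lt_irrefl _ hlt).elim
    · exact h0
  rw [not_and_or, not_and_or] at hhalf
  rcases hhalf with hh | hh | hh
  · obtain ⟨X, hX, Y, hY, hd, hle⟩ := key f hh
    refine ⟨X, hX, Y, hY, hd, hle.trans ?_⟩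
    linarith [abs_nonneg (g X - g Y), abs_nonneg (h X - h Y)]
  · obtain ⟨X, hX, Y, hY, hd, hle⟩ := key g hh
    refine ⟨X, hX, Y, hY, hd, hle.trans ?_⟩
    linarith [abs_nonneg (f X - f Y), abs_nonneg (h X - h Y)]
  · obtain ⟨X, hX, Y, hY, hd, hle⟩ := key h hh
    refine ⟨X, hX, Y, hY, hd, hle.trans ?_⟩
    linarith [abs_nonneg (g X - g Y), abs_nonneg (f X - f Y)]

lemma tendsto_Qf {U : Filter ℕ} {f1 f2 g11 g12 g22 : ℕ → ℝ} {a1 a2 b11 b12 b22 : ℝ}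
    (h1 : Tendsto f1 U (𝓝 a1)) (h2 : Tendsto f2 U (𝓝 a2)) (k11 : Tendsto g11 U (𝓝 b11))
    (k12 : Tendsto g12 U (𝓝 b12)) (k22 : Tendsto g22 U (𝓝 b22)) :
    Tendsto (fun k => Qf (f1 k) (f2 k) (g11 k) (g12 k) (g22 k)) U
      (𝓝 (Qf a1 a2 b11 b12 b22)) := by
  unfold Qf
  exact (((h1.pow 2).mul k11).add (((h1.mul h2).mul k12).const_mul 2)).add ((h2.pow 2).mul k22)

lemma Qf_bound {L a1 a2 b11 b12 b22 : ℝ} (h1 : |a1| ≤ L) (h2 : |a2| ≤ L) (k11 : |b11| ≤ L)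
    (k12 : |b12| ≤ L) (k22 : |b22| ≤ L) : |Qf a1 a2 b11 b12 b22| ≤ 4 * L ^ 3 := by
  have hL : 0 ≤ L := (abs_nonneg _).trans h1
  unfold Qf
  refine (abs_add_three _ _ _).trans ?_
  have e1 : |a1 ^ 2 * b11| ≤ L ^ 2 * L := by
    rw [abs_mul, abs_pow]
    gcongr
  have e2 : |2 * (a1 * a2 * b12)| ≤ 2 * (L * L * L) := by
    rw [abs_mul, abs_mul, abs_mul, abs_two]
    gcongr
  have e3 : |a2 ^ 2 * b22| ≤ L ^ 2 * L := by
    rw [abs_mul, abs_pow]
    gcongr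
  nlinarith

lemma quot_id {T : ℝ} (hT : T ≠ 0) (p0 x0 p1 x1 p2 x2 a b c ha hb hc : ℝ) :
    (p0 - x0) / T + Qf p1 p2 ha hb hc + (a * ((p1 - x1) / T * (p1 + x1)) +
      2 * (b * ((p1 - x1) / T * p2 + x1 * ((p2 - x2) / T)))) +
      c * ((p2 - x2) / T * (p2 + x2)) =
    ((p0 + Qf p1 p2 (a + T * ha) (b + T * hb) (c + T * hc)) - (x0 + Qf x1 x2 a b c)) / T := by
  unfold Qf
  field_simp
  ring

/-- **Module J** -/
theorem nonlin2_of (hlin : BlLin) (hnl : BlNl) {α lam Lam : ℝ} (hα0 : 0 < α) (hα1 : α < 1)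
    (hl : 0 < lam) : ∃ C, 0 < C ∧ ∀ (v ξ1 ξ2 η1 η2 a0 b0 : ℝ × ℝ → ℝ),
      JG lam Lam v ξ1 ξ2 η1 η2 a0 b0 →
      Hol α C (D1 (D1 v)) ∧ Hol α C (D1 (D2 v)) ∧ Hol α C (D2 (D2 v)) := by
  by_contra hcon
  push Not at hcon
  have hex : ∀ k : ℕ, ∃ v ξ1 ξ2 η1 η2 a0 b0 : ℝ × ℝ → ℝ, JG lam Lam v ξ1 ξ2 η1 η2 a0 b0 ∧
      ¬ (Hol α (k + 1) (D1 (D1 v)) ∧ Hol α (k + 1) (D1 (D2 v)) ∧ Hol α (k + 1) (D2 (D2 v))) := by
    intro k
    obtain ⟨v, ξ1, ξ2, η1, η2, a0, b0, h1, h2⟩ := hcon (k + 1) (by positivity)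
    exact ⟨v, ξ1, ξ2, η1, η2, a0, b0, h1, fun h => h2 h.1 h.2.1 h.2.2⟩
  choose v ξ1 ξ2 η1 η2 a0 b0 hG hbad using hex
  have hmin : ∀ k : ℕ, ∃ S, (k : ℝ) + 1 < S ∧ Hol α S (D1 (D1 (v k))) ∧
      Hol α S (D1 (D2 (v k))) ∧ Hol α S (D2 (D2 (v k))) ∧ ∃ X ∈ Disc, ∃ Y ∈ Disc,
      0 < dist X Y ∧ S * dist X Y ^ α ≤ 2 * (|D1 (D1 (v k)) X - D1 (D1 (v k)) Y| +
      |D1 (D2 (v k)) X - D1 (D2 (v k)) Y| + |D2 (D2 (v k)) X - D2 (D2 (v k)) Y|) := by
    intro k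
    have c1 : ContDiff ℝ 2 (D1 (v k)) := cd_D1 (n := 2) (hG k).cd
    have c2 : ContDiff ℝ 2 (D2 (v k)) := cd_D2 (n := 2) (hG k).cd
    exact exists_min hα0 hα1 (cd_D1 (n := 1) c1) (cd_D1 (n := 1) c2) (cd_D2 (n := 1) c2)
      (by positivity) (hbad k)
  choose S hSk hol11 hol12 hol22 X hX Y hY hd hbig using hmin
  set ρ : ℕ → ℝ := fun k => dist (X k) (Y k) with hρ
  set U : Ultrafilter ℕ := hyperfilter ℕ with hU
  have hUa : (U : Filter ℕ) ≤ atTop := Nat.hyperfilter_le_atTop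
  have hS0 : ∀ k, 0 < S k := fun k => lt_trans (by positivity) (hSk k)
  have hS1 : ∀ k, 1 ≤ S k := fun k => by
    have := hSk k
    have h2 : (0 : ℝ) ≤ k := Nat.cast_nonneg k
    linarith
  have hLam : 0 ≤ Lam := (hG 0).v1.nonneg
  have hT0 : ∀ k, 0 < S k * ρ k ^ α := fun k => mul_pos (hS0 k) (Real.rpow_pos_of_pos (hd k) _)
  have hT12 : ∀ k, S k * ρ k ^ α ≤ 12 * Lam := by
    intro k
    have e : ∀ F : ℝ × ℝ → ℝ, Bd Lam F → |F (X k) - F (Y k)| ≤ 2 * Lam := fun F hF => by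
      have := abs_sub (F (X k)) (F (Y k))
      linarith [hF _ (hX k), hF _ (hY k)]
    have := hbig k
    linarith [e _ (hG k).v11, e _ (hG k).v12, e _ (hG k).v22]
  -- convergence of the radii
  have hρα : Tendsto (fun k => ρ k ^ α) U (𝓝 0) := by
    have h1 : Tendsto (fun k : ℕ => 12 * Lam / ((k : ℝ) + 1)) U (𝓝 0) :=
      ((tendsto_const_nhds (x := 12 * Lam)).div_atTop
        (tendsto_atTop_add_const_right _ _ tendsto_natCast_atTop_atTop)).mono_left hUa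
    refine squeeze_zero (fun k => Real.rpow_nonneg dist_nonneg _) (fun k => ?_) h1
    rw [le_div_iff₀ (by positivity)]
    have h2 := hT12 k
    have h3 : 0 ≤ ρ k ^ α := Real.rpow_nonneg dist_nonneg _
    nlinarith [hSk k]
  have hρ0 : Tendsto ρ U (𝓝 0) := by
    have h1 := hρα.rpow_const (p := 1 / α) (Or.inr (by positivity))
    rw [Real.zero_rpow (by positivity)] at h1
    refine h1.congr fun k => ?_
    rw [← Real.rpow_mul dist_nonneg, mul_one_div_cancel hα0.ne', Real.rpow_one]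
  have hρT : Tendsto (fun k => ρ k / (S k * ρ k ^ α)) U (𝓝 0) := by
    have h1 := hρ0.rpow_const (p := 1 - α) (Or.inr (by linarith))
    rw [Real.zero_rpow (by linarith)] at h1
    refine squeeze_zero (fun k => div_nonneg dist_nonneg (hT0 k).le) (fun k => ?_) h1
    have hρk : 0 < ρ k := hd k
    rw [div_le_iff₀ (hT0 k)]
    have e : ρ k ^ (1 - α) * ρ k ^ α = ρ k := by
      rw [← Real.rpow_add hρk]
      norm_num
    calc ρ k = ρ k ^ (1 - α) * ρ k ^ α := e.symm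
      _ ≤ ρ k ^ (1 - α) * (S k * ρ k ^ α) := by
          refine mul_le_mul_of_nonneg_left ?_ (Real.rpow_nonneg hρk.le _)
          exact le_mul_of_one_le_left (Real.rpow_nonneg hρk.le _) (hS1 k)
  have hBU : BU U α v S ρ (fun _ => Lam) X Y :=
    { α0 := hα0
      α1 := hα1
      cd := fun k => (hG k).cd.of_le (by norm_num)
      bc := fun k => (hG k).bc
      Spos := hS0
      hol11 := hol11
      hol12 := hol12
      hol22 := hol22
      X_mem := hX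
      Y_mem := hY
      ρ_def := fun k => rfl
      ρ_pos := hd
      ρ_lim := hρ0
      big := hbig
      N_bd := fun k => ⟨(hG k).v1, (hG k).v2, (hG k).v11, (hG k).v12, (hG k).v22⟩
      N_lim := by
        have := hρT.const_mul Lam
        rw [mul_zero] at this
        refine this.congr fun k => ?_
        ring }
  -- limits at the centres
  have limX : ∀ F : ℕ → ℝ × ℝ → ℝ, (∀ k, Bd Lam (F k)) →
      ∃ m, Tendsto (fun k => F k (X k)) U (𝓝 m) := fun F hF =>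
    exists_lim (Eventually.of_forall fun k => hF k _ (hX k))
  obtain ⟨c1, hc1⟩ := limX ξ1 fun k => (hG k).bξ1
  obtain ⟨c2, hc2⟩ := limX ξ2 fun k => (hG k).bξ2
  obtain ⟨d1, hd1⟩ := limX η1 fun k => (hG k).bη1
  obtain ⟨d2, hd2⟩ := limX η2 fun k => (hG k).bη2
  obtain ⟨A0, hA0⟩ := limX a0 fun k => (hG k).ba0
  obtain ⟨B0, hB0⟩ := limX b0 fun k => (hG k).bb0
  obtain ⟨H11, hH11⟩ := limX (fun k => D1 (D1 (v k))) fun k => (hG k).v11
  obtain ⟨H12, hH12⟩ := limX (fun k => D1 (D2 (v k))) fun k => (hG k).v12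
  obtain ⟨H22, hH22⟩ := limX (fun k => D2 (D2 (v k))) fun k => (hG k).v22
  obtain ⟨e, he⟩ : ∃ e, Tendsto (fun k => S k * ρ k ^ α) U (𝓝 e) :=
    exists_lim (B := 12 * Lam) (Eventually.of_forall fun k => by
      rw [abs_of_pos (hT0 k)]
      exact hT12 k)
  have he0 : 0 ≤ e := ge_of_tendsto' he fun k => (hT0 k).le
  have hnd : lam ≤ |c1 * d2 - c2 * d1| :=
    ge_of_tendsto' ((hc1.mul hd2).sub (hc2.mul hd1)).abs fun k => (hG k).nd _ (hX k)
  have hne : c1 * d2 - c2 * d1 ≠ 0 := by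
    intro h0
    rw [h0, abs_zero] at hnd
    linarith
  -- bounds for the two factors
  set Λ : ℝ := Lam + 4 * Lam ^ 3 + 1 with hΛ
  have hΛ0 : 0 < Λ := by positivity
  have hAB : ∀ k, ∀ x ∈ Disc,
      1 / Λ ≤ a0 k x + Qf (ξ1 k x) (ξ2 k x) (D1 (D1 (v k)) x) (D1 (D2 (v k)) x)
        (D2 (D2 (v k)) x) ∧
      1 / Λ ≤ b0 k x + Qf (η1 k x) (η2 k x) (D1 (D1 (v k)) x) (D1 (D2 (v k)) x)
        (D2 (D2 (v k)) x) := by
    intro k x hx
    have g := hG k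
    have e1 := g.pos x hx
    have e2 := g.eq x hx
    have q1 := Qf_bound (g.bξ1 x hx) (g.bξ2 x hx) (g.v11 x hx) (g.v12 x hx) (g.v22 x hx)
    have q2 := Qf_bound (g.bη1 x hx) (g.bη2 x hx) (g.v11 x hx) (g.v12 x hx) (g.v22 x hx)
    have e3 := (abs_le.1 (g.ba0 x hx)).2
    have e4 := (abs_le.1 (g.bb0 x hx)).2
    have e5 := (abs_le.1 q1).2
    have e6 := (abs_le.1 q2).2
    set A := a0 k x + Qf (ξ1 k x) (ξ2 k x) (D1 (D1 (v k)) x) (D1 (D2 (v k)) x)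
        (D2 (D2 (v k)) x) with hA
    set B := b0 k x + Qf (η1 k x) (η2 k x) (D1 (D1 (v k)) x) (D1 (D2 (v k)) x)
        (D2 (D2 (v k)) x) with hB
    have hBpos : 0 < B := by
      by_contra hneg
      push Not at hneg
      have : A * B ≤ 0 := mul_nonpos_of_nonneg_of_nonpos e1.le hneg
      linarith
    have hAle : A ≤ Λ := by rw [hΛ]; linarith
    have hBle : B ≤ Λ := by rw [hΛ]; linarith
    constructor
    · rw [div_le_iff₀ hΛ0]
      nlinarith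
    · rw [div_le_iff₀ hΛ0]
      nlinarith
  -- limits at the shifted points
  have limP : ∀ (F : ℕ → ℝ × ℝ → ℝ) (m : ℝ), (∀ k, Lip Lam (F k)) →
      Tendsto (fun k => F k (X k)) U (𝓝 m) → ∀ x : ℝ × ℝ,
      (∀ᶠ k in (U : Filter ℕ), X k + ρ k • x ∈ Disc) →
      Tendsto (fun k => F k (X k + ρ k • x)) U (𝓝 m) ∧
      Tendsto (fun k => (F k (X k + ρ k • x) - F k (X k)) / (S k * ρ k ^ α)) U (𝓝 0) := by
    intro F m hF hm x hx
    have hdist : ∀ k, dist (X k + ρ k • x) (X k) = ρ k * ‖x‖ := fun k => by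
      rw [dist_eq_norm, add_sub_cancel_left, norm_smul, Real.norm_eq_abs,
        abs_of_nonneg dist_nonneg]
    have h1 : Tendsto (fun k => F k (X k + ρ k • x) - F k (X k)) U (𝓝 0) := by
      have h2 : Tendsto (fun k => Lam * (ρ k * ‖x‖)) U (𝓝 0) := by
        have := (hρ0.mul_const ‖x‖).const_mul Lam
        simpa using this
      refine squeeze_zero_norm' ?_ h2
      filter_upwards [hx] with k hk
      rw [Real.norm_eq_abs, ← hdist]
      exact hF k _ hk _ (hX k)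
    constructor
    · have := hm.add h1
      rw [add_zero] at this
      refine this.congr fun k => ?_
      ring
    · have h2 : Tendsto (fun k => Lam * ‖x‖ * (ρ k / (S k * ρ k ^ α))) U (𝓝 0) := by
        have := hρT.const_mul (Lam * ‖x‖)
        simpa using this
      refine squeeze_zero_norm' ?_ h2
      filter_upwards [hx] with k hk
      rw [norm_div, Real.norm_eq_abs, Real.norm_eq_abs, abs_of_pos (hT0 k),
        div_le_iff₀ (hT0 k)]
      have := hF k _ hk _ (hX k)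
      rw [hdist] at this
      refine this.trans (le_of_eq ?_)
      rw [mul_assoc (Lam * ‖x‖), div_mul_cancel₀ _ (hT0 k).ne']
      ring
  -- limits of the rescaled second derivatives
  have limh : ∀ F : ℕ → ℝ × ℝ → ℝ, (∀ k, Hol α (S k) (F k)) → ∀ x : ℝ × ℝ,
      (∀ᶠ k in (U : Filter ℕ), X k + ρ k • x ∈ Disc) →
      ∃ m, Tendsto (fun k => rs (F k) (X k) (ρ k) (S k * ρ k ^ α) x) U (𝓝 m) := by
    intro F hF x hx
    refine exists_lim (B := dist x 0 ^ α) ?_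
    filter_upwards [hx] with k hk
    have := rs_diff (hS0 k) (hd k) (hF k) hk (z' := 0) (by
      rw [smul_zero, add_zero]
      exact hX k)
    rwa [rs_zero, sub_zero] at this
  -- everything at a point
  have allP : ∀ x : ℝ × ℝ, (∀ᶠ k in (U : Filter ℕ), X k + ρ k • x ∈ Disc) →
      ∃ m11 m12 m22 : ℝ,
      Tendsto (fun k => rs (D1 (D1 (v k))) (X k) (ρ k) (S k * ρ k ^ α) x) U (𝓝 m11) ∧
      Tendsto (fun k => rs (D1 (D2 (v k))) (X k) (ρ k) (S k * ρ k ^ α) x) U (𝓝 m12) ∧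
      Tendsto (fun k => rs (D2 (D2 (v k))) (X k) (ρ k) (S k * ρ k ^ α) x) U (𝓝 m22) ∧
      1 / Λ ≤ A0 + Qf c1 c2 (H11 + e * m11) (H12 + e * m12) (H22 + e * m22) ∧
      (A0 + Qf c1 c2 (H11 + e * m11) (H12 + e * m12) (H22 + e * m22)) *
        (B0 + Qf d1 d2 (H11 + e * m11) (H12 + e * m12) (H22 + e * m22)) = 1 ∧
      (e = 0 → Qf c1 c2 m11 m12 m22 * (B0 + Qf d1 d2 H11 H12 H22) +
        (A0 + Qf c1 c2 H11 H12 H22) * Qf d1 d2 m11 m12 m22 = 0) := by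
    intro x hx
    obtain ⟨m11, hm11⟩ := limh _ hol11 x hx
    obtain ⟨m12, hm12⟩ := limh _ hol12 x hx
    obtain ⟨m22, hm22⟩ := limh _ hol22 x hx
    obtain ⟨pc1, qc1⟩ := limP ξ1 c1 (fun k => (hG k).lξ1) hc1 x hx
    obtain ⟨pc2, qc2⟩ := limP ξ2 c2 (fun k => (hG k).lξ2) hc2 x hx
    obtain ⟨pd1, qd1⟩ := limP η1 d1 (fun k => (hG k).lη1) hd1 x hx
    obtain ⟨pd2, qd2⟩ := limP η2 d2 (fun k => (hG k).lη2) hd2 x hx
    obtain ⟨pA0, qA0⟩ := limP a0 A0 (fun k => (hG k).la0) hA0 x hx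
    obtain ⟨pB0, qB0⟩ := limP b0 B0 (fun k => (hG k).lb0) hB0 x hx
    have hsplit : ∀ (F : ℕ → ℝ × ℝ → ℝ) (k : ℕ), F k (X k + ρ k • x) =
        F k (X k) + (S k * ρ k ^ α) * rs (F k) (X k) (ρ k) (S k * ρ k ^ α) x := by
      intro F k
      unfold rs
      rw [← mul_div_assoc, mul_div_cancel_left₀ _ (hT0 k).ne']
      ring
    have l11 : Tendsto (fun k => D1 (D1 (v k)) (X k + ρ k • x)) U (𝓝 (H11 + e * m11)) :=
      (hH11.add (he.mul hm11)).congr fun k => (hsplit (fun k => D1 (D1 (v k))) k).symm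
    have l12 : Tendsto (fun k => D1 (D2 (v k)) (X k + ρ k • x)) U (𝓝 (H12 + e * m12)) :=
      (hH12.add (he.mul hm12)).congr fun k => (hsplit (fun k => D1 (D2 (v k))) k).symm
    have l22 : Tendsto (fun k => D2 (D2 (v k)) (X k + ρ k • x)) U (𝓝 (H22 + e * m22)) :=
      (hH22.add (he.mul hm22)).congr fun k => (hsplit (fun k => D2 (D2 (v k))) k).symm
    have LA := pA0.add (tendsto_Qf pc1 pc2 l11 l12 l22)
    have LB := pB0.add (tendsto_Qf pd1 pd2 l11 l12 l22)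
    refine ⟨m11, m12, m22, hm11, hm12, hm22, ?_, ?_, ?_⟩
    · refine ge_of_tendsto LA ?_
      filter_upwards [hx] with k hk
      exact (hAB k _ hk).1
    · refine tendsto_nhds_unique_of_eventuallyEq (LA.mul LB) tendsto_const_nhds ?_
      filter_upwards [hx] with k hk
      exact (hG k).eq _ hk
    · intro he00
      -- the linearised equation
      have LX : Tendsto (fun k => a0 k (X k) + Qf (ξ1 k (X k)) (ξ2 k (X k)) (D1 (D1 (v k)) (X k))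
          (D1 (D2 (v k)) (X k)) (D2 (D2 (v k)) (X k))) U (𝓝 (A0 + Qf c1 c2 H11 H12 H22)) :=
        hA0.add (tendsto_Qf hc1 hc2 hH11 hH12 hH22)
      rw [he00] at LB
      simp only [zero_mul, add_zero] at LB
      -- difference quotients
      have quo : ∀ (f1 f2 f0 : ℕ → ℝ × ℝ → ℝ) (z1 z2 : ℝ),
          Tendsto (fun k => f1 k (X k)) U (𝓝 z1) → Tendsto (fun k => f2 k (X k)) U (𝓝 z2) →
          Tendsto (fun k => f1 k (X k + ρ k • x)) U (𝓝 z1) →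
          Tendsto (fun k => f2 k (X k + ρ k • x)) U (𝓝 z2) →
          Tendsto (fun k => (f1 k (X k + ρ k • x) - f1 k (X k)) / (S k * ρ k ^ α)) U (𝓝 0) →
          Tendsto (fun k => (f2 k (X k + ρ k • x) - f2 k (X k)) / (S k * ρ k ^ α)) U (𝓝 0) →
          Tendsto (fun k => (f0 k (X k + ρ k • x) - f0 k (X k)) / (S k * ρ k ^ α)) U (𝓝 0) →
          Tendsto (fun k => ((f0 k (X k + ρ k • x) +
            Qf (f1 k (X k + ρ k • x)) (f2 k (X k + ρ k • x)) (D1 (D1 (v k)) (X k + ρ k • x))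
            (D1 (D2 (v k)) (X k + ρ k • x)) (D2 (D2 (v k)) (X k + ρ k • x))) -
            (f0 k (X k) + Qf (f1 k (X k)) (f2 k (X k)) (D1 (D1 (v k)) (X k))
            (D1 (D2 (v k)) (X k)) (D2 (D2 (v k)) (X k)))) / (S k * ρ k ^ α)) U
            (𝓝 (Qf z1 z2 m11 m12 m22)) := by
        intro f1 f2 f0 z1 z2 t1 t2 s1 s2 r1 r2 r0
        have big := ((r0.add (tendsto_Qf s1 s2 hm11 hm12 hm22)).add
          ((hH11.mul (r1.mul (s1.add t1))).add ((hH12.mul ((r1.mul s2).add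
          (t1.mul r2))).const_mul 2))).add (hH22.mul (r2.mul (s2.add t2)))
        have e0 : (0 + Qf z1 z2 m11 m12 m22 + (H11 * (0 * (z1 + z1)) +
            2 * (H12 * (0 * z2 + z1 * 0))) + H22 * (0 * (z2 + z2))) =
            Qf z1 z2 m11 m12 m22 := by ring
        rw [e0] at big
        refine big.congr fun k => ?_
        have hTk := (hT0 k).ne'
        have g11 := hsplit (fun k => D1 (D1 (v k))) k
        have g12 := hsplit (fun k => D1 (D2 (v k))) k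
        have g22 := hsplit (fun k => D2 (D2 (v k))) k
        rw [g11, g12, g22]
        exact quot_id hTk _ _ _ _ _ _ _ _ _ _ _ _
      have QA := quo ξ1 ξ2 a0 c1 c2 hc1 hc2 pc1 pc2 qc1 qc2 qA0
      have QB := quo η1 η2 b0 d1 d2 hd1 hd2 pd1 pd2 qd1 qd2 qB0
      have hfin := (QA.mul LB).add (LX.mul QB)
      refine tendsto_nhds_unique_of_eventuallyEq hfin tendsto_const_nhds ?_
      filter_upwards [hx] with k hk
      have i1 := (hG k).eq _ hk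
      have i2 := (hG k).eq _ (hX k)
      have hTk := (hT0 k).ne'
      have gen : ∀ A A' B B' T : ℝ, A * B = 1 → A' * B' = 1 →
          (A - A') / T * B + A' * ((B - B') / T) = 0 := by
        intro A A' B B' T h1 h2
        have : (A - A') / T * B + A' * ((B - B') / T) = (A * B - A' * B') / T := by ring
        rw [this, h1, h2, sub_self, zero_div]
      exact gen _ _ _ _ _ i1 i2
  -- the two cases
  rcases he0.eq_or_lt with he00 | hepos
  · -- linear limit equation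
    have he0' : e = 0 := he00.symm
    have hx0 : ∀ᶠ k in (U : Filter ℕ), X k + ρ k • (0 : ℝ × ℝ) ∈ Disc :=
      Eventually.of_forall fun k => by
        rw [smul_zero, add_zero]
        exact hX k
    obtain ⟨_, _, _, -, -, -, hA1, hAB1, -⟩ := allP 0 hx0
    rw [he0'] at hA1 hAB1
    simp only [zero_mul, add_zero] at hA1 hAB1
    set AA := A0 + Qf c1 c2 H11 H12 H22 with hAA
    set BB := B0 + Qf d1 d2 H11 H12 H22 with hBB
    have hApos : 0 < AA := lt_of_lt_of_le (by positivity) hA1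
    have hBpos : 0 < BB := by
      by_contra hneg
      push Not at hneg
      have : AA * BB ≤ 0 := mul_nonpos_of_nonneg_of_nonpos hApos.le hneg
      linarith
    refine hlin U α v S ρ (fun _ => Lam) X Y hBU (BB * c1 ^ 2 + AA * d1 ^ 2)
      (BB * (c1 * c2) + AA * (d1 * d2)) (BB * c2 ^ 2 + AA * d2 ^ 2) ?_ ?_ ?_
    · rcases eq_or_ne c1 0 with h0 | h0
      · have hd1' : d1 ≠ 0 := by
          intro h1
          apply hne
          rw [h0, h1]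
          ring
        have : 0 < d1 ^ 2 := by positivity
        nlinarith [sq_nonneg c1, mul_pos hApos this, mul_nonneg hBpos.le (sq_nonneg c1)]
      · have : 0 < c1 ^ 2 := by positivity
        nlinarith [sq_nonneg d1, mul_pos hBpos this, mul_nonneg hApos.le (sq_nonneg d1)]
    · have : (BB * c1 ^ 2 + AA * d1 ^ 2) * (BB * c2 ^ 2 + AA * d2 ^ 2) -
          (BB * (c1 * c2) + AA * (d1 * d2)) ^ 2 = (AA * BB) * (c1 * d2 - c2 * d1) ^ 2 := by
        ring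
      rw [this, hAB1, one_mul]
      positivity
    · intro x hx
      obtain ⟨m11, m12, m22, t11, t12, t22, -, -, hz⟩ := allP x hx
      have hz' := hz he0'
      have := ((t11.const_mul (BB * c1 ^ 2 + AA * d1 ^ 2)).add
        ((t12.const_mul (BB * (c1 * c2) + AA * (d1 * d2))).const_mul 2)).add
        (t22.const_mul (BB * c2 ^ 2 + AA * d2 ^ 2))
      have e1 : (BB * c1 ^ 2 + AA * d1 ^ 2) * m11 + 2 * ((BB * (c1 * c2) + AA * (d1 * d2)) * m12) +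
          (BB * c2 ^ 2 + AA * d2 ^ 2) * m22 = 0 := by
        rw [← hz']
        unfold Qf
        ring
      rw [e1] at this
      exact this
  · -- nonlinear limit equation
    have hsq : Real.sqrt e ^ 2 = e := Real.sq_sqrt he0
    have hsq2 : Real.sqrt e * Real.sqrt e = e := Real.mul_self_sqrt he0
    refine hnl U α v S ρ (fun _ => Lam) X Y hBU (4 * Lam / e) (1 / (2 * Λ))
      (A0 + Qf c1 c2 H11 H12 H22) (B0 + Qf d1 d2 H11 H12 H22) (Real.sqrt e * c1)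
      (Real.sqrt e * c2) (Real.sqrt e * d1) (Real.sqrt e * d2) (by positivity) ?_ ?_ ?_ ?_
    · have : Real.sqrt e * c1 * (Real.sqrt e * d2) - Real.sqrt e * c2 * (Real.sqrt e * d1) =
          e * (c1 * d2 - c2 * d1) := by
        linear_combination (c1 * d2 - c2 * d1) * hsq2
      rw [this]
      exact mul_ne_zero hepos.ne' hne
    · intro x
      filter_upwards [he.eventually (lt_mem_nhds (show e / 2 < e by linarith))] with k hk hkx
      have gb : ∀ F : ℝ × ℝ → ℝ, Bd Lam F →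
          |rs F (X k) (ρ k) (S k * ρ k ^ α) x| ≤ 4 * Lam / e := by
        intro F hF
        unfold rs
        rw [abs_div, abs_of_pos (hT0 k), div_le_div_iff₀ (hT0 k) hepos]
        have h1 := abs_sub (F (X k + ρ k • x)) (F (X k))
        have h2 := hF _ hkx
        have h3 := hF _ (hX k)
        have h4 : |F (X k + ρ k • x) - F (X k)| ≤ 2 * Lam := by linarith
        calc |F (X k + ρ k • x) - F (X k)| * e ≤ 2 * Lam * e :=
              mul_le_mul_of_nonneg_right h4 he0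
          _ ≤ 4 * Lam * (S k * ρ k ^ α) := by nlinarith
      exact ⟨gb _ (hG k).v11, gb _ (hG k).v12, gb _ (hG k).v22⟩
    · intro x
      by_cases hx : ∀ᶠ k in (U : Filter ℕ), X k + ρ k • x ∈ Disc
      · obtain ⟨m11, m12, m22, t11, t12, t22, hA1, -, -⟩ := allP x hx
        have hlim := ((tendsto_const_nhds (x := A0 + Qf c1 c2 H11 H12 H22)).add
          (t11.const_mul ((Real.sqrt e * c1) ^ 2))).add
          ((t12.const_mul (Real.sqrt e * c1 * (Real.sqrt e * c2))).const_mul 2) |>.add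
          (t22.const_mul ((Real.sqrt e * c2) ^ 2))
        have e1 : A0 + Qf c1 c2 H11 H12 H22 + (Real.sqrt e * c1) ^ 2 * m11 +
            2 * (Real.sqrt e * c1 * (Real.sqrt e * c2) * m12) + (Real.sqrt e * c2) ^ 2 * m22 =
            A0 + Qf c1 c2 (H11 + e * m11) (H12 + e * m12) (H22 + e * m22) := by
          unfold Qf
          linear_combination (c1 ^ 2 * m11 + 2 * c1 * c2 * m12 + c2 ^ 2 * m22) * hsq
        rw [e1] at hlim
        have hlt : 1 / (2 * Λ) < A0 + Qf c1 c2 (H11 + e * m11) (H12 + e * m12)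
            (H22 + e * m22) := by
          refine lt_of_lt_of_le ?_ hA1
          rw [div_lt_div_iff₀ (by positivity) hΛ0]
          linarith
        filter_upwards [hlim.eventually (lt_mem_nhds hlt)] with k hk _
        exact hk.le
      · filter_upwards [Ultrafilter.eventually_not.2 hx] with k hk hk2
        exact (hk hk2).elim
    · intro x hx
      obtain ⟨m11, m12, m22, t11, t12, t22, -, hAB1, -⟩ := allP x hx
      have hlimA := ((tendsto_const_nhds (x := A0 + Qf c1 c2 H11 H12 H22)).add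
        (t11.const_mul ((Real.sqrt e * c1) ^ 2))).add
        ((t12.const_mul (Real.sqrt e * c1 * (Real.sqrt e * c2))).const_mul 2) |>.add
        (t22.const_mul ((Real.sqrt e * c2) ^ 2))
      have hlimB := ((tendsto_const_nhds (x := B0 + Qf d1 d2 H11 H12 H22)).add
        (t11.const_mul ((Real.sqrt e * d1) ^ 2))).add
        ((t12.const_mul (Real.sqrt e * d1 * (Real.sqrt e * d2))).const_mul 2) |>.add
        (t22.const_mul ((Real.sqrt e * d2) ^ 2))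
      have e1 : A0 + Qf c1 c2 H11 H12 H22 + (Real.sqrt e * c1) ^ 2 * m11 +
          2 * (Real.sqrt e * c1 * (Real.sqrt e * c2) * m12) + (Real.sqrt e * c2) ^ 2 * m22 =
          A0 + Qf c1 c2 (H11 + e * m11) (H12 + e * m12) (H22 + e * m22) := by
        unfold Qf
        linear_combination (c1 ^ 2 * m11 + 2 * c1 * c2 * m12 + c2 ^ 2 * m22) * hsq
      have e2 : B0 + Qf d1 d2 H11 H12 H22 + (Real.sqrt e * d1) ^ 2 * m11 +
          2 * (Real.sqrt e * d1 * (Real.sqrt e * d2) * m12) + (Real.sqrt e * d2) ^ 2 * m22 =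
          B0 + Qf d1 d2 (H11 + e * m11) (H12 + e * m12) (H22 + e * m22) := by
        unfold Qf
        linear_combination (d1 ^ 2 * m11 + 2 * d1 * d2 * m12 + d2 ^ 2 * m22) * hsq
      rw [e1] at hlimA
      rw [e2] at hlimB
      have := hlimA.mul hlimB
      rw [hAB1] at this
      exact this

/-- module J -/
theorem nonlin2 {α lam Lam : ℝ} (hα0 : 0 < α) (hα1 : α < 1) (hl : 0 < lam) : ∃ C, 0 < C ∧
    ∀ (v ξ1 ξ2 η1 η2 a0 b0 : ℝ × ℝ → ℝ), ContDiff ℝ 3 v →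
      (∀ x : ℝ × ℝ, x.1 ^ 2 + x.2 ^ 2 = 1 → v x = 0) →
      Bd Lam (D1 v) → Bd Lam (D2 v) → Bd Lam (D1 (D1 v)) → Bd Lam (D1 (D2 v)) →
      Bd Lam (D2 (D2 v)) → Bd Lam ξ1 → Bd Lam ξ2 → Bd Lam η1 → Bd Lam η2 → Bd Lam a0 → Bd Lam b0 →
      Lip Lam ξ1 → Lip Lam ξ2 → Lip Lam η1 → Lip Lam η2 → Lip Lam a0 → Lip Lam b0 →
      (∀ x ∈ Disc, lam ≤ |ξ1 x * η2 x - ξ2 x * η1 x|) →
      (∀ x ∈ Disc,
        0 < a0 x + ξ1 x ^ 2 * D1 (D1 v) x + 2 * (ξ1 x * ξ2 x * D1 (D2 v) x) + ξ2 x ^ 2 * D2 (D2 v) x ∧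
        (a0 x + ξ1 x ^ 2 * D1 (D1 v) x + 2 * (ξ1 x * ξ2 x * D1 (D2 v) x) + ξ2 x ^ 2 * D2 (D2 v) x) *
        (b0 x + η1 x ^ 2 * D1 (D1 v) x + 2 * (η1 x * η2 x * D1 (D2 v) x) + η2 x ^ 2 * D2 (D2 v) x) = 1) →
      Hol α C (D1 (D1 v)) ∧ Hol α C (D1 (D2 v)) ∧ Hol α C (D2 (D2 v)) := by
  have hlin : BlLin := fun U α u S ρ N X Y h a11 a12 a22 ha hd heq =>
    Pool.Agent.Lib44.BU.bl_lin h ha hd heq
  have hnl : BlNl := fun U α u S ρ N X Y h M δ a0 b0 ξ1 ξ2 η1 η2 hδ hne hM hpos heq =>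
    Pool.Agent.Lib44.BU.bl_nl h hδ hne hM hpos heq
  obtain ⟨C, hC, hmain⟩ := nonlin2_of (Lam := Lam) hlin hnl hα0 hα1 hl
  refine ⟨C, hC, ?_⟩
  intro v ξ1 ξ2 η1 η2 a0 b0 cd bc v1 v2 v11 v12 v22 bξ1 bξ2 bη1 bη2 ba0 bb0 lξ1 lξ2 lη1 lη2 la0 lb0
    nd hpe
  refine hmain v ξ1 ξ2 η1 η2 a0 b0 ⟨cd, bc, v1, v2, v11, v12, v22, bξ1, bξ2, bη1, bη2, ba0, bb0,
    lξ1, lξ2, lη1, lη2, la0, lb0, nd, ?_, ?_⟩
  · intro x hx
    have h := (hpe x hx).1
    unfold Qf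
    linarith
  · intro x hx
    have h := (hpe x hx).2
    rw [← h]
    unfold Qf
    ring

end AQ95
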