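import Pool.Agent.Lib_helper95.AP.Fam

/-! Module K: third order Schauder estimate on the disc from the second order one. -/

namespace AQ95

open AP AQ Set Filter Topology
open scoped ContDiff

/-- the conclusion of the second order Schauder estimate -/
def Sch2 (α lam Lam : ℝ) : Prop := ∃ C, 0 < C ∧
    ∀ (a11 a12 a22 b1 b2 u : ℝ × ℝ → ℝ) (F : ℝ), ContDiff ℝ 3 u →
      (∀ x : ℝ × ℝ, x.1 ^ 2 + x.2 ^ 2 = 1 → u x = 0) →
      N0 α Lam a11 → N0 α Lam a12 → N0 α Lam a22 → N0 α Lam b1 → N0 α Lam b2 →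
      Ell lam a11 a12 a22 → N0 α F (Lop a11 a12 a22 b1 b2 u) → N2 α (C * F) u

/-- the data of the third order estimate -/
structure Dat (α lam Lam : ℝ) where
  a11 : ℝ × ℝ → ℝ
  a12 : ℝ × ℝ → ℝ
  a22 : ℝ × ℝ → ℝ
  b1 : ℝ × ℝ → ℝ
  b2 : ℝ × ℝ → ℝ
  u : ℝ × ℝ → ℝ
  K : ℝ
  F0 : ℝ
  F1 : ℝ
  su : ContDiff ℝ ∞ u
  s11 : ContDiff ℝ ∞ a11
  s12 : ContDiff ℝ ∞ a12
  s22 : ContDiff ℝ ∞ a22
  t1 : ContDiff ℝ ∞ b1
  t2 : ContDiff ℝ ∞ b2
  bc : ∀ x : ℝ × ℝ, x.1 ^ 2 + x.2 ^ 2 = 1 → u x = 0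
  n11 : N0 α Lam a11
  n12 : N0 α Lam a12
  n22 : N0 α Lam a22
  m1 : N0 α Lam b1
  m2 : N0 α Lam b2
  k11 : N1 α K a11
  k12 : N1 α K a12
  k22 : N1 α K a22
  l1 : N1 α K b1
  l2 : N1 α K b2
  ell : Ell lam a11 a12 a22
  f0 : N0 α F0 (Lop a11 a12 a22 b1 b2 u)
  f1 : N1 α F1 (Lop a11 a12 a22 b1 b2 u)

variable {α lam Lam : ℝ}

/-- the right hand side of the estimate -/
def Dat.M (d : Dat α lam Lam) : ℝ := d.F1 + (1 + d.K) * d.F0

lemma Dat.K0 (d : Dat α lam Lam) : 0 ≤ d.K := d.k11.nonneg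
lemma Dat.F00 (d : Dat α lam Lam) : 0 ≤ d.F0 := d.f0.nonneg
lemma Dat.F10 (d : Dat α lam Lam) : 0 ≤ d.F1 := d.f1.nonneg
lemma Dat.M0 (d : Dat α lam Lam) : 0 ≤ d.M := by
  have h1 := d.K0
  have h2 := d.F00
  have h3 := d.F10
  unfold Dat.M
  positivity

/-- a function vanishing on the unit circle: first tangential derivative -/
lemma circle_tan {v : ℝ × ℝ → ℝ} (hv : Differentiable ℝ v)
    (h0 : ∀ x : ℝ × ℝ, x.1 ^ 2 + x.2 ^ 2 = 1 → v x = 0) {Z : ℝ × ℝ}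
    (hZ : Z.1 ^ 2 + Z.2 ^ 2 = 1) : -Z.2 * D1 v Z + Z.1 * D2 v Z = 0 := by
  obtain ⟨θ, hθ1, hθ2⟩ : ∃ θ : ℝ, Real.cos θ = Z.1 ∧ Real.sin θ = Z.2 := by
    have hne : (⟨Z.1, Z.2⟩ : ℂ) ≠ 0 := by
      intro h
      have a := congrArg Complex.re h
      have b := congrArg Complex.im h
      simp only [Complex.zero_re, Complex.zero_im] at a b
      rw [a, b] at hZ
      norm_num at hZ
    have hnorm : ‖(⟨Z.1, Z.2⟩ : ℂ)‖ = 1 := by
      have : ‖(⟨Z.1, Z.2⟩ : ℂ)‖ ^ 2 = 1 := by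
        rw [← Complex.normSq_eq_norm_sq, Complex.normSq_mk]
        linarith
      nlinarith [norm_nonneg (⟨Z.1, Z.2⟩ : ℂ)]
    refine ⟨Complex.arg ⟨Z.1, Z.2⟩, ?_, ?_⟩
    · rw [Complex.cos_arg hne, hnorm, div_one]
    · rw [Complex.sin_arg, hnorm, div_one]
  have hγ : HasDerivAt (fun t => (Real.cos t, Real.sin t)) (-Real.sin θ, Real.cos θ) θ :=
    (Real.hasDerivAt_cos θ).prodMk (Real.hasDerivAt_sin θ)
  have h1 := (hv (Real.cos θ, Real.sin θ)).hasFDerivAt.comp_hasDerivAt θ hγ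
  rw [fderiv_apply_eq] at h1
  have h2 : (v ∘ fun t => (Real.cos t, Real.sin t)) = fun _ => 0 := by
    funext t
    exact h0 _ (Real.cos_sq_add_sin_sq t)
  rw [h2] at h1
  have h3 := h1.unique (hasDerivAt_const θ 0)
  have hZe : (Real.cos θ, Real.sin θ) = Z := Prod.ext hθ1 hθ2
  rw [hZe, hθ1, hθ2] at h3
  exact h3

/-- the first order operator `V u` -/
noncomputable def VV (P Q u : ℝ × ℝ → ℝ) : ℝ × ℝ → ℝ := fun y => P y * D1 u y + Q y * D2 u y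

section

variable (hα0 : 0 < α) (hα1 : α < 1)
include hα0 hα1

/-- all first and second derivatives of `u` -/
lemma ub_u (h2 : Sch2 α lam Lam) :
    UB α (fun d : Dat α lam Lam => d.u) (fun d => d.F0) ∧
    UB α (fun d : Dat α lam Lam => D1 d.u) (fun d => d.F0) ∧
    UB α (fun d : Dat α lam Lam => D2 d.u) (fun d => d.F0) ∧
    UB α (fun d : Dat α lam Lam => D1 (D1 d.u)) (fun d => d.F0) ∧
    UB α (fun d : Dat α lam Lam => D1 (D2 d.u)) (fun d => d.F0) ∧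
    UB α (fun d : Dat α lam Lam => D2 (D2 d.u)) (fun d => d.F0) := by
  obtain ⟨C, hC, h⟩ := h2
  have key : ∀ d : Dat α lam Lam, N2 α (C * d.F0) d.u := fun d =>
    h d.a11 d.a12 d.a22 d.b1 d.b2 d.u d.F0 (contDiff_infty.1 d.su 3) d.bc d.n11
      d.n12 d.n22 d.m1 d.m2 d.ell d.f0
  have hC' : 0 ≤ C := hC.le
  refine ⟨⟨4 * (4 * C), by positivity, fun d => ?_⟩, ⟨4 * C, by positivity, fun d => ?_⟩,
    ⟨4 * C, by positivity, fun d => ?_⟩, ⟨C, hC', fun d => (key d).2.1.2.1⟩,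
    ⟨C, hC', fun d => (key d).2.2.2.1⟩, ⟨C, hC', fun d => (key d).2.2.2.2⟩⟩
  · have := (((key d).n1 hα0 hα1 (smd (smi1 d.su)) (smd (smi2 d.su))).n0 hα0 hα1 (smd d.su))
    have e : 4 * (4 * (C * d.F0)) = 4 * (4 * C) * d.F0 := by ring
    rwa [e] at this
  · have := ((key d).2.1.n0 hα0 hα1 (smd (smi1 d.su)))
    have e : 4 * (C * d.F0) = 4 * C * d.F0 := by ring
    rwa [e] at this
  · have := ((key d).2.2.n0 hα0 hα1 (smd (smi2 d.su)))
    have e : 4 * (C * d.F0) = 4 * C * d.F0 := by ring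
    rwa [e] at this

end

lemma ub_lam (f : Dat α lam Lam → ℝ × ℝ → ℝ) (h : ∀ d, N0 α Lam (f d)) :
    UB α f (fun _ => 1) := by
  refine ⟨|Lam|, abs_nonneg _, fun d => (h d).mono ?_⟩
  rw [mul_one]
  exact le_abs_self _

lemma ub_K (f : Dat α lam Lam → ℝ × ℝ → ℝ) (h : ∀ d, N0 α d.K (f d)) :
    UB α f (fun d => d.K) := ⟨1, zero_le_one, fun d => by
  rw [one_mul]
  exact h d⟩

lemma F0_le (d : Dat α lam Lam) : d.F0 ≤ 1 * d.M := by
  have h1 := d.K0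
  have h2 := d.F00
  have h3 := d.F10
  unfold Dat.M
  nlinarith [mul_nonneg h1 h2]

lemma F1_le (d : Dat α lam Lam) : d.F1 ≤ 1 * d.M := by
  have h1 := d.K0
  have h2 := d.F00
  have h3 := d.F10
  unfold Dat.M
  nlinarith [mul_nonneg h1 h2]

lemma KF_le (d : Dat α lam Lam) : d.K * d.F0 ≤ 1 * d.M := by
  have h1 := d.K0
  have h2 := d.F00
  have h3 := d.F10
  unfold Dat.M
  nlinarith [mul_nonneg h1 h2]

lemma UB.toM {f : Dat α lam Lam → ℝ × ℝ → ℝ} (h : UB α f (fun d => d.F0)) :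
    UB α f (fun d => d.M) := h.mono zero_le_one F0_le

lemma UB.kf {f g : Dat α lam Lam → ℝ × ℝ → ℝ} (hf : UB α f (fun d => d.K))
    (hg : UB α g (fun d => d.F0)) : UB α (fun d x => f d x * g d x) (fun d => d.M) :=
  (hf.mul hg).mono zero_le_one KF_le

lemma UB.two {f : Dat α lam Lam → ℝ × ℝ → ℝ} {M : Dat α lam Lam → ℝ} (h : UB α f M) :
    UB α (fun d x => 2 * f d x) M := by
  have := h.add h
  refine this.congr fun d x _ => ?_
  ring

section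

variable (hα0 : 0 < α) (hα1 : α < 1) (h2 : Sch2 α lam Lam)
include hα0 hα1 h2

/-- the third derivatives of `u` contracted with a tangential field -/
lemma ub_V {P Q : ℝ × ℝ → ℝ} (hP : ContDiff ℝ ∞ P) (hQ : ContDiff ℝ ∞ Q)
    (htan : ∀ x : ℝ × ℝ, x.1 ^ 2 + x.2 ^ 2 = 1 → P x * x.1 + Q x * x.2 = 0) :
    UB α (fun (d : Dat α lam Lam) x => P x * D1 (D1 (D1 d.u)) x + Q x * D1 (D1 (D2 d.u)) x)
      (fun d => d.M) ∧
    UB α (fun (d : Dat α lam Lam) x => P x * D1 (D1 (D2 d.u)) x + Q x * D1 (D2 (D2 d.u)) x)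
      (fun d => d.M) ∧
    UB α (fun (d : Dat α lam Lam) x => P x * D1 (D2 (D2 d.u)) x + Q x * D2 (D2 (D2 d.u)) x)
      (fun d => d.M) := by
  obtain ⟨u0, u1, u2, u11, u12, u22⟩ := ub_u hα0 hα1 h2
  have P1 := smi1 hP
  have P2 := smi2 hP
  have Q1 := smi1 hQ
  have Q2 := smi2 hQ
  have P11 := smi1 P1
  have P12 := smi1 P2
  have P22 := smi2 P2
  have Q11 := smi1 Q1
  have Q12 := smi1 Q2
  have Q22 := smi2 Q2
  -- boundary condition for `V u`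
  have hbc : ∀ d : Dat α lam Lam, ∀ x : ℝ × ℝ, x.1 ^ 2 + x.2 ^ 2 = 1 → VV P Q d.u x = 0 := by
    intro d x hx
    have e1 := circle_tan (smd d.su) d.bc hx
    have e2 := htan x hx
    show P x * D1 d.u x + Q x * D2 d.u x = 0
    have hP' : P x = -x.2 * (-(P x * x.2) + Q x * x.1) := by
      linear_combination x.1 * e2 - P x * hx
    have hQ' : Q x = x.1 * (-(P x * x.2) + Q x * x.1) := by
      linear_combination x.2 * e2 - Q x * hx
    have e3 : P x * D1 d.u x + Q x * D2 d.u x =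
        (-(P x * x.2) + Q x * x.1) * (-x.2 * D1 d.u x + x.1 * D2 d.u x) := by
      linear_combination (D1 d.u x) * hP' + (D2 d.u x) * hQ'
    rw [e3, e1, mul_zero]
  -- the equation for `V u`
  have hL : UB α (fun (d : Dat α lam Lam) => Lop d.a11 d.a12 d.a22 d.b1 d.b2 (VV P Q d.u))
      (fun d => d.M) := by
    have A11 := ub_lam (fun d : Dat α lam Lam => d.a11) fun d => d.n11
    have A12 := ub_lam (fun d : Dat α lam Lam => d.a12) fun d => d.n12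
    have A22 := ub_lam (fun d : Dat α lam Lam => d.a22) fun d => d.n22
    have B1 := ub_lam (fun d : Dat α lam Lam => d.b1) fun d => d.m1
    have B2 := ub_lam (fun d : Dat α lam Lam => d.b2) fun d => d.m2
    have K111 := ub_K (fun d : Dat α lam Lam => D1 d.a11) fun d => d.k11.2.1
    have K112 := ub_K (fun d : Dat α lam Lam => D2 d.a11) fun d => d.k11.2.2
    have K121 := ub_K (fun d : Dat α lam Lam => D1 d.a12) fun d => d.k12.2.1
    have K122 := ub_K (fun d : Dat α lam Lam => D2 d.a12) fun d => d.k12.2.2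
    have K221 := ub_K (fun d : Dat α lam Lam => D1 d.a22) fun d => d.k22.2.1
    have K222 := ub_K (fun d : Dat α lam Lam => D2 d.a22) fun d => d.k22.2.2
    have L11 := ub_K (fun d : Dat α lam Lam => D1 d.b1) fun d => d.l1.2.1
    have L12 := ub_K (fun d : Dat α lam Lam => D2 d.b1) fun d => d.l1.2.2
    have L21 := ub_K (fun d : Dat α lam Lam => D1 d.b2) fun d => d.l2.2.1
    have L22 := ub_K (fun d : Dat α lam Lam => D2 d.b2) fun d => d.l2.2.2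
    have F1 : UB α (fun d : Dat α lam Lam => D1 (Lop d.a11 d.a12 d.a22 d.b1 d.b2 d.u))
        (fun d => d.M) := by
      refine UB.mono (M := fun d => d.F1) ⟨1, zero_le_one, fun d => ?_⟩ zero_le_one F1_le
      rw [one_mul]
      exact d.f1.2.1
    have F2 : UB α (fun d : Dat α lam Lam => D2 (Lop d.a11 d.a12 d.a22 d.b1 d.b2 d.u))
        (fun d => d.M) := by
      refine UB.mono (M := fun d => d.F1) ⟨1, zero_le_one, fun d => ?_⟩ zero_le_one F1_le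
      rw [one_mul]
      exact d.f1.2.2
    have v1 := u1.toM
    have v2 := u2.toM
    have v11 := u11.toM
    have v12 := u12.toM
    have v22 := u22.toM
    have T0 := (UB.fmul hα0 hα1 hP F1).add (UB.fmul hα0 hα1 hQ F2)
    have T1 := A11.mul1 (((UB.fmul hα0 hα1 P11 v1).add (UB.fmul hα0 hα1 P1 v11).two).add
      ((UB.fmul hα0 hα1 Q11 v2).add (UB.fmul hα0 hα1 Q1 v12).two))
    have T2 := (A12.mul1 ((((UB.fmul hα0 hα1 P12 v1).add (UB.fmul hα0 hα1 P2 v11)).add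
      (UB.fmul hα0 hα1 P1 v12)).add (((UB.fmul hα0 hα1 Q12 v2).add (UB.fmul hα0 hα1 Q2 v12)).add
      (UB.fmul hα0 hα1 Q1 v22)))).two
    have T3 := A22.mul1 (((UB.fmul hα0 hα1 P22 v1).add (UB.fmul hα0 hα1 P2 v12).two).add
      ((UB.fmul hα0 hα1 Q22 v2).add (UB.fmul hα0 hα1 Q2 v22).two))
    have T4 := (B1.mul1 ((UB.fmul hα0 hα1 P1 v1).add (UB.fmul hα0 hα1 Q1 v2))).add
      (B2.mul1 ((UB.fmul hα0 hα1 P2 v1).add (UB.fmul hα0 hα1 Q2 v2)))
    have T5 := UB.fmul hα0 hα1 hP (((((K111.kf u11).add (K121.kf u12).two).add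
      (K221.kf u22)).add (L11.kf u1)).add (L21.kf u2))
    have T6 := UB.fmul hα0 hα1 hQ (((((K112.kf u11).add (K122.kf u12).two).add
      (K222.kf u22)).add (L12.kf u1)).add (L22.kf u2))
    have T := (((((T0.add T1).add T2).add T3).add T4).sub T5).sub T6
    refine T.congr fun d x _ => ?_
    have e1 := congrFun (lop1 d.s11 d.s12 d.s22 d.t1 d.t2 d.su) x
    have e2 := congrFun (lop2 d.s11 d.s12 d.s22 d.t1 d.t2 d.su) x
    have j11 : D1 (D1 (VV P Q d.u)) x = _ := congrFun (jet11 hP hQ d.su) x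
    have j12 : D1 (D2 (VV P Q d.u)) x = _ := congrFun (jet12 hP hQ d.su) x
    have j22 : D2 (D2 (VV P Q d.u)) x = _ := congrFun (jet22 hP hQ d.su) x
    have j1 : D1 (VV P Q d.u) x = _ := congrFun (jet1 hP hQ d.su) x
    have j2 : D2 (VV P Q d.u) x = _ := congrFun (jet2 hP hQ d.su) x
    have hLo : Lop d.a11 d.a12 d.a22 d.b1 d.b2 (VV P Q d.u) x =
      d.a11 x * D1 (D1 (VV P Q d.u)) x + 2 * (d.a12 x * D1 (D2 (VV P Q d.u)) x) +
      d.a22 x * D2 (D2 (VV P Q d.u)) x + d.b1 x * D1 (VV P Q d.u) x +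
      d.b2 x * D2 (VV P Q d.u) x := rfl
    rw [hLo, j11, j12, j22, j1, j2, e1, e2]
    ring
  have hW : ∀ d : Dat α lam Lam, ContDiff ℝ ∞ (VV P Q d.u) := fun d =>
    (hP.mul (smi1 d.su)).add (hQ.mul (smi2 d.su))
  obtain ⟨C, hC, h⟩ := h2
  obtain ⟨C', hC', hL'⟩ := hL
  have key : ∀ d : Dat α lam Lam, N2 α (C * (C' * d.M)) (VV P Q d.u) := fun d =>
    h d.a11 d.a12 d.a22 d.b1 d.b2 (VV P Q d.u) (C' * d.M)
      (contDiff_infty.1 (hW d) 3) (hbc d) d.n11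
      d.n12 d.n22 d.m1 d.m2 d.ell (hL' d)
  have w11 : UB α (fun d : Dat α lam Lam => D1 (D1 (VV P Q d.u))) (fun d => d.M) :=
    ⟨C * C', by positivity, fun d => by rw [mul_assoc]; exact (key d).2.1.2.1⟩
  have w12 : UB α (fun d : Dat α lam Lam => D1 (D2 (VV P Q d.u))) (fun d => d.M) :=
    ⟨C * C', by positivity, fun d => by rw [mul_assoc]; exact (key d).2.2.2.1⟩
  have w22 : UB α (fun d : Dat α lam Lam => D2 (D2 (VV P Q d.u))) (fun d => d.M) :=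
    ⟨C * C', by positivity, fun d => by rw [mul_assoc]; exact (key d).2.2.2.2⟩
  have v1 := u1.toM
  have v2 := u2.toM
  have v11 := u11.toM
  have v12 := u12.toM
  have v22 := u22.toM
  refine ⟨?_, ?_, ?_⟩
  · refine (w11.sub (((UB.fmul hα0 hα1 P11 v1).add (UB.fmul hα0 hα1 P1 v11).two).add
      ((UB.fmul hα0 hα1 Q11 v2).add (UB.fmul hα0 hα1 Q1 v12).two))).congr fun d x _ => ?_
    have j : D1 (D1 (VV P Q d.u)) x = _ := congrFun (jet11 hP hQ d.su) x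
    rw [j]
    ring
  · refine (w12.sub ((((UB.fmul hα0 hα1 P12 v1).add (UB.fmul hα0 hα1 P2 v11)).add
      (UB.fmul hα0 hα1 P1 v12)).add (((UB.fmul hα0 hα1 Q12 v2).add (UB.fmul hα0 hα1 Q2 v12)).add
      (UB.fmul hα0 hα1 Q1 v22)))).congr fun d x _ => ?_
    have j : D1 (D2 (VV P Q d.u)) x = _ := congrFun (jet12 hP hQ d.su) x
    rw [j]
    ring
  · refine (w22.sub (((UB.fmul hα0 hα1 P22 v1).add (UB.fmul hα0 hα1 P2 v12).two).add
      ((UB.fmul hα0 hα1 Q22 v2).add (UB.fmul hα0 hα1 Q2 v22).two))).congr fun d x _ => ?_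
    have j : D2 (D2 (VV P Q d.u)) x = _ := congrFun (jet22 hP hQ d.su) x
    rw [j]
    ring

/-- the third derivatives of `u` -/
lemma ub_third (hl : 0 < lam) :
    UB α (fun d : Dat α lam Lam => D1 (D1 (D1 d.u))) (fun d => d.M) ∧
    UB α (fun d : Dat α lam Lam => D1 (D1 (D2 d.u))) (fun d => d.M) ∧
    UB α (fun d : Dat α lam Lam => D1 (D2 (D2 d.u))) (fun d => d.M) ∧
    UB α (fun d : Dat α lam Lam => D2 (D2 (D2 d.u))) (fun d => d.M) := by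
  obtain ⟨A1, A2, A3⟩ := ub_V hα0 hα1 h2 (P := fun x => 1 - x.1 ^ 2 + x.2 ^ 2)
    (Q := fun x => -2 * x.1 * x.2) (by fun_prop) (by fun_prop) (fun x hx => by
      linear_combination (-x.1) * hx)
  obtain ⟨B1, B2, B3⟩ := ub_V hα0 hα1 h2 (P := fun x => -2 * x.1 * x.2)
    (Q := fun x => 1 + x.1 ^ 2 - x.2 ^ 2) (by fun_prop) (by fun_prop) (fun x hx => by
      linear_combination (-x.2) * hx)
  obtain ⟨k11, k12, k22⟩ := ub_V hα0 hα1 h2 (P := fun x => -x.2)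
    (Q := fun x => x.1) (by fun_prop) (by fun_prop) (fun x hx => by ring)
  obtain ⟨u0, u1, u2, u11, u12, u22⟩ := ub_u hα0 hα1 h2
  have a11 := ub_lam (fun d : Dat α lam Lam => d.a11) fun d => d.n11
  have a12 := ub_lam (fun d : Dat α lam Lam => d.a12) fun d => d.n12
  have a22 := ub_lam (fun d : Dat α lam Lam => d.a22) fun d => d.n22
  have b1 := ub_lam (fun d : Dat α lam Lam => d.b1) fun d => d.m1
  have b2 := ub_lam (fun d : Dat α lam Lam => d.b2) fun d => d.m2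
  have K111 := ub_K (fun d : Dat α lam Lam => D1 d.a11) fun d => d.k11.2.1
  have K112 := ub_K (fun d : Dat α lam Lam => D2 d.a11) fun d => d.k11.2.2
  have K121 := ub_K (fun d : Dat α lam Lam => D1 d.a12) fun d => d.k12.2.1
  have K122 := ub_K (fun d : Dat α lam Lam => D2 d.a12) fun d => d.k12.2.2
  have K221 := ub_K (fun d : Dat α lam Lam => D1 d.a22) fun d => d.k22.2.1
  have K222 := ub_K (fun d : Dat α lam Lam => D2 d.a22) fun d => d.k22.2.2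
  have L11 := ub_K (fun d : Dat α lam Lam => D1 d.b1) fun d => d.l1.2.1
  have L12 := ub_K (fun d : Dat α lam Lam => D2 d.b1) fun d => d.l1.2.2
  have L21 := ub_K (fun d : Dat α lam Lam => D1 d.b2) fun d => d.l2.2.1
  have L22 := ub_K (fun d : Dat α lam Lam => D2 d.b2) fun d => d.l2.2.2
  have F1 : UB α (fun d : Dat α lam Lam => D1 (Lop d.a11 d.a12 d.a22 d.b1 d.b2 d.u))
      (fun d => d.M) := by
    refine UB.mono (M := fun d => d.F1) ⟨1, zero_le_one, fun d => ?_⟩ zero_le_one F1_le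
    rw [one_mul]
    exact d.f1.2.1
  have F2 : UB α (fun d : Dat α lam Lam => D2 (Lop d.a11 d.a12 d.a22 d.b1 d.b2 d.u))
      (fun d => d.M) := by
    refine UB.mono (M := fun d => d.F1) ⟨1, zero_le_one, fun d => ?_⟩ zero_le_one F1_le
    rw [one_mul]
    exact d.f1.2.2
  have v11 := u11.toM
  have v12 := u12.toM
  have v22 := u22.toM
  -- the differentiated equation
  have f1 : UB α (fun (d : Dat α lam Lam) x => d.a11 x * D1 (D1 (D1 d.u)) x +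
      2 * (d.a12 x * D1 (D1 (D2 d.u)) x) + d.a22 x * D1 (D2 (D2 d.u)) x) (fun d => d.M) := by
    refine ((F1.sub (((((K111.kf u11).add (K121.kf u12).two).add
      (K221.kf u22)).add (L11.kf u1)).add (L21.kf u2))).sub ((b1.mul1 v11).add
      (b2.mul1 v12))).congr fun d x _ => ?_
    have e1 := congrFun (lop1 d.s11 d.s12 d.s22 d.t1 d.t2 d.su) x
    rw [e1]
    ring
  have f2 : UB α (fun (d : Dat α lam Lam) x => d.a11 x * D1 (D1 (D2 d.u)) x +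
      2 * (d.a12 x * D1 (D2 (D2 d.u)) x) + d.a22 x * D2 (D2 (D2 d.u)) x) (fun d => d.M) := by
    refine ((F2.sub (((((K112.kf u11).add (K122.kf u12).two).add
      (K222.kf u22)).add (L12.kf u1)).add (L22.kf u2))).sub ((b1.mul1 v12).add
      (b2.mul1 v22))).congr fun d x _ => ?_
    have e1 := congrFun (lop2 d.s11 d.s12 d.s22 d.t1 d.t2 d.su) x
    rw [e1]
    ring
  -- the radial coefficient
  have q : UB α (fun (d : Dat α lam Lam) x => x.1 ^ 2 * d.a11 x + 2 * x.1 * x.2 * d.a12 x +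
      x.2 ^ 2 * d.a22 x) (fun _ => 1) :=
    ((UB.fmul hα0 hα1 (g := fun x => x.1 ^ 2) (by fun_prop) a11).add
      (UB.fmul hα0 hα1 (g := fun x => 2 * x.1 * x.2) (by fun_prop) a12)).add
      (UB.fmul hα0 hα1 (g := fun x => x.2 ^ 2) (by fun_prop) a22)
  have aNT : UB α (fun (d : Dat α lam Lam) x => (-x.1 * x.2) * d.a11 x +
      (x.1 ^ 2 - x.2 ^ 2) * d.a12 x + (x.1 * x.2) * d.a22 x) (fun _ => 1) :=
    ((UB.fmul hα0 hα1 (g := fun x => -x.1 * x.2) (by fun_prop) a11).add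
      (UB.fmul hα0 hα1 (g := fun x => x.1 ^ 2 - x.2 ^ 2) (by fun_prop) a12)).add
      (UB.fmul hα0 hα1 (g := fun x => x.1 * x.2) (by fun_prop) a22)
  have aTT : UB α (fun (d : Dat α lam Lam) x => x.2 ^ 2 * d.a11 x + (-2 * x.1 * x.2) * d.a12 x +
      x.1 ^ 2 * d.a22 x) (fun _ => 1) :=
    ((UB.fmul hα0 hα1 (g := fun x => x.2 ^ 2) (by fun_prop) a11).add
      (UB.fmul hα0 hα1 (g := fun x => -2 * x.1 * x.2) (by fun_prop) a12)).add
      (UB.fmul hα0 hα1 (g := fun x => x.1 ^ 2) (by fun_prop) a22)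
  -- contractions with tangential vectors
  have E1 := ((UB.fmul hα0 hα1 (g := fun x => x.1 ^ 2) (by fun_prop) k11).add
      (UB.fmul hα0 hα1 (g := fun x => 2 * x.1 * x.2) (by fun_prop) k12)).add
      (UB.fmul hα0 hα1 (g := fun x => x.2 ^ 2) (by fun_prop) k22)
  have E2 := ((UB.fmul hα0 hα1 (g := fun x => -x.1 * x.2) (by fun_prop) k11).add
      (UB.fmul hα0 hα1 (g := fun x => x.1 ^ 2 - x.2 ^ 2) (by fun_prop) k12)).add
      (UB.fmul hα0 hα1 (g := fun x => x.1 * x.2) (by fun_prop) k22)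
  have E3 := ((UB.fmul hα0 hα1 (g := fun x => x.2 ^ 2) (by fun_prop) k11).add
      (UB.fmul hα0 hα1 (g := fun x => -2 * x.1 * x.2) (by fun_prop) k12)).add
      (UB.fmul hα0 hα1 (g := fun x => x.1 ^ 2) (by fun_prop) k22)
  -- the radial third derivative
  have qr : UB α (fun (d : Dat α lam Lam) x => (x.1 ^ 2 * d.a11 x + 2 * x.1 * x.2 * d.a12 x +
      x.2 ^ 2 * d.a22 x) * (x.1 ^ 3 * D1 (D1 (D1 d.u)) x + 3 * x.1 ^ 2 * x.2 *
      D1 (D1 (D2 d.u)) x + 3 * x.1 * x.2 ^ 2 * D1 (D2 (D2 d.u)) x +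
      x.2 ^ 3 * D2 (D2 (D2 d.u)) x)) (fun d => d.M) := by
    refine (((UB.fmul hα0 hα1 (g := fun x => (x.1 ^ 2 + x.2 ^ 2) ^ 2 * x.1) (by fun_prop) f1).add
      (UB.fmul hα0 hα1 (g := fun x => (x.1 ^ 2 + x.2 ^ 2) ^ 2 * x.2) (by fun_prop) f2)).sub
      ((aNT.mul1 E1).two.add (aTT.mul1 E2))).congr fun d x _ => ?_
    ring
  -- the weight
  have hw : UB α (fun (d : Dat α lam Lam) x => (1 - (x.1 ^ 2 + x.2 ^ 2) ^ 2) +
      (x.1 ^ 2 + x.2 ^ 2) ^ 3 * (x.1 ^ 2 * d.a11 x + 2 * x.1 * x.2 * d.a12 x +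
      x.2 ^ 2 * d.a22 x)) (fun _ => 1) :=
    (UB.fixed hα0 hα1 (g := fun x => 1 - (x.1 ^ 2 + x.2 ^ 2) ^ 2) (by fun_prop)).add
      (UB.fmul hα0 hα1 (g := fun x => (x.1 ^ 2 + x.2 ^ 2) ^ 3) (by fun_prop) q)
  set L : ℝ := max Lam 1 with hL
  have hL1 : 1 ≤ L := le_max_right _ _
  have hLL : Lam ≤ L := le_max_left _ _
  set c : ℝ := min 1 (lam / (2 * L)) with hc
  have hc0 : 0 < c := lt_min one_pos (by positivity)
  have hlow : ∀ d : Dat α lam Lam, ∀ x ∈ Disc, c * (3 / 4) ≤ (1 - (x.1 ^ 2 + x.2 ^ 2) ^ 2) +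
      (x.1 ^ 2 + x.2 ^ 2) ^ 3 * (x.1 ^ 2 * d.a11 x + 2 * x.1 * x.2 * d.a12 x +
      x.2 ^ 2 * d.a22 x) := by
    intro d x hx
    obtain ⟨e1, e2⟩ := d.ell x hx
    have e3 := (abs_le.1 (d.n11.1 x hx)).2
    have e4 := (abs_le.1 (d.n22.1 x hx)).2
    have hx' : x.1 ^ 2 + x.2 ^ 2 ≤ 1 := hx
    set r2 := x.1 ^ 2 + x.2 ^ 2 with hr2
    have hr0 : 0 ≤ r2 := by positivity
    set Q := x.1 ^ 2 * d.a11 x + 2 * x.1 * x.2 * d.a12 x + x.2 ^ 2 * d.a22 x with hQ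
    have ha11 : 0 < d.a11 x := lt_of_lt_of_le hl e1
    have ha22 : 0 < d.a22 x := by
      have : 0 < d.a11 x * d.a22 x := by nlinarith [sq_nonneg (d.a12 x)]
      exact (pos_iff_pos_of_mul_pos this).1 ha11
    have g1 : lam * x.2 ^ 2 ≤ Q * d.a11 x := by
      have : Q * d.a11 x = (d.a11 x * x.1 + d.a12 x * x.2) ^ 2 +
          (d.a11 x * d.a22 x - d.a12 x ^ 2) * x.2 ^ 2 := by
        rw [hQ]
        ring
      rw [this]
      nlinarith [sq_nonneg (d.a11 x * x.1 + d.a12 x * x.2), sq_nonneg x.2,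
        mul_le_mul_of_nonneg_right e2 (sq_nonneg x.2)]
    have g2 : lam * x.1 ^ 2 ≤ Q * d.a22 x := by
      have : Q * d.a22 x = (d.a22 x * x.2 + d.a12 x * x.1) ^ 2 +
          (d.a11 x * d.a22 x - d.a12 x ^ 2) * x.1 ^ 2 := by
        rw [hQ]
        ring
      rw [this]
      nlinarith [sq_nonneg (d.a22 x * x.2 + d.a12 x * x.1), sq_nonneg x.1,
        mul_le_mul_of_nonneg_right e2 (sq_nonneg x.1)]
    have hQ0 : 0 ≤ Q := by
      have : 0 ≤ Q * d.a11 x := le_trans (by positivity) g1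
      exact nonneg_of_mul_nonneg_left this ha11
    have g3 : lam * r2 ≤ Q * (2 * L) := by
      have : Q * (d.a11 x + d.a22 x) ≤ Q * (2 * L) :=
        mul_le_mul_of_nonneg_left (by linarith) hQ0
      rw [hr2]
      nlinarith
    have g4 : c * r2 ≤ Q := by
      have h5 : c ≤ lam / (2 * L) := min_le_right _ _
      have h6 : lam / (2 * L) * r2 ≤ Q := by
        rw [div_mul_eq_mul_div, div_le_iff₀ (by positivity)]
        exact g3
      exact (mul_le_mul_of_nonneg_right h5 hr0).trans h6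
    have h7 : c ≤ 1 := min_le_left _ _
    have h8 : r2 ^ 3 * (c * r2) ≤ r2 ^ 3 * Q := mul_le_mul_of_nonneg_left g4 (by positivity)
    have h9 : 0 ≤ 1 - r2 ^ 2 := by nlinarith
    have h10 : c * (1 - r2 ^ 2) ≤ 1 - r2 ^ 2 := mul_le_of_le_one_left h9 h7
    have h11 : c * (3 / 4) ≤ c * (1 - r2 ^ 2 + r2 ^ 4) := by
      refine mul_le_mul_of_nonneg_left ?_ hc0.le
      nlinarith [sq_nonneg (r2 ^ 2 - 1 / 2)]
    nlinarith
  have hM : ∀ d : Dat α lam Lam, 0 ≤ d.M := Dat.M0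
  have fin : ∀ (t : Dat α lam Lam → ℝ × ℝ → ℝ),
      UB α (fun d x => (1 - (x.1 ^ 2 + x.2 ^ 2) ^ 2) * t d x) (fun d => d.M) →
      UB α (fun d x => (x.1 ^ 2 + x.2 ^ 2) ^ 3 * (x.1 ^ 2 * d.a11 x + 2 * x.1 * x.2 * d.a12 x +
        x.2 ^ 2 * d.a22 x) * t d x) (fun d => d.M) → UB α t (fun d => d.M) := by
    intro t h1 h3
    refine UB.div hM (mul_pos hc0 (by norm_num : (0 : ℝ) < 3 / 4)) hw hlow ?_
    refine (h1.add h3).congr fun d x _ => ?_
    ring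
  refine ⟨fin _ ?_ ?_, fin _ ?_ ?_, fin _ ?_ ?_, fin _ ?_ ?_⟩
  · refine ((UB.fmul hα0 hα1 (g := fun x => 1 + x.1 ^ 2 - x.2 ^ 2) (by fun_prop) A1).add
      (UB.fmul hα0 hα1 (g := fun x => 2 * x.1 * x.2) (by fun_prop) B1)).congr fun d x _ => ?_
    ring
  · refine ((UB.fmul hα0 hα1 (g := fun x => x.1 ^ 3) (by fun_prop) qr).add (q.mul1
      (((UB.fmul hα0 hα1 (g := fun x => -3 * x.1 ^ 2 * x.2) (by fun_prop) E1).add
      (UB.fmul hα0 hα1 (g := fun x => 3 * x.1 * x.2 ^ 2) (by fun_prop) E2)).add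
      (UB.fmul hα0 hα1 (g := fun x => -x.2 ^ 3) (by fun_prop) E3)))).congr fun d x _ => ?_
    ring
  · refine ((UB.fmul hα0 hα1 (g := fun x => 1 + x.1 ^ 2 - x.2 ^ 2) (by fun_prop) A2).add
      (UB.fmul hα0 hα1 (g := fun x => 2 * x.1 * x.2) (by fun_prop) B2)).congr fun d x _ => ?_
    ring
  · refine ((UB.fmul hα0 hα1 (g := fun x => x.1 ^ 2 * x.2) (by fun_prop) qr).add (q.mul1
      (((UB.fmul hα0 hα1 (g := fun x => x.1 ^ 3 - 2 * x.1 * x.2 ^ 2) (by fun_prop) E1).add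
      (UB.fmul hα0 hα1 (g := fun x => x.2 ^ 3 - 2 * x.1 ^ 2 * x.2) (by fun_prop) E2)).add
      (UB.fmul hα0 hα1 (g := fun x => x.1 * x.2 ^ 2) (by fun_prop) E3)))).congr fun d x _ => ?_
    ring
  · refine ((UB.fmul hα0 hα1 (g := fun x => 1 + x.1 ^ 2 - x.2 ^ 2) (by fun_prop) A3).add
      (UB.fmul hα0 hα1 (g := fun x => 2 * x.1 * x.2) (by fun_prop) B3)).congr fun d x _ => ?_
    ring
  · refine ((UB.fmul hα0 hα1 (g := fun x => x.1 * x.2 ^ 2) (by fun_prop) qr).add (q.mul1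
      (((UB.fmul hα0 hα1 (g := fun x => 2 * x.1 ^ 2 * x.2 - x.2 ^ 3) (by fun_prop) E1).add
      (UB.fmul hα0 hα1 (g := fun x => x.1 ^ 3 - 2 * x.1 * x.2 ^ 2) (by fun_prop) E2)).add
      (UB.fmul hα0 hα1 (g := fun x => -x.1 ^ 2 * x.2) (by fun_prop) E3)))).congr fun d x _ => ?_
    ring
  · refine ((UB.fmul hα0 hα1 (g := fun x => 2 * x.1 * x.2) (by fun_prop) A3).add
      (UB.fmul hα0 hα1 (g := fun x => 1 - x.1 ^ 2 + x.2 ^ 2) (by fun_prop) B3)).congr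
      fun d x _ => ?_
    ring
  · refine ((UB.fmul hα0 hα1 (g := fun x => x.2 ^ 3) (by fun_prop) qr).add (q.mul1
      (((UB.fmul hα0 hα1 (g := fun x => 3 * x.1 * x.2 ^ 2) (by fun_prop) E1).add
      (UB.fmul hα0 hα1 (g := fun x => 3 * x.1 ^ 2 * x.2) (by fun_prop) E2)).add
      (UB.fmul hα0 hα1 (g := fun x => x.1 ^ 3) (by fun_prop) E3)))).congr fun d x _ => ?_
    ring

end

/-- **Module K**: the third order estimate follows from the second order one -/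
theorem schauder3_of (hα0 : 0 < α) (hα1 : α < 1) (hl : 0 < lam) (h2 : Sch2 α lam Lam) :
    ∃ C, 0 < C ∧
    ∀ (a11 a12 a22 b1 b2 u : ℝ × ℝ → ℝ) (K F0 F1 : ℝ), ContDiff ℝ ∞ u →
      ContDiff ℝ ∞ a11 → ContDiff ℝ ∞ a12 → ContDiff ℝ ∞ a22 → ContDiff ℝ ∞ b1 → ContDiff ℝ ∞ b2 →
      (∀ x : ℝ × ℝ, x.1 ^ 2 + x.2 ^ 2 = 1 → u x = 0) →
      N0 α Lam a11 → N0 α Lam a12 → N0 α Lam a22 → N0 α Lam b1 → N0 α Lam b2 →
      N1 α K a11 → N1 α K a12 → N1 α K a22 → N1 α K b1 → N1 α K b2 → 0 ≤ K →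
      Ell lam a11 a12 a22 → N0 α F0 (Lop a11 a12 a22 b1 b2 u) →
      N1 α F1 (Lop a11 a12 a22 b1 b2 u) → N3 α (C * (F1 + (1 + K) * F0)) u := by
  obtain ⟨⟨C0, hC0, U0⟩, ⟨C1, hC1, U1⟩, ⟨C2, hC2, U2⟩, ⟨C3, hC3, U11⟩, ⟨C4, hC4, U12⟩,
    ⟨C5, hC5, U22⟩⟩ := ub_u (α := α) (lam := lam) (Lam := Lam) hα0 hα1 h2
  obtain ⟨⟨C6, hC6, U111⟩, ⟨C7, hC7, U112⟩, ⟨C8, hC8, U122⟩, ⟨C9, hC9, U222⟩⟩ :=
    ub_third (α := α) (lam := lam) (Lam := Lam) hα0 hα1 h2 hl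
  set C := C0 + C1 + C2 + C3 + C4 + C5 + C6 + C7 + C8 + C9 + 1 with hC
  refine ⟨C, by positivity, ?_⟩
  intro a11 a12 a22 b1 b2 u K F0 F1 su s11 s12 s22 t1 t2 bc n11 n12 n22 m1 m2 k11 k12 k22 l1 l2
    hK ell f0 f1
  set d : Dat α lam Lam := ⟨a11, a12, a22, b1, b2, u, K, F0, F1, su, s11, s12, s22, t1, t2, bc,
    n11, n12, n22, m1, m2, k11, k12, k22, l1, l2, ell, f0, f1⟩ with hd
  have hM : d.M = F1 + (1 + K) * F0 := rfl
  have hM0 : 0 ≤ F1 + (1 + K) * F0 := d.M0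
  have hFM : F0 ≤ F1 + (1 + K) * F0 := by
    have := F0_le d
    rw [hM, one_mul] at this
    exact this
  have w0 : ∀ {f : ℝ × ℝ → ℝ} {D : ℝ}, 0 ≤ D → D ≤ C → N0 α (D * F0) f →
      N0 α (C * (F1 + (1 + K) * F0)) f := by
    intro f D hD hDC h
    refine h.mono ?_
    exact mul_le_mul hDC hFM d.F00 (hD.trans hDC)
  have w1 : ∀ {f : ℝ × ℝ → ℝ} {D : ℝ}, D ≤ C → N0 α (D * (F1 + (1 + K) * F0)) f →
      N0 α (C * (F1 + (1 + K) * F0)) f := by
    intro f D hDC h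
    exact h.mono (mul_le_mul_of_nonneg_right hDC hM0)
  have V0 := w0 hC0 (by rw [hC]; linarith) (U0 d)
  have V1 := w0 hC1 (by rw [hC]; linarith) (U1 d)
  have V2 := w0 hC2 (by rw [hC]; linarith) (U2 d)
  have V11 := w0 hC3 (by rw [hC]; linarith) (U11 d)
  have V12 := w0 hC4 (by rw [hC]; linarith) (U12 d)
  have V22 := w0 hC5 (by rw [hC]; linarith) (U22 d)
  have V111 := w1 (D := C6) (by rw [hC]; linarith) (U111 d)
  have V112 := w1 (D := C7) (by rw [hC]; linarith) (U112 d)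
  have V122 := w1 (D := C8) (by rw [hC]; linarith) (U122 d)
  have V222 := w1 (D := C9) (by rw [hC]; linarith) (U222 d)
  have c1 := smc su
  have c2 := smc (smi1 su)
  have c3 := smc (smi2 su)
  refine ⟨V0.1, ⟨V1.1, ⟨V11.1, V111, ?_⟩, ?_⟩, ⟨V2.1, ⟨V12.1, V112, ?_⟩, ⟨V22.1, V122, V222⟩⟩⟩
  · rw [c2, c1]
    exact V112
  · rw [c1]
    refine ⟨V12.1, V112, ?_⟩
    rw [c3]
    exact V122
  · rw [c3]
    exact V122

end AQ95
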