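import Pool.Agent.Lib_helper42.AQ.Norms

/-! Module R: limits of solutions with uniform interior and boundary estimates. -/

namespace AQ95

open AP AQ Set Filter Topology Function
open scoped ContDiff

/-- mean value inequality on a convex set -/
lemma lip_gen {K : Set (ℝ × ℝ)} (hK : Convex ℝ K) {F : ℝ × ℝ → ℝ} {M : ℝ} (hM : 0 ≤ M)
    (hF : Differentiable ℝ F) (h1 : ∀ x ∈ K, |D1 F x| ≤ M) (h2 : ∀ x ∈ K, |D2 F x| ≤ M)
    {x y : ℝ × ℝ} (hx : x ∈ K) (hy : y ∈ K) : |F x - F y| ≤ 2 * M * dist x y := by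
  have key : ‖F x - F y‖ ≤ 2 * M * ‖x - y‖ := by
    apply hK.norm_image_sub_le_of_norm_fderiv_le (𝕜 := ℝ) (fun z _ => hF z) _ hy hx
    intro z hz
    apply ContinuousLinearMap.opNorm_le_bound _ (by positivity)
    intro v
    rw [fderiv_apply_eq, Real.norm_eq_abs]
    have hv1 : |v.1| ≤ ‖v‖ := by
      rw [Prod.norm_def]; exact le_max_left _ _
    have hv2 : |v.2| ≤ ‖v‖ := by
      rw [Prod.norm_def]; exact le_max_right _ _
    calc |v.1 * D1 F z + v.2 * D2 F z| ≤ |v.1| * |D1 F z| + |v.2| * |D2 F z| := by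
          rw [← abs_mul, ← abs_mul]; exact abs_add_le _ _
      _ ≤ ‖v‖ * M + ‖v‖ * M := by
          gcongr
          · exact h1 z hz
          · exact h2 z hz
      _ = 2 * M * ‖v‖ := by ring
  rw [Real.norm_eq_abs, ← dist_eq_norm] at key
  exact key

/-- Taylor inequality on a convex set -/
lemma taylor_gen {K : Set (ℝ × ℝ)} (hK : Convex ℝ K) {F : ℝ × ℝ → ℝ} {β S : ℝ} (hβ : 0 < β)
    (hS : 0 ≤ S) (hF : Differentiable ℝ F)
    (h1 : ∀ x ∈ K, ∀ y ∈ K, |D1 F x - D1 F y| ≤ S * dist x y ^ β)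
    (h2 : ∀ x ∈ K, ∀ y ∈ K, |D2 F x - D2 F y| ≤ S * dist x y ^ β)
    {x y : ℝ × ℝ} (hx : x ∈ K) (hy : y ∈ K) :
    |F y - F x - (D1 F x * (y.1 - x.1) + D2 F x * (y.2 - x.2))| ≤
      2 * S * dist x y ^ (1 + β) := by
  have hd0 : 0 ≤ dist x y := dist_nonneg
  rcases hd0.eq_or_lt with h0 | h0
  · have : x = y := dist_eq_zero.1 h0.symm
    subst this
    simp [Real.zero_rpow (show (1 + β) ≠ 0 by positivity)]
  set e := y - x with he
  have e1 : e.1 = y.1 - x.1 := rfl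
  have e2 : e.2 = y.2 - x.2 := rfl
  have a1 : |e.1| ≤ dist x y := by
    rw [e1, ← Real.dist_eq, dist_comm x y, Prod.dist_eq]
    exact le_max_left _ _
  have a2 : |e.2| ≤ dist x y := by
    rw [e2, ← Real.dist_eq, dist_comm x y, Prod.dist_eq]
    exact le_max_right _ _
  have hseg : ∀ s ∈ Icc (0 : ℝ) 1, x + s • e ∈ K := by
    intro s hs
    exact hK.add_smul_sub_mem hx hy hs
  set G : ℝ → ℝ := fun s => F (x + s • e) - s * (e.1 * D1 F x + e.2 * D2 F x) with hG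
  have hd : ∀ s : ℝ, HasDerivAt G (e.1 * D1 F (x + s • e) + e.2 * D2 F (x + s • e) -
      (e.1 * D1 F x + e.2 * D2 F x)) s := by
    intro s
    exact ((hasDerivAt_line (f := F) (x := x) (e := e) (t := s) (hF _)).sub
      ((hasDerivAt_id s).mul_const (e.1 * D1 F x + e.2 * D2 F x))).congr_deriv (by ring)
  have hbound : ∀ s ∈ Ico (0 : ℝ) 1, ‖e.1 * D1 F (x + s • e) + e.2 * D2 F (x + s • e) -
      (e.1 * D1 F x + e.2 * D2 F x)‖ ≤ 2 * S * dist x y ^ (1 + β) := by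
    intro s hs
    have hs' : s ∈ Icc (0 : ℝ) 1 := ⟨hs.1, hs.2.le⟩
    have hdist : dist (x + s • e) x ≤ dist x y := by
      rw [dist_eq_norm, add_sub_cancel_left, norm_smul, Real.norm_eq_abs, abs_of_nonneg hs.1,
        he, dist_comm x y, dist_eq_norm]
      exact mul_le_of_le_one_left (norm_nonneg _) hs.2.le
    have hpow : dist (x + s • e) x ^ β ≤ dist x y ^ β :=
      Real.rpow_le_rpow dist_nonneg hdist hβ.le
    have b1 := (h1 _ (hseg s hs') _ hx).trans (mul_le_mul_of_nonneg_left hpow hS)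
    have b2 := (h2 _ (hseg s hs') _ hx).trans (mul_le_mul_of_nonneg_left hpow hS)
    have hsp : dist x y ^ (1 + β) = dist x y * dist x y ^ β := by
      rw [Real.rpow_add h0, Real.rpow_one]
    rw [Real.norm_eq_abs, hsp]
    have hid : e.1 * D1 F (x + s • e) + e.2 * D2 F (x + s • e) -
      (e.1 * D1 F x + e.2 * D2 F x) = e.1 * (D1 F (x + s • e) - D1 F x) +
        e.2 * (D2 F (x + s • e) - D2 F x) := by ring
    rw [hid]
    calc |e.1 * (D1 F (x + s • e) - D1 F x) + e.2 * (D2 F (x + s • e) - D2 F x)| ≤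
        |e.1| * |D1 F (x + s • e) - D1 F x| + |e.2| * |D2 F (x + s • e) - D2 F x| := by
          rw [← abs_mul, ← abs_mul]
          exact abs_add_le _ _
      _ ≤ dist x y * (S * dist x y ^ β) + dist x y * (S * dist x y ^ β) := by gcongr
      _ = 2 * S * (dist x y * dist x y ^ β) := by ring
  have hm := norm_image_sub_le_of_norm_deriv_le_segment_01'
    (fun s _ => (hd s).hasDerivWithinAt) hbound
  have h3 : G 1 - G 0 = F y - F x - (D1 F x * (y.1 - x.1) + D2 F x * (y.2 - x.2)) := by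
    simp only [hG, one_smul, zero_smul, add_zero, one_mul, zero_mul, sub_zero]
    have : x + e = y := by rw [he]; abel
    rw [this, e1, e2]
    ring
  rw [h3, Real.norm_eq_abs] at hm
  exact hm

/-- the linear form `a dx + b dy` -/
noncomputable def lf (a b : ℝ) : ℝ × ℝ →L[ℝ] ℝ :=
  a • ContinuousLinearMap.fst ℝ ℝ ℝ + b • ContinuousLinearMap.snd ℝ ℝ ℝ

lemma lf_apply (a b : ℝ) (v : ℝ × ℝ) : lf a b v = a * v.1 + b * v.2 := by
  simp [lf]

/-- Fréchet derivative from a Taylor inequality with an exponent `1 + β` -/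
lemma hasFDerivAt_of_taylor {K : Set (ℝ × ℝ)} {F : ℝ × ℝ → ℝ} {a b S β : ℝ} {x : ℝ × ℝ}
    (hK : K ∈ 𝓝 x) (hβ : 0 < β)
    (h : ∀ y ∈ K, |F y - F x - (a * (y.1 - x.1) + b * (y.2 - x.2))| ≤ S * dist x y ^ (1 + β)) :
    HasFDerivAt F (lf a b) x := by
  rw [hasFDerivAt_iff_isLittleO]
  have hO : (fun y => F y - F x - lf a b (y - x)) =O[𝓝 x] fun y => ‖y - x‖ ^ (1 + β) := by
    refine Asymptotics.IsBigO.of_bound S ?_
    filter_upwards [hK] with y hy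
    have hn : (0 : ℝ) ≤ ‖y - x‖ ^ (1 + β) := by positivity
    rw [Real.norm_eq_abs (F y - F x - lf a b (y - x)), Real.norm_of_nonneg hn, lf_apply,
      ← dist_eq_norm, dist_comm y x]
    exact h y hy
  refine hO.trans_isLittleO ?_
  have hl : (fun y => ‖y - x‖ ^ (1 + β)) =ᶠ[𝓝 x] fun y => ‖y - x‖ ^ β * ‖y - x‖ := by
    refine Eventually.of_forall fun y => ?_
    simp only
    rcases eq_or_ne y x with h0 | h0
    · rw [h0, sub_self, norm_zero, mul_zero, Real.zero_rpow (by positivity)]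
    · have : 0 < ‖y - x‖ := norm_pos_iff.2 (sub_ne_zero.2 h0)
      rw [Real.rpow_add this, Real.rpow_one, mul_comm]
  rw [Asymptotics.isLittleO_congr hl (Eventually.of_forall fun _ => rfl)]
  rw [← Asymptotics.isLittleO_norm_right]
  have ht : Tendsto (fun y : ℝ × ℝ => ‖y - x‖ ^ β) (𝓝 x) (𝓝 0) := by
    have h1 : Tendsto (fun y : ℝ × ℝ => ‖y - x‖) (𝓝 x) (𝓝 0) := by
      have h0 : Continuous (fun y : ℝ × ℝ => ‖y - x‖) := by fun_prop
      have := h0.tendsto x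
      simpa using this
    have := h1.rpow_const (Or.inr hβ.le) (p := β)
    rwa [Real.zero_rpow hβ.ne'] at this
  have := (Asymptotics.isLittleO_one_iff ℝ).2 ht
  have h2 := this.mul_isBigO (Asymptotics.isBigO_refl (fun y : ℝ × ℝ => ‖y - x‖) (𝓝 x))
  simpa using h2

lemma D1_of {F : ℝ × ℝ → ℝ} {a b : ℝ} {x : ℝ × ℝ} (h : HasFDerivAt F (lf a b) x) :
    D1 F x = a ∧ D2 F x = b := by
  constructor
  · rw [D1, h.fderiv, lf_apply]
    simp
  · rw [D2, h.fderiv, lf_apply]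
    simp

/-- functions with continuous partial derivatives -/
lemma cd1_of {Ω : Set (ℝ × ℝ)} (hΩ : IsOpen Ω) {F a b : ℝ × ℝ → ℝ}
    (h : ∀ x ∈ Ω, HasFDerivAt F (lf (a x) (b x)) x) (ha : ContinuousOn a Ω)
    (hb : ContinuousOn b Ω) : ContDiffOn ℝ 1 F Ω := by
  have h2 : (1 : WithTop ℕ∞) = 0 + 1 := by norm_num
  rw [h2, contDiffOn_succ_iff_fderiv_of_isOpen hΩ]
  refine ⟨fun x hx => (h x hx).differentiableAt.differentiableWithinAt, by simp, ?_⟩
  rw [contDiffOn_zero]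
  have : ContinuousOn (fun x => lf (a x) (b x)) Ω := by
    unfold lf
    exact (ha.smul continuousOn_const).add (hb.smul continuousOn_const)
  exact this.congr fun x hx => (h x hx).fderiv

lemma cd2_of {Ω : Set (ℝ × ℝ)} (hΩ : IsOpen Ω) {F a b : ℝ × ℝ → ℝ}
    (h : ∀ x ∈ Ω, HasFDerivAt F (lf (a x) (b x)) x) (ha : ContDiffOn ℝ 1 a Ω)
    (hb : ContDiffOn ℝ 1 b Ω) : ContDiffOn ℝ 2 F Ω := by
  have h2 : (2 : WithTop ℕ∞) = 1 + 1 := by norm_num
  rw [h2, contDiffOn_succ_iff_fderiv_of_isOpen hΩ]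
  refine ⟨fun x hx => (h x hx).differentiableAt.differentiableWithinAt, by simp, ?_⟩
  have : ContDiffOn ℝ 1 (fun x => lf (a x) (b x)) Ω := by
    unfold lf
    exact (ha.smul contDiffOn_const).add (hb.smul contDiffOn_const)
  exact this.congr fun x hx => (h x hx).fderiv

lemma cont_of_hol {Ω : Set (ℝ × ℝ)} {f : ℝ × ℝ → ℝ} {C α : ℝ} (hα : 0 < α)
    (h : ∀ x ∈ Ω, ∀ y ∈ Ω, |f x - f y| ≤ C * dist x y ^ α) : ContinuousOn f Ω := by
  intro x hx
  rw [ContinuousWithinAt, tendsto_iff_dist_tendsto_zero]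
  have h1 : Tendsto (fun y => C * dist y x ^ α) (𝓝[Ω] x) (𝓝 (C * 0)) := by
    have h2 : Tendsto (fun y => dist y x) (𝓝[Ω] x) (𝓝 0) :=
      (tendsto_iff_dist_tendsto_zero.1 tendsto_id).mono_left nhdsWithin_le_nhds
    have := h2.rpow_const (Or.inr hα.le) (p := α)
    rw [Real.zero_rpow hα.ne'] at this
    exact this.const_mul C
  rw [mul_zero] at h1
  refine squeeze_zero' (Eventually.of_forall fun _ => dist_nonneg) ?_ h1
  filter_upwards [self_mem_nhdsWithin] with y hy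
  rw [Real.dist_eq]
  exact h y hy x hx

lemma exists_lim' {U : Ultrafilter ℕ} {f : ℕ → ℝ} {B : ℝ}
    (hB : ∀ k, |f k| ≤ B) : ∃ m, Tendsto f U (𝓝 m) := by
  have h1 : ((U.map f : Ultrafilter ℝ) : Filter ℝ) ≤ 𝓟 (Icc (-B) B) := by
    rw [le_principal_iff]
    show ∀ᶠ k in (U : Filter ℕ), f k ∈ Icc (-B) B
    exact Eventually.of_forall fun k => abs_le.1 (hB k)
  obtain ⟨m, -, hm⟩ := isCompact_Icc.ultrafilter_le_nhds (U.map f) h1
  exact ⟨m, hm⟩

/-- **Module R** -/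
theorem limit_solution {Ω : Set (ℝ × ℝ)} (hΩ : IsOpen Ω) {α C : ℝ} (hα0 : 0 < α) (hα1 : α < 1)
    {φ : ℝ × ℝ → ℝ} {φk uk : ℕ → ℝ × ℝ → ℝ} (hS : ∀ k, Sol (φk k) (uk k) Ω)
    (hlim : ∀ x ∈ frontier Ω, Tendsto (fun k => φk k x) atTop (𝓝 (φ x)))
    (hb : ∀ k, ∀ x ∈ closure Ω, |uk k x| ≤ C ∧ |D1 (uk k) x| ≤ C ∧ |D2 (uk k) x| ≤ C ∧
      |D1 (D1 (uk k)) x| ≤ C ∧ |D1 (D2 (uk k)) x| ≤ C ∧ |D2 (D2 (uk k)) x| ≤ C)
    (hlip : ∀ k, ∀ x ∈ closure Ω, ∀ y ∈ closure Ω, |uk k x - uk k y| ≤ C * dist x y)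
    (hhol : ∀ k, ∀ x ∈ closure Ω, ∀ y ∈ closure Ω,
      |D1 (D1 (uk k)) x - D1 (D1 (uk k)) y| ≤ C * dist x y ^ α ∧
      |D1 (D2 (uk k)) x - D1 (D2 (uk k)) y| ≤ C * dist x y ^ α ∧
      |D2 (D2 (uk k)) x - D2 (D2 (uk k)) y| ≤ C * dist x y ^ α) :
    ∃ u : ℝ × ℝ → ℝ, (∀ x ∈ closure Ω, ∀ y ∈ closure Ω, |u x - u y| ≤ C * dist x y) ∧
      ContDiffOn ℝ 2 u Ω ∧
      (∀ x ∈ Ω, |u x| ≤ C ∧ |D1 u x| ≤ C ∧ |D2 u x| ≤ C ∧ |D1 (D1 u) x| ≤ C ∧
        |D1 (D2 u) x| ≤ C ∧ |D2 (D2 u) x| ≤ C) ∧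
      (∀ x ∈ Ω, ∀ y ∈ Ω, |D1 (D1 u) x - D1 (D1 u) y| ≤ C * dist x y ^ α ∧
        |D1 (D2 u) x - D1 (D2 u) y| ≤ C * dist x y ^ α ∧
        |D2 (D2 u) x - D2 (D2 u) y| ≤ C * dist x y ^ α) ∧
      (∀ x ∈ Ω, 0 < D1 (D1 u) x ∧ 0 < D2 (D2 u) x ∧ D1 (D1 u) x * D2 (D2 u) x = 1) ∧
      ∀ x ∈ frontier Ω, u x = φ x := by
  classical
  set U : Ultrafilter ℕ := hyperfilter ℕ with hU
  have hUa : (U : Filter ℕ) ≤ atTop := Nat.hyperfilter_le_atTop
  have lim : ∀ f : ℕ → ℝ × ℝ → ℝ, (∀ k, ∀ x ∈ closure Ω, |f k x| ≤ C) →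
      ∃ g : ℝ × ℝ → ℝ, ∀ x ∈ closure Ω, Tendsto (fun k => f k x) U (𝓝 (g x)) := by
    intro f hf
    have : ∀ x, ∃ m, x ∈ closure Ω → Tendsto (fun k => f k x) U (𝓝 m) := by
      intro x
      by_cases hx : x ∈ closure Ω
      · obtain ⟨m, hm⟩ := exists_lim' (U := U) (f := fun k => f k x) (fun k => hf k x hx)
        exact ⟨m, fun _ => hm⟩
      · exact ⟨0, fun h => (hx h).elim⟩
    choose g hg using this
    exact ⟨g, hg⟩
  obtain ⟨u, hu⟩ := lim (fun k => uk k) fun k x hx => (hb k x hx).1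
  obtain ⟨p, hp⟩ := lim (fun k => D1 (uk k)) fun k x hx => (hb k x hx).2.1
  obtain ⟨q, hq⟩ := lim (fun k => D2 (uk k)) fun k x hx => (hb k x hx).2.2.1
  obtain ⟨r11, hr11⟩ := lim (fun k => D1 (D1 (uk k))) fun k x hx => (hb k x hx).2.2.2.1
  obtain ⟨r12, hr12⟩ := lim (fun k => D1 (D2 (uk k))) fun k x hx => (hb k x hx).2.2.2.2.1
  obtain ⟨r22, hr22⟩ := lim (fun k => D2 (D2 (uk k))) fun k x hx => (hb k x hx).2.2.2.2.2
  have hsub : Ω ⊆ closure Ω := subset_closure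
  -- regularity of the approximating functions
  have cd1 : ∀ k, ContDiff ℝ 2 (D1 (uk k)) := fun k => cd_D1 (n := 2) (hS k).su
  have cd2 : ∀ k, ContDiff ℝ 2 (D2 (uk k)) := fun k => cd_D2 (n := 2) (hS k).su
  have dd0 : ∀ k, Differentiable ℝ (uk k) := fun k => (hS k).su.differentiable (by norm_num)
  have dd1 : ∀ k, Differentiable ℝ (D1 (uk k)) := fun k => (cd1 k).differentiable (by norm_num)
  have dd2 : ∀ k, Differentiable ℝ (D2 (uk k)) := fun k => (cd2 k).differentiable (by norm_num)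
  have hcomm : ∀ k, D2 (D1 (uk k)) = D1 (D2 (uk k)) := fun k =>
    D12_comm_fun ((hS k).su.of_le (by norm_num))
  -- Hölder bounds in the limit
  have hol : ∀ (f : ℕ → ℝ × ℝ → ℝ) (g : ℝ × ℝ → ℝ),
      (∀ x ∈ closure Ω, Tendsto (fun k => f k x) U (𝓝 (g x))) →
      (∀ k, ∀ x ∈ closure Ω, ∀ y ∈ closure Ω, |f k x - f k y| ≤ C * dist x y ^ α) →
      ∀ x ∈ closure Ω, ∀ y ∈ closure Ω, |g x - g y| ≤ C * dist x y ^ α := by
    intro f g hg hf x hx y hy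
    exact le_of_tendsto' ((hg x hx).sub (hg y hy)).abs fun k => hf k x hx y hy
  have h11 := hol _ r11 hr11 fun k x hx y hy => (hhol k x hx y hy).1
  have h12 := hol _ r12 hr12 fun k x hx y hy => (hhol k x hx y hy).2.1
  have h22 := hol _ r22 hr22 fun k x hx y hy => (hhol k x hx y hy).2.2
  have bd : ∀ (f : ℕ → ℝ × ℝ → ℝ) (g : ℝ × ℝ → ℝ),
      (∀ x ∈ closure Ω, Tendsto (fun k => f k x) U (𝓝 (g x))) →
      (∀ k, ∀ x ∈ closure Ω, |f k x| ≤ C) → ∀ x ∈ closure Ω, |g x| ≤ C := by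
    intro f g hg hf x hx
    exact le_of_tendsto' (hg x hx).abs fun k => hf k x hx
  have b0 := bd _ u hu fun k x hx => (hb k x hx).1
  have b1 := bd _ p hp fun k x hx => (hb k x hx).2.1
  have b2 := bd _ q hq fun k x hx => (hb k x hx).2.2.1
  have b11 := bd _ r11 hr11 fun k x hx => (hb k x hx).2.2.2.1
  have b12 := bd _ r12 hr12 fun k x hx => (hb k x hx).2.2.2.2.1
  have b22 := bd _ r22 hr22 fun k x hx => (hb k x hx).2.2.2.2.2
  -- derivatives of the limits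
  have der : ∀ (f : ℕ → ℝ × ℝ → ℝ) (g a b : ℝ × ℝ → ℝ) (β L : ℝ), 0 < β → 0 ≤ L →
      (∀ k, Differentiable ℝ (f k)) →
      (∀ x ∈ closure Ω, Tendsto (fun k => f k x) U (𝓝 (g x))) →
      (∀ x ∈ closure Ω, Tendsto (fun k => D1 (f k) x) U (𝓝 (a x))) →
      (∀ x ∈ closure Ω, Tendsto (fun k => D2 (f k) x) U (𝓝 (b x))) →
      (∀ K : Set (ℝ × ℝ), Convex ℝ K → K ⊆ Ω → ∀ k, ∀ x ∈ K, ∀ y ∈ K,
        |D1 (f k) x - D1 (f k) y| ≤ L * dist x y ^ β) →
      (∀ K : Set (ℝ × ℝ), Convex ℝ K → K ⊆ Ω → ∀ k, ∀ x ∈ K, ∀ y ∈ K,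
        |D2 (f k) x - D2 (f k) y| ≤ L * dist x y ^ β) →
      ∀ x ∈ Ω, HasFDerivAt g (lf (a x) (b x)) x := by
    intro f g a b β L hβ hL hf hg ha hb' hD1 hD2 x hx
    obtain ⟨ε, hε, hball⟩ := Metric.isOpen_iff.1 hΩ x hx
    refine hasFDerivAt_of_taylor (K := Metric.ball x ε) (S := 2 * L) (β := β)
      (Metric.ball_mem_nhds x hε) hβ fun y hy => ?_
    have hxK : x ∈ Metric.ball x ε := Metric.mem_ball_self hε
    have hyc := hsub (hball hy)
    have hxc := hsub hx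
    refine le_of_tendsto' (((hg y hyc).sub (hg x hxc)).sub (((ha x hxc).mul_const _).add
      ((hb' x hxc).mul_const _))).abs fun k => ?_
    exact taylor_gen (convex_ball x ε) hβ hL (hf k) (hD1 _ (convex_ball x ε) hball k)
      (hD2 _ (convex_ball x ε) hball k) hxK hy
  rcases Ω.eq_empty_or_nonempty with hΩe | ⟨x₀, hx₀⟩
  · subst hΩe
    refine ⟨fun _ => 0, ?_, ?_, ?_, ?_, ?_, ?_⟩
    · simp
    · exact contDiffOn_const
    · simp
    · simp
    · simp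
    · simp
  have hC : 0 ≤ C := (abs_nonneg _).trans (b0 x₀ (hsub hx₀))
  have du : ∀ x ∈ Ω, HasFDerivAt u (lf (p x) (q x)) x := by
    refine der _ u p q 1 (2 * C) one_pos (by positivity) dd0 hu hp hq ?_ ?_
    · intro K hK hKΩ k x hx y hy
      rw [Real.rpow_one]
      refine lip_gen hK hC (dd1 k) (fun z hz => (hb k z (hsub (hKΩ hz))).2.2.2.1)
        (fun z hz => ?_) hx hy
      rw [hcomm]
      exact (hb k z (hsub (hKΩ hz))).2.2.2.2.1
    · intro K hK hKΩ k x hx y hy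
      rw [Real.rpow_one]
      exact lip_gen hK hC (dd2 k) (fun z hz => (hb k z (hsub (hKΩ hz))).2.2.2.2.1)
        (fun z hz => (hb k z (hsub (hKΩ hz))).2.2.2.2.2) hx hy
  have dp : ∀ x ∈ Ω, HasFDerivAt p (lf (r11 x) (r12 x)) x := by
    refine der _ p r11 r12 α C hα0 hC dd1 hp hr11 ?_ ?_ ?_
    · intro x hx
      simp only [hcomm]
      exact hr12 x hx
    · intro K hK hKΩ k x hx y hy
      exact (hhol k x (hsub (hKΩ hx)) y (hsub (hKΩ hy))).1
    · intro K hK hKΩ k x hx y hy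
      rw [hcomm]
      exact (hhol k x (hsub (hKΩ hx)) y (hsub (hKΩ hy))).2.1
  have dq : ∀ x ∈ Ω, HasFDerivAt q (lf (r12 x) (r22 x)) x := by
    refine der _ q r12 r22 α C hα0 hC dd2 hq hr12 hr22 ?_ ?_
    · intro K hK hKΩ k x hx y hy
      exact (hhol k x (hsub (hKΩ hx)) y (hsub (hKΩ hy))).2.1
    · intro K hK hKΩ k x hx y hy
      exact (hhol k x (hsub (hKΩ hx)) y (hsub (hKΩ hy))).2.2
  have eD1 : ∀ x ∈ Ω, D1 u x = p x := fun x hx => (D1_of (du x hx)).1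
  have eD2 : ∀ x ∈ Ω, D2 u x = q x := fun x hx => (D1_of (du x hx)).2
  have ev1 : ∀ x ∈ Ω, D1 u =ᶠ[𝓝 x] p := fun x hx => by
    filter_upwards [hΩ.mem_nhds hx] with y hy using eD1 y hy
  have ev2 : ∀ x ∈ Ω, D2 u =ᶠ[𝓝 x] q := fun x hx => by
    filter_upwards [hΩ.mem_nhds hx] with y hy using eD2 y hy
  have eD11 : ∀ x ∈ Ω, D1 (D1 u) x = r11 x := fun x hx => by
    rw [D1_congr (ev1 x hx)]
    exact (D1_of (dp x hx)).1
  have eD12 : ∀ x ∈ Ω, D1 (D2 u) x = r12 x := fun x hx => by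
    rw [D1_congr (ev2 x hx)]
    exact (D1_of (dq x hx)).1
  have eD22 : ∀ x ∈ Ω, D2 (D2 u) x = r22 x := fun x hx => by
    rw [D2_congr (ev2 x hx)]
    exact (D1_of (dq x hx)).2
  have c11 : ContinuousOn r11 Ω := cont_of_hol hα0 fun x hx y hy => h11 x (hsub hx) y (hsub hy)
  have c12 : ContinuousOn r12 Ω := cont_of_hol hα0 fun x hx y hy => h12 x (hsub hx) y (hsub hy)
  have c22 : ContinuousOn r22 Ω := cont_of_hol hα0 fun x hx y hy => h22 x (hsub hx) y (hsub hy)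
  refine ⟨u, ?_, ?_, ?_, ?_, ?_, ?_⟩
  · intro x hx y hy
    exact le_of_tendsto' ((hu x hx).sub (hu y hy)).abs fun k => hlip k x hx y hy
  · exact cd2_of hΩ du (cd1_of hΩ dp c11 c12) (cd1_of hΩ dq c12 c22)
  · intro x hx
    have hxc := hsub hx
    rw [eD1 x hx, eD2 x hx, eD11 x hx, eD12 x hx, eD22 x hx]
    exact ⟨b0 x hxc, b1 x hxc, b2 x hxc, b11 x hxc, b12 x hxc, b22 x hxc⟩
  · intro x hx y hy
    rw [eD11 x hx, eD12 x hx, eD22 x hx, eD11 y hy, eD12 y hy, eD22 y hy]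
    exact ⟨h11 x (hsub hx) y (hsub hy), h12 x (hsub hx) y (hsub hy),
      h22 x (hsub hx) y (hsub hy)⟩
  · intro x hx
    have hxc := hsub hx
    rw [eD11 x hx, eD22 x hx]
    have e1 : r11 x * r22 x = 1 := by
      refine tendsto_nhds_unique ((hr11 x hxc).mul (hr22 x hxc)) ?_
      refine tendsto_const_nhds.congr fun k => ?_
      exact ((hS k).eq x hx).symm
    have e2 : 0 ≤ r11 x := ge_of_tendsto' (hr11 x hxc) fun k => ((hS k).p1 x hx).le
    have e3 : 0 ≤ r22 x := ge_of_tendsto' (hr22 x hxc) fun k => ((hS k).p2 x hx).le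
    refine ⟨lt_of_le_of_ne e2 ?_, lt_of_le_of_ne e3 ?_, e1⟩
    · intro h0
      rw [← h0] at e1
      simp at e1
    · intro h0
      rw [← h0] at e1
      simp at e1
  · intro x hx
    have hxc : x ∈ closure Ω := frontier_subset_closure hx
    refine tendsto_nhds_unique (hu x hxc) ?_
    refine ((hlim x hx).mono_left hUa).congr fun k => ?_
    exact ((hS k).bc x hx).symm

end AQ95
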