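import Pool.Agent.Lib_helper42.AQ.Norms

/-! Module H1, part 1: scaling lemmas. -/

namespace AQ95

open AP AQ Set Filter Topology

lemma exists_lim {U : Ultrafilter ℕ} {f : ℕ → ℝ} {B : ℝ}
    (hB : ∀ᶠ k in (U : Filter ℕ), |f k| ≤ B) : ∃ m, Tendsto f U (𝓝 m) := by
  have h1 : ((U.map f : Ultrafilter ℝ) : Filter ℝ) ≤ 𝓟 (Icc (-B) B) := by
    rw [le_principal_iff]
    show ∀ᶠ k in (U : Filter ℕ), f k ∈ Icc (-B) B
    exact hB.mono fun k hk => abs_le.1 hk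
  obtain ⟨m, -, hm⟩ := isCompact_Icc.ultrafilter_le_nhds (U.map f) h1
  exact ⟨m, hm⟩

/-- Taylor inequality on the disc -/
lemma taylor1 {F : ℝ × ℝ → ℝ} {α S : ℝ} (hα : 0 < α) (hF : Differentiable ℝ F)
    (h1 : Hol α S (D1 F)) (h2 : Hol α S (D2 F)) {x y : ℝ × ℝ} (hx : x ∈ Disc) (hy : y ∈ Disc) :
    |F y - F x - (D1 F x * (y.1 - x.1) + D2 F x * (y.2 - x.2))| ≤
      2 * S * dist x y ^ (1 + α) := by
  have hd0 : 0 ≤ dist x y := dist_nonneg
  rcases hd0.eq_or_lt with h0 | h0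
  · have : x = y := dist_eq_zero.1 h0.symm
    subst this
    simp [Real.zero_rpow (show (1 + α) ≠ 0 by positivity)]
  set e := y - x with he
  have e1 : e.1 = y.1 - x.1 := rfl
  have e2 : e.2 = y.2 - x.2 := rfl
  have a1 : |e.1| ≤ dist x y := by
    rw [e1, ← Real.dist_eq, dist_comm x y, Prod.dist_eq]
    exact le_max_left _ _
  have a2 : |e.2| ≤ dist x y := by
    rw [e2, ← Real.dist_eq, dist_comm x y, Prod.dist_eq]
    exact le_max_right _ _
  have hS : 0 ≤ S := by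
    have := (abs_nonneg _).trans (h1 x hx y hy)
    by_contra hneg
    push Not at hneg
    have : S * dist x y ^ α < 0 := mul_neg_of_neg_of_pos hneg (by positivity)
    linarith
  have hseg : ∀ s ∈ Icc (0 : ℝ) 1, x + s • e ∈ Disc := by
    intro s hs
    exact disc_convex.add_smul_sub_mem hx hy hs
  set G : ℝ → ℝ := fun s => F (x + s • e) - s * (e.1 * D1 F x + e.2 * D2 F x) with hG
  have hd : ∀ s : ℝ, HasDerivAt G (e.1 * D1 F (x + s • e) + e.2 * D2 F (x + s • e) -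
      (e.1 * D1 F x + e.2 * D2 F x)) s := by
    intro s
    exact ((hasDerivAt_line (f := F) (x := x) (e := e) (t := s) (hF _)).sub
      ((hasDerivAt_id s).mul_const (e.1 * D1 F x + e.2 * D2 F x))).congr_deriv (by ring)
  have hbound : ∀ s ∈ Ico (0 : ℝ) 1, ‖e.1 * D1 F (x + s • e) + e.2 * D2 F (x + s • e) -
      (e.1 * D1 F x + e.2 * D2 F x)‖ ≤ 2 * S * dist x y ^ (1 + α) := by
    intro s hs
    have hs' : s ∈ Icc (0 : ℝ) 1 := ⟨hs.1, hs.2.le⟩
    have hdist : dist (x + s • e) x ≤ dist x y := by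
      rw [dist_eq_norm, add_sub_cancel_left, norm_smul, Real.norm_eq_abs, abs_of_nonneg hs.1,
        he, dist_comm x y, dist_eq_norm]
      exact mul_le_of_le_one_left (norm_nonneg _) hs.2.le
    have hpow : dist (x + s • e) x ^ α ≤ dist x y ^ α :=
      Real.rpow_le_rpow dist_nonneg hdist hα.le
    have b1 := (h1 _ (hseg s hs') _ hx).trans (mul_le_mul_of_nonneg_left hpow hS)
    have b2 := (h2 _ (hseg s hs') _ hx).trans (mul_le_mul_of_nonneg_left hpow hS)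
    have hsp : dist x y ^ (1 + α) = dist x y * dist x y ^ α := by
      rw [Real.rpow_add h0, Real.rpow_one]
    rw [Real.norm_eq_abs, hsp]
    have hid : e.1 * D1 F (x + s • e) + e.2 * D2 F (x + s • e) -
      (e.1 * D1 F x + e.2 * D2 F x) = e.1 * (D1 F (x + s • e) - D1 F x) +
        e.2 * (D2 F (x + s • e) - D2 F x) := by ring
    rw [hid]
    calc |e.1 * (D1 F (x + s • e) - D1 F x) + e.2 * (D2 F (x + s • e) - D2 F x)| ≤
        |e.1| * |D1 F (x + s • e) - D1 F x| + |e.2| * |D2 F (x + s • e) - D2 F x| := by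
          rw [← abs_mul, ← abs_mul]
          exact abs_add_le _ _
      _ ≤ dist x y * (S * dist x y ^ α) + dist x y * (S * dist x y ^ α) := by gcongr
      _ = 2 * S * (dist x y * dist x y ^ α) := by ring
  have hm := norm_image_sub_le_of_norm_deriv_le_segment_01'
    (fun s _ => (hd s).hasDerivWithinAt) hbound
  have h3 : G 1 - G 0 = F y - F x - (D1 F x * (y.1 - x.1) + D2 F x * (y.2 - x.2)) := by
    simp only [hG, one_smul, zero_smul, add_zero, one_mul, zero_mul, sub_zero]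
    have : x + e = y := by rw [he]; abel
    rw [this, e1, e2]
    ring
  rw [h3, Real.norm_eq_abs] at hm
  exact hm

/-- rescaled first order Taylor remainder at `X` -/
noncomputable def gq (F : ℝ × ℝ → ℝ) (X : ℝ × ℝ) (ρ T : ℝ) (z : ℝ × ℝ) : ℝ :=
  (F (X + ρ • z) - F X - ρ * (D1 F X * z.1 + D2 F X * z.2)) / (T * ρ)

lemma gq_zero (F : ℝ × ℝ → ℝ) (X : ℝ × ℝ) (ρ T : ℝ) : gq F X ρ T 0 = 0 := by
  simp [gq]

lemma rs_zero (F : ℝ × ℝ → ℝ) (X : ℝ × ℝ) (ρ T : ℝ) : rs F X ρ T 0 = 0 := by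
  simp [rs]

lemma dist_scale (X z z' : ℝ × ℝ) {ρ : ℝ} (hρ : 0 < ρ) :
    dist (X + ρ • z) (X + ρ • z') = ρ * dist z z' := by
  rw [dist_add_left, dist_smul₀, Real.norm_eq_abs, abs_of_pos hρ]

lemma rs_diff {F : ℝ × ℝ → ℝ} {α S ρ : ℝ} {X z z' : ℝ × ℝ} (hS : 0 < S) (hρ : 0 < ρ)
    (hF : Hol α S F) (hz : X + ρ • z ∈ Disc) (hz' : X + ρ • z' ∈ Disc) :
    |rs F X ρ (S * ρ ^ α) z - rs F X ρ (S * ρ ^ α) z'| ≤ dist z z' ^ α := by
  have hT : 0 < S * ρ ^ α := by positivity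
  have h1 := hF _ hz _ hz'
  rw [dist_scale X z z' hρ, Real.mul_rpow hρ.le dist_nonneg] at h1
  have h2 : rs F X ρ (S * ρ ^ α) z - rs F X ρ (S * ρ ^ α) z' =
      (F (X + ρ • z) - F (X + ρ • z')) / (S * ρ ^ α) := by
    unfold rs
    ring
  rw [h2, abs_div, abs_of_pos hT, div_le_iff₀ hT]
  linarith

lemma gq_diff {F : ℝ × ℝ → ℝ} {α S ρ : ℝ} {X z z' : ℝ × ℝ} (hα : 0 < α) (hS : 0 < S)
    (hρ : 0 < ρ) (hF : Differentiable ℝ F) (h1 : Hol α S (D1 F)) (h2 : Hol α S (D2 F))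
    (hz : X + ρ • z ∈ Disc) (hz' : X + ρ • z' ∈ Disc) :
    |gq F X ρ (S * ρ ^ α) z' - gq F X ρ (S * ρ ^ α) z -
      (rs (D1 F) X ρ (S * ρ ^ α) z * (z'.1 - z.1) + rs (D2 F) X ρ (S * ρ ^ α) z * (z'.2 - z.2))| ≤
      2 * dist z z' ^ (1 + α) := by
  have hT : 0 < S * ρ ^ α := by positivity
  have ht := taylor1 hα hF h1 h2 hz hz'
  rw [dist_scale X z z' hρ, Real.mul_rpow hρ.le dist_nonneg, Real.rpow_add hρ, Real.rpow_one] at ht
  have e1 : (X + ρ • z').1 - (X + ρ • z).1 = ρ * (z'.1 - z.1) := by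
    simp only [Prod.fst_add, Prod.smul_fst, smul_eq_mul]
    ring
  have e2 : (X + ρ • z').2 - (X + ρ • z).2 = ρ * (z'.2 - z.2) := by
    simp only [Prod.snd_add, Prod.smul_snd, smul_eq_mul]
    ring
  rw [e1, e2] at ht
  have hid : gq F X ρ (S * ρ ^ α) z' - gq F X ρ (S * ρ ^ α) z -
      (rs (D1 F) X ρ (S * ρ ^ α) z * (z'.1 - z.1) +
        rs (D2 F) X ρ (S * ρ ^ α) z * (z'.2 - z.2)) =
      (F (X + ρ • z') - F (X + ρ • z) - (D1 F (X + ρ • z) * (ρ * (z'.1 - z.1)) +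
        D2 F (X + ρ • z) * (ρ * (z'.2 - z.2)))) / (S * ρ ^ α * ρ) := by
    unfold gq rs
    field_simp
    ring
  rw [hid, abs_div, abs_of_pos (by positivity : 0 < S * ρ ^ α * ρ),
    div_le_iff₀ (by positivity)]
  refine ht.trans (le_of_eq ?_)
  ring

/-- the affine map of the blow-up -/
def Tm (n1 n2 c : ℝ) (x : ℝ × ℝ) : ℝ × ℝ :=
  ((c - x.2) * n1 - x.1 * n2, (c - x.2) * n2 + x.1 * n1)

lemma abs_le_one_of {n1 n2 : ℝ} (hn : n1 ^ 2 + n2 ^ 2 = 1) : |n1| ≤ 1 ∧ |n2| ≤ 1 := by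
  constructor
  · rw [abs_le]
    constructor <;> nlinarith [sq_nonneg n2, sq_nonneg n1]
  · rw [abs_le]
    constructor <;> nlinarith [sq_nonneg n2, sq_nonneg n1]

lemma dist_Tm {n1 n2 : ℝ} (c : ℝ) (hn : n1 ^ 2 + n2 ^ 2 = 1) (x y : ℝ × ℝ) :
    dist (Tm n1 n2 c x) (Tm n1 n2 c y) ≤ 2 * dist x y := by
  obtain ⟨h1, h2⟩ := abs_le_one_of hn
  have a1 : |x.1 - y.1| ≤ dist x y := by
    rw [← Real.dist_eq, Prod.dist_eq]
    exact le_max_left _ _
  have a2 : |x.2 - y.2| ≤ dist x y := by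
    rw [← Real.dist_eq, Prod.dist_eq]
    exact le_max_right _ _
  have hd0 : 0 ≤ dist x y := dist_nonneg
  have key : ∀ p q : ℝ, |p| ≤ 1 → |q| ≤ 1 →
      |(x.2 - y.2) * p + (x.1 - y.1) * q| ≤ 2 * dist x y := by
    intro p q hp hq
    calc |(x.2 - y.2) * p + (x.1 - y.1) * q| ≤ |x.2 - y.2| * |p| + |x.1 - y.1| * |q| := by
          rw [← abs_mul, ← abs_mul]
          exact abs_add_le _ _
      _ ≤ dist x y * 1 + dist x y * 1 := by gcongr
      _ = 2 * dist x y := by ring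
  rw [Prod.dist_eq, Real.dist_eq, Real.dist_eq]
  refine max_le ?_ ?_
  · have : (Tm n1 n2 c x).1 - (Tm n1 n2 c y).1 = (x.2 - y.2) * (-n1) + (x.1 - y.1) * (-n2) := by
      simp only [Tm]
      ring
    rw [this]
    exact key _ _ (by rwa [abs_neg]) (by rwa [abs_neg])
  · have : (Tm n1 n2 c x).2 - (Tm n1 n2 c y).2 = (x.2 - y.2) * (-n2) + (x.1 - y.1) * n1 := by
      simp only [Tm]
      ring
    rw [this]
    exact key _ _ (by rwa [abs_neg]) h1

end AQ95
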