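import Pool.Agent.Lib_helper95.AP.Blowup1

/-! Module H1, part 2: the limit object. -/

namespace AQ95

open AP AQ Set Filter Topology

variable {U : Ultrafilter ℕ} {α : ℝ} {u : ℕ → ℝ × ℝ → ℝ} {S ρ N : ℕ → ℝ} {X Y : ℕ → ℝ × ℝ}

lemma BU.c1 (h : BU U α u S ρ N X Y) (k : ℕ) : ContDiff ℝ 1 (D1 (u k)) := cd_D1 (n := 1) (h.cd k)

lemma BU.c2 (h : BU U α u S ρ N X Y) (k : ℕ) : ContDiff ℝ 1 (D2 (u k)) := cd_D2 (n := 1) (h.cd k)

lemma BU.d1 (h : BU U α u S ρ N X Y) (k : ℕ) : Differentiable ℝ (D1 (u k)) :=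
  (BU.c1 h k).differentiable (by norm_num)

lemma BU.d2 (h : BU U α u S ρ N X Y) (k : ℕ) : Differentiable ℝ (D2 (u k)) :=
  (BU.c2 h k).differentiable (by norm_num)

lemma BU.comm (h : BU U α u S ρ N X Y) (k : ℕ) : D2 (D1 (u k)) = D1 (D2 (u k)) := by
  funext x
  exact (D12_comm (h.cd k).contDiffAt).symm

/-- the core of the blow-up argument: limit object along the ultrafilter -/
lemma core (h : BU U α u S ρ N X Y) {n1 n2 : ℝ} (c : ℝ) (hn : n1 ^ 2 + n2 ^ 2 = 1)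
    (H : Set (ℝ × ℝ))
    (hH : ∀ x ∈ H, ∀ᶠ k in (U : Filter ℕ), X k + ρ k • Tm n1 n2 c x ∈ Disc) :
    ∃ G1 G2 h11 h12 h22 : ℝ × ℝ → ℝ,
      LO H α 16 G1 G2 h11 h12 h22 ∧
      (∀ x ∈ H, ∃ m11 m12 m22 : ℝ,
        Tendsto (fun k => rs (D1 (D1 (u k))) (X k) (ρ k) (S k * ρ k ^ α) (Tm n1 n2 c x)) U
          (𝓝 m11) ∧
        Tendsto (fun k => rs (D1 (D2 (u k))) (X k) (ρ k) (S k * ρ k ^ α) (Tm n1 n2 c x)) U
          (𝓝 m12) ∧
        Tendsto (fun k => rs (D2 (D2 (u k))) (X k) (ρ k) (S k * ρ k ^ α) (Tm n1 n2 c x)) U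
          (𝓝 m22) ∧
        h11 x = n2 ^ 2 * m11 - 2 * (n1 * n2 * m12) + n1 ^ 2 * m22 ∧
        h12 x = n1 * n2 * m11 + (n2 ^ 2 - n1 ^ 2) * m12 - n1 * n2 * m22 ∧
        h22 x = n1 ^ 2 * m11 + 2 * (n1 * n2 * m12) + n2 ^ 2 * m22) := by
  obtain ⟨hn1, hn2⟩ := abs_le_one_of hn
  have hX0 : ∀ k, X k + ρ k • (0 : ℝ × ℝ) ∈ Disc := fun k => by
    rw [smul_zero, add_zero]
    exact h.X_mem k
  -- limits of the second differences
  have limh : ∀ F : ℕ → ℝ × ℝ → ℝ, (∀ k, Hol α (S k) (F k)) → ∀ x ∈ H, ∃ m,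
      Tendsto (fun k => rs (F k) (X k) (ρ k) (S k * ρ k ^ α) (Tm n1 n2 c x)) U (𝓝 m) := by
    intro F hF x hx
    refine exists_lim (B := dist (Tm n1 n2 c x) 0 ^ α) ?_
    filter_upwards [hH x hx] with k hk
    have := rs_diff (h.Spos k) (h.ρ_pos k) (hF k) hk (hX0 k)
    rwa [rs_zero, sub_zero] at this
  have limg : ∀ F : ℕ → ℝ × ℝ → ℝ, (∀ k, Differentiable ℝ (F k)) →
      (∀ k, Hol α (S k) (D1 (F k))) → (∀ k, Hol α (S k) (D2 (F k))) → ∀ x ∈ H, ∃ m,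
      Tendsto (fun k => gq (F k) (X k) (ρ k) (S k * ρ k ^ α) (Tm n1 n2 c x)) U (𝓝 m) := by
    intro F hF hF1 hF2 x hx
    refine exists_lim (B := 2 * dist 0 (Tm n1 n2 c x) ^ (1 + α)) ?_
    filter_upwards [hH x hx] with k hk
    have := gq_diff h.α0 (h.Spos k) (h.ρ_pos k) (hF k) (hF1 k) (hF2 k) (hX0 k) hk
    rwa [gq_zero, rs_zero, rs_zero, zero_mul, zero_mul, add_zero, sub_zero, sub_zero] at this
  have q11 : ∀ x, ∃ m, x ∈ H → Tendsto (fun k =>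
      rs (D1 (D1 (u k))) (X k) (ρ k) (S k * ρ k ^ α) (Tm n1 n2 c x)) U (𝓝 m) := fun x => by
    by_cases hx : x ∈ H
    · exact (limh _ h.hol11 x hx).imp fun _ hm _ => hm
    · exact ⟨0, fun h => (hx h).elim⟩
  have q12 : ∀ x, ∃ m, x ∈ H → Tendsto (fun k =>
      rs (D1 (D2 (u k))) (X k) (ρ k) (S k * ρ k ^ α) (Tm n1 n2 c x)) U (𝓝 m) := fun x => by
    by_cases hx : x ∈ H
    · exact (limh _ h.hol12 x hx).imp fun _ hm _ => hm
    · exact ⟨0, fun h => (hx h).elim⟩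
  have q22 : ∀ x, ∃ m, x ∈ H → Tendsto (fun k =>
      rs (D2 (D2 (u k))) (X k) (ρ k) (S k * ρ k ^ α) (Tm n1 n2 c x)) U (𝓝 m) := fun x => by
    by_cases hx : x ∈ H
    · exact (limh _ h.hol22 x hx).imp fun _ hm _ => hm
    · exact ⟨0, fun h => (hx h).elim⟩
  have q1 : ∀ x, ∃ m, x ∈ H → Tendsto (fun k =>
      gq (D1 (u k)) (X k) (ρ k) (S k * ρ k ^ α) (Tm n1 n2 c x)) U (𝓝 m) := fun x => by
    by_cases hx : x ∈ H
    · exact (limg _ (BU.d1 h) h.hol11 (fun k => by rw [BU.comm h]; exact h.hol12 k) x hx).imp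
        fun _ hm _ => hm
    · exact ⟨0, fun h => (hx h).elim⟩
  have q2 : ∀ x, ∃ m, x ∈ H → Tendsto (fun k =>
      gq (D2 (u k)) (X k) (ρ k) (S k * ρ k ^ α) (Tm n1 n2 c x)) U (𝓝 m) := fun x => by
    by_cases hx : x ∈ H
    · exact (limg _ (BU.d2 h) h.hol12 h.hol22 x hx).imp fun _ hm _ => hm
    · exact ⟨0, fun h => (hx h).elim⟩
  choose m11 hm11 using q11
  choose m12 hm12 using q12
  choose m22 hm22 using q22
  choose g1 hg1 using q1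
  choose g2 hg2 using q2
  -- inequalities for the limits
  have hpow : ∀ x y : ℝ × ℝ, dist (Tm n1 n2 c x) (Tm n1 n2 c y) ^ α ≤ 2 * dist x y ^ α := by
    intro x y
    calc dist (Tm n1 n2 c x) (Tm n1 n2 c y) ^ α ≤ (2 * dist x y) ^ α :=
          Real.rpow_le_rpow dist_nonneg (dist_Tm c hn x y) h.α0.le
      _ = 2 ^ α * dist x y ^ α := Real.mul_rpow (by norm_num) dist_nonneg
      _ ≤ 2 ^ (1 : ℝ) * dist x y ^ α := by
          refine mul_le_mul_of_nonneg_right ?_ (by positivity)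
          exact Real.rpow_le_rpow_of_exponent_le (by norm_num) h.α1.le
      _ = 2 * dist x y ^ α := by rw [Real.rpow_one]
  have hpow1 : ∀ x y : ℝ × ℝ, dist (Tm n1 n2 c x) (Tm n1 n2 c y) ^ (1 + α) ≤
      4 * dist x y ^ (1 + α) := by
    intro x y
    have h1α : 0 ≤ 1 + α := by linarith [h.α0]
    calc dist (Tm n1 n2 c x) (Tm n1 n2 c y) ^ (1 + α) ≤ (2 * dist x y) ^ (1 + α) :=
          Real.rpow_le_rpow dist_nonneg (dist_Tm c hn x y) h1α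
      _ = 2 ^ (1 + α) * dist x y ^ (1 + α) := Real.mul_rpow (by norm_num) dist_nonneg
      _ ≤ 2 ^ (2 : ℝ) * dist x y ^ (1 + α) := by
          refine mul_le_mul_of_nonneg_right ?_ (by positivity)
          exact Real.rpow_le_rpow_of_exponent_le (by norm_num) (by linarith [h.α1])
      _ = 4 * dist x y ^ (1 + α) := by norm_num
  have lh : ∀ (F : ℕ → ℝ × ℝ → ℝ) (m : ℝ × ℝ → ℝ), (∀ k, Hol α (S k) (F k)) →
      (∀ x, x ∈ H → Tendsto (fun k =>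
        rs (F k) (X k) (ρ k) (S k * ρ k ^ α) (Tm n1 n2 c x)) U (𝓝 (m x))) →
      ∀ x ∈ H, ∀ y ∈ H, |m x - m y| ≤ 2 * dist x y ^ α := by
    intro F m hF hm x hx y hy
    refine le_of_tendsto ((hm x hx).sub (hm y hy)).abs ?_
    filter_upwards [hH x hx, hH y hy] with k hkx hky
    exact (rs_diff (h.Spos k) (h.ρ_pos k) (hF k) hkx hky).trans (hpow x y)
  have l11 := lh _ m11 h.hol11 hm11
  have l12 := lh _ m12 h.hol12 hm12
  have l22 := lh _ m22 h.hol22 hm22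
  have lg : ∀ (F : ℕ → ℝ × ℝ → ℝ) (g a b : ℝ × ℝ → ℝ), (∀ k, Differentiable ℝ (F k)) →
      (∀ k, Hol α (S k) (D1 (F k))) → (∀ k, Hol α (S k) (D2 (F k))) →
      (∀ x, x ∈ H → Tendsto (fun k =>
        gq (F k) (X k) (ρ k) (S k * ρ k ^ α) (Tm n1 n2 c x)) U (𝓝 (g x))) →
      (∀ x, x ∈ H → Tendsto (fun k =>
        rs (D1 (F k)) (X k) (ρ k) (S k * ρ k ^ α) (Tm n1 n2 c x)) U (𝓝 (a x))) →
      (∀ x, x ∈ H → Tendsto (fun k =>
        rs (D2 (F k)) (X k) (ρ k) (S k * ρ k ^ α) (Tm n1 n2 c x)) U (𝓝 (b x))) →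
      ∀ x ∈ H, ∀ y ∈ H, |g y - g x - (a x * ((Tm n1 n2 c y).1 - (Tm n1 n2 c x).1) +
        b x * ((Tm n1 n2 c y).2 - (Tm n1 n2 c x).2))| ≤ 8 * dist x y ^ (1 + α) := by
    intro F g a b hF hF1 hF2 hg ha hb x hx y hy
    refine le_of_tendsto (((hg y hy).sub (hg x hx)).sub
      (((ha x hx).mul_const _).add ((hb x hx).mul_const _))).abs ?_
    filter_upwards [hH x hx, hH y hy] with k hkx hky
    refine (gq_diff h.α0 (h.Spos k) (h.ρ_pos k) (hF k) (hF1 k) (hF2 k) hkx hky).trans ?_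
    have := hpow1 x y
    linarith
  have t1 := lg _ g1 m11 m12 (BU.d1 h) h.hol11 (fun k => by rw [BU.comm h]; exact h.hol12 k)
    hg1 hm11 (fun x hx => by
      have := hm12 x hx
      refine this.congr fun k => ?_
      rw [BU.comm h])
  have t2 := lg _ g2 m12 m22 (BU.d2 h) h.hol12 h.hol22 hg2 hm12 hm22
  have hα := h.α0
  have habs : ∀ p q e f D : ℝ, |p| ≤ 1 → |q| ≤ 1 → |e| ≤ 8 * D → |f| ≤ 8 * D →
      |p * e + q * f| ≤ 16 * D := by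
    intro p q e f D hp hq he hf
    have hD : 0 ≤ 8 * D := (abs_nonneg e).trans he
    calc |p * e + q * f| ≤ |p| * |e| + |q| * |f| := by
          rw [← abs_mul, ← abs_mul]
          exact abs_add_le _ _
      _ ≤ 1 * (8 * D) + 1 * (8 * D) := by gcongr
      _ = 16 * D := by ring
  have habs3 : ∀ p q r e f g D : ℝ, |p| ≤ 1 → |q| ≤ 2 → |r| ≤ 1 → |e| ≤ 2 * D → |f| ≤ 2 * D →
      |g| ≤ 2 * D → |p * e + q * f + r * g| ≤ 16 * D := by
    intro p q r e f g D hp hq hr he hf hg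
    have hD : 0 ≤ 2 * D := (abs_nonneg e).trans he
    calc |p * e + q * f + r * g| ≤ |p| * |e| + |q| * |f| + |r| * |g| := by
          rw [← abs_mul, ← abs_mul, ← abs_mul]
          exact abs_add_three _ _ _
      _ ≤ 1 * (2 * D) + 2 * (2 * D) + 1 * (2 * D) := by gcongr
      _ ≤ 16 * D := by linarith
  have s1 : |n1 ^ 2| ≤ 1 := by
    rw [abs_pow]
    exact pow_le_one₀ (abs_nonneg _) hn1
  have s2 : |n2 ^ 2| ≤ 1 := by
    rw [abs_pow]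
    exact pow_le_one₀ (abs_nonneg _) hn2
  have s12 : |n1 * n2| ≤ 1 := by
    rw [abs_mul]
    exact mul_le_one₀ hn1 (abs_nonneg _) hn2
  have s12' : |2 * (n1 * n2)| ≤ 2 := by
    rw [abs_mul, abs_two]
    linarith
  have s3 : |n2 ^ 2 - n1 ^ 2| ≤ 2 := by
    have := abs_sub (n2 ^ 2) (n1 ^ 2)
    linarith
  refine ⟨fun x => -n2 * g1 x + n1 * g2 x, fun x => -(n1 * g1 x + n2 * g2 x),
    fun x => n2 ^ 2 * m11 x - 2 * (n1 * n2 * m12 x) + n1 ^ 2 * m22 x,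
    fun x => n1 * n2 * m11 x + (n2 ^ 2 - n1 ^ 2) * m12 x - n1 * n2 * m22 x,
    fun x => n1 ^ 2 * m11 x + 2 * (n1 * n2 * m12 x) + n2 ^ 2 * m22 x, ?_,
    fun x hx => ⟨m11 x, m12 x, m22 x, hm11 x hx, hm12 x hx, hm22 x hx, rfl, rfl, rfl⟩⟩
  refine ⟨?_, ?_, ?_, ?_, ?_⟩
  · intro x hx y hy
    have := habs (-n2) n1 _ _ _ (by rwa [abs_neg]) hn1 (t1 x hx y hy) (t2 x hx y hy)
    refine le_of_eq_of_le ?_ this
    congr 1
    simp only [Tm]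
    ring
  · intro x hx y hy
    have := habs (-n1) (-n2) _ _ _ (by rwa [abs_neg]) (by rwa [abs_neg]) (t1 x hx y hy)
      (t2 x hx y hy)
    refine le_of_eq_of_le ?_ this
    congr 1
    simp only [Tm]
    ring
  · intro x hx y hy
    have := habs3 (n2 ^ 2) (-(2 * (n1 * n2))) (n1 ^ 2) _ _ _ _ s2 (by rwa [abs_neg]) s1
      (l11 x hx y hy) (l12 x hx y hy) (l22 x hx y hy)
    refine le_of_eq_of_le ?_ this
    congr 1
    ring
  · intro x hx y hy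
    have := habs3 (n1 * n2) (n2 ^ 2 - n1 ^ 2) (-(n1 * n2)) _ _ _ _ s12 s3 (by rwa [abs_neg])
      (l11 x hx y hy) (l12 x hx y hy) (l22 x hx y hy)
    refine le_of_eq_of_le ?_ this
    congr 1
    ring
  · intro x hx y hy
    have := habs3 (n1 ^ 2) (2 * (n1 * n2)) (n2 ^ 2) _ _ _ _ s1 s12' s2
      (l11 x hx y hy) (l12 x hx y hy) (l22 x hx y hy)
    refine le_of_eq_of_le ?_ this
    congr 1
    ring

/-- the limit object is not constant -/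
lemma nonconst (h : BU U α u S ρ N X Y) {n1 n2 : ℝ} (c : ℝ) (hn : n1 ^ 2 + n2 ^ 2 = 1)
    (H : Set (ℝ × ℝ))
    (hH : ∀ x ∈ H, ∀ᶠ k in (U : Filter ℕ), X k + ρ k • Tm n1 n2 c x ∈ Disc)
    (h11 h12 h22 : ℝ × ℝ → ℝ)
    (hlim : ∀ x ∈ H, ∃ m11 m12 m22 : ℝ,
        Tendsto (fun k => rs (D1 (D1 (u k))) (X k) (ρ k) (S k * ρ k ^ α) (Tm n1 n2 c x)) U
          (𝓝 m11) ∧
        Tendsto (fun k => rs (D1 (D2 (u k))) (X k) (ρ k) (S k * ρ k ^ α) (Tm n1 n2 c x)) U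
          (𝓝 m12) ∧
        Tendsto (fun k => rs (D2 (D2 (u k))) (X k) (ρ k) (S k * ρ k ^ α) (Tm n1 n2 c x)) U
          (𝓝 m22) ∧
        h11 x = n2 ^ 2 * m11 - 2 * (n1 * n2 * m12) + n1 ^ 2 * m22 ∧
        h12 x = n1 * n2 * m11 + (n2 ^ 2 - n1 ^ 2) * m12 - n1 * n2 * m22 ∧
        h22 x = n1 ^ 2 * m11 + 2 * (n1 * n2 * m12) + n2 ^ 2 * m22)
    (hdense : ∀ z : ℝ × ℝ, Tendsto (fun k => (ρ k)⁻¹ • (Y k - X k)) U (𝓝 z) →
      ∀ δ > 0, ∃ x ∈ H, ∃ y ∈ H, dist (Tm n1 n2 c x) 0 ≤ δ ∧ dist (Tm n1 n2 c y) z ≤ δ) :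
    ∃ x ∈ H, ∃ y ∈ H, ¬ (h11 x = h11 y ∧ h12 x = h12 y ∧ h22 x = h22 y) := by
  have hα := h.α0
  set zk : ℕ → ℝ × ℝ := fun k => (ρ k)⁻¹ • (Y k - X k) with hzk
  have hzn : ∀ k, ‖zk k‖ = 1 := by
    intro k
    have h1 := h.ρ_pos k
    have h2 : ‖Y k - X k‖ = ρ k := by
      rw [h.ρ_def k, dist_comm, dist_eq_norm]
    rw [hzk]
    simp only
    rw [norm_smul, norm_inv, Real.norm_eq_abs, abs_of_pos h1, h2, inv_mul_cancel₀ h1.ne']
  have hzY : ∀ k, X k + ρ k • zk k = Y k := by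
    intro k
    have h1 := (h.ρ_pos k).ne'
    simp only [hzk]
    rw [smul_inv_smul₀ h1]
    abel
  -- limit of zk
  obtain ⟨z, hz⟩ : ∃ z, Tendsto zk U (𝓝 z) := by
    have h1 : ((U.map zk : Ultrafilter (ℝ × ℝ)) : Filter (ℝ × ℝ)) ≤
        𝓟 (Metric.closedBall (0 : ℝ × ℝ) 1) := by
      rw [le_principal_iff]
      show ∀ᶠ k in (U : Filter ℕ), zk k ∈ Metric.closedBall (0 : ℝ × ℝ) 1
      exact Eventually.of_forall fun k => by
        rw [mem_closedBall_zero_iff, hzn k]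
    obtain ⟨z, -, hz⟩ := (isCompact_closedBall (0 : ℝ × ℝ) 1).ultrafilter_le_nhds (U.map zk) h1
    exact ⟨z, hz⟩
  set δ : ℝ := (1 / 13 : ℝ) ^ (1 / α) with hδ
  have hδ0 : 0 < δ := by positivity
  have hδα : δ ^ α = 1 / 13 := by
    rw [hδ, ← Real.rpow_mul (by norm_num), one_div_mul_cancel hα.ne', Real.rpow_one]
  obtain ⟨x, hx, y, hy, hdx, hdy⟩ := hdense z hz δ hδ0
  refine ⟨x, hx, y, hy, fun hEq => ?_⟩
  obtain ⟨a11, a12, a22, ta11, ta12, ta22, ea1, ea2, ea3⟩ := hlim x hx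
  obtain ⟨b11, b12, b22, tb11, tb12, tb22, eb1, eb2, eb3⟩ := hlim y hy
  obtain ⟨e1, e2, e3⟩ := hEq
  rw [ea1, eb1] at e1
  rw [ea2, eb2] at e2
  rw [ea3, eb3] at e3
  have hn' : n2 ^ 2 = 1 - n1 ^ 2 := by linarith
  have f11 : a11 = b11 := by
    have : (a11 - b11) * (n1 ^ 2 + n2 ^ 2) ^ 2 = 0 := by
      linear_combination n2 ^ 2 * e1 + 2 * (n1 * n2) * e2 + n1 ^ 2 * e3
    rw [hn, one_pow, mul_one] at this
    linarith
  have f12 : a12 = b12 := by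
    have : (a12 - b12) * (n1 ^ 2 + n2 ^ 2) ^ 2 = 0 := by
      linear_combination (-(n1 * n2)) * e1 + (n2 ^ 2 - n1 ^ 2) * e2 + (n1 * n2) * e3
    rw [hn, one_pow, mul_one] at this
    linarith
  have f22 : a22 = b22 := by
    have : (a22 - b22) * (n1 ^ 2 + n2 ^ 2) ^ 2 = 0 := by
      linear_combination n1 ^ 2 * e1 - 2 * (n1 * n2) * e2 + n2 ^ 2 * e3
    rw [hn, one_pow, mul_one] at this
    linarith
  have hX0 : ∀ k, X k + ρ k • (0 : ℝ × ℝ) ∈ Disc := fun k => by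
    rw [smul_zero, add_zero]
    exact h.X_mem k
  -- the three estimates
  have est : ∀ (F : ℕ → ℝ × ℝ → ℝ) (a b : ℝ), (∀ k, Hol α (S k) (F k)) →
      Tendsto (fun k => rs (F k) (X k) (ρ k) (S k * ρ k ^ α) (Tm n1 n2 c x)) U (𝓝 a) →
      Tendsto (fun k => rs (F k) (X k) (ρ k) (S k * ρ k ^ α) (Tm n1 n2 c y)) U (𝓝 b) → a = b →
      ∀ᶠ k in (U : Filter ℕ), |F k (X k) - F k (Y k)| ≤
        (S k * ρ k ^ α) * (dist (zk k) (Tm n1 n2 c y) ^ α +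
        |rs (F k) (X k) (ρ k) (S k * ρ k ^ α) (Tm n1 n2 c y) -
          rs (F k) (X k) (ρ k) (S k * ρ k ^ α) (Tm n1 n2 c x)| + δ ^ α) := by
    intro F a b hF ha hb hab
    filter_upwards [hH x hx, hH y hy] with k hkx hky
    have hT : 0 < S k * ρ k ^ α := mul_pos (h.Spos k) (Real.rpow_pos_of_pos (h.ρ_pos k) _)
    have hYm : X k + ρ k • zk k ∈ Disc := by
      rw [hzY]
      exact h.Y_mem k
    have r1 := rs_diff (h.Spos k) (h.ρ_pos k) (hF k) hYm hky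
    have r2 := rs_diff (h.Spos k) (h.ρ_pos k) (hF k) hkx (hX0 k)
    rw [rs_zero, sub_zero] at r2
    have r3 : dist (Tm n1 n2 c x) 0 ^ α ≤ δ ^ α := Real.rpow_le_rpow dist_nonneg hdx hα.le
    have r4 : F k (Y k) - F k (X k) = (S k * ρ k ^ α) *
        rs (F k) (X k) (ρ k) (S k * ρ k ^ α) (zk k) := by
      unfold rs
      rw [hzY, ← mul_div_assoc, mul_div_cancel_left₀ _ hT.ne']
    have r5 : |F k (X k) - F k (Y k)| = (S k * ρ k ^ α) *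
        |rs (F k) (X k) (ρ k) (S k * ρ k ^ α) (zk k)| := by
      rw [abs_sub_comm, r4, abs_mul, abs_of_pos hT]
    rw [r5]
    refine mul_le_mul_of_nonneg_left ?_ hT.le
    have r6 : rs (F k) (X k) (ρ k) (S k * ρ k ^ α) (zk k) =
        (rs (F k) (X k) (ρ k) (S k * ρ k ^ α) (zk k) -
          rs (F k) (X k) (ρ k) (S k * ρ k ^ α) (Tm n1 n2 c y)) +
        (rs (F k) (X k) (ρ k) (S k * ρ k ^ α) (Tm n1 n2 c y) -
          rs (F k) (X k) (ρ k) (S k * ρ k ^ α) (Tm n1 n2 c x)) +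
        rs (F k) (X k) (ρ k) (S k * ρ k ^ α) (Tm n1 n2 c x) := by ring
    rw [r6]
    refine (abs_add_three _ _ _).trans ?_
    linarith
  have E1 := est _ a11 b11 h.hol11 ta11 tb11 f11
  have E2 := est _ a12 b12 h.hol12 ta12 tb12 f12
  have E3 := est _ a22 b22 h.hol22 ta22 tb22 f22
  have hlimd : Tendsto (fun k => dist (zk k) (Tm n1 n2 c y) ^ α) U
      (𝓝 (dist z (Tm n1 n2 c y) ^ α)) :=
    (hz.dist tendsto_const_nhds).rpow_const (Or.inr hα.le)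
  have hl0 : ∀ (F : ℕ → ℝ × ℝ → ℝ) (a b : ℝ),
      Tendsto (fun k => rs (F k) (X k) (ρ k) (S k * ρ k ^ α) (Tm n1 n2 c x)) U (𝓝 a) →
      Tendsto (fun k => rs (F k) (X k) (ρ k) (S k * ρ k ^ α) (Tm n1 n2 c y)) U (𝓝 b) → a = b →
      Tendsto (fun k => |rs (F k) (X k) (ρ k) (S k * ρ k ^ α) (Tm n1 n2 c y) -
          rs (F k) (X k) (ρ k) (S k * ρ k ^ α) (Tm n1 n2 c x)|) U (𝓝 0) := by
    intro F a b ha hb hab
    have := (hb.sub ha).abs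
    rwa [hab, sub_self, abs_zero] at this
  have L1 := hl0 _ a11 b11 ta11 tb11 f11
  have L2 := hl0 _ a12 b12 ta12 tb12 f12
  have L3 := hl0 _ a22 b22 ta22 tb22 f22
  have hmain : ∀ᶠ k in (U : Filter ℕ), (1 : ℝ) ≤
      2 * ((dist (zk k) (Tm n1 n2 c y) ^ α +
        |rs (D1 (D1 (u k))) (X k) (ρ k) (S k * ρ k ^ α) (Tm n1 n2 c y) -
          rs (D1 (D1 (u k))) (X k) (ρ k) (S k * ρ k ^ α) (Tm n1 n2 c x)| + δ ^ α) +
        (dist (zk k) (Tm n1 n2 c y) ^ α +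
        |rs (D1 (D2 (u k))) (X k) (ρ k) (S k * ρ k ^ α) (Tm n1 n2 c y) -
          rs (D1 (D2 (u k))) (X k) (ρ k) (S k * ρ k ^ α) (Tm n1 n2 c x)| + δ ^ α) +
        (dist (zk k) (Tm n1 n2 c y) ^ α +
        |rs (D2 (D2 (u k))) (X k) (ρ k) (S k * ρ k ^ α) (Tm n1 n2 c y) -
          rs (D2 (D2 (u k))) (X k) (ρ k) (S k * ρ k ^ α) (Tm n1 n2 c x)| + δ ^ α)) := by
    filter_upwards [E1, E2, E3] with k h1 h2 h3
    have hT : 0 < S k * ρ k ^ α := mul_pos (h.Spos k) (Real.rpow_pos_of_pos (h.ρ_pos k) _)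
    have hb := h.big k
    have : (S k * ρ k ^ α) * 1 ≤ (S k * ρ k ^ α) * (2 * ((dist (zk k) (Tm n1 n2 c y) ^ α +
        |rs (D1 (D1 (u k))) (X k) (ρ k) (S k * ρ k ^ α) (Tm n1 n2 c y) -
          rs (D1 (D1 (u k))) (X k) (ρ k) (S k * ρ k ^ α) (Tm n1 n2 c x)| + δ ^ α) +
        (dist (zk k) (Tm n1 n2 c y) ^ α +
        |rs (D1 (D2 (u k))) (X k) (ρ k) (S k * ρ k ^ α) (Tm n1 n2 c y) -
          rs (D1 (D2 (u k))) (X k) (ρ k) (S k * ρ k ^ α) (Tm n1 n2 c x)| + δ ^ α) +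
        (dist (zk k) (Tm n1 n2 c y) ^ α +
        |rs (D2 (D2 (u k))) (X k) (ρ k) (S k * ρ k ^ α) (Tm n1 n2 c y) -
          rs (D2 (D2 (u k))) (X k) (ρ k) (S k * ρ k ^ α) (Tm n1 n2 c x)| + δ ^ α))) := by
      rw [mul_one]
      linarith
    exact le_of_mul_le_mul_left this hT
  have hfin := ge_of_tendsto ((((hlimd.add L1).add_const (δ ^ α)).add
    ((hlimd.add L2).add_const (δ ^ α))).add ((hlimd.add L3).add_const (δ ^ α)) |>.const_mul 2)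
    hmain
  have hd2 : dist z (Tm n1 n2 c y) ^ α ≤ 1 / 13 := by
    rw [← hδα, dist_comm]
    exact Real.rpow_le_rpow dist_nonneg hdy hα.le
  rw [hδα] at hfin
  linarith

end AQ95
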