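import Pool.Agent.Lib_helper95.AP.Blowup2

/-! Module H1, part 3: boundary condition and the final theorem. -/

namespace AQ95

open AP AQ Set Filter Topology

variable {U : Ultrafilter ℕ} {α : ℝ} {u : ℕ → ℝ × ℝ → ℝ} {S ρ N : ℕ → ℝ} {X Y : ℕ → ℝ × ℝ}

/-- a function vanishing on the unit circle: second tangential derivative -/
lemma circle_id {v : ℝ × ℝ → ℝ} (hv : ContDiff ℝ 2 v)
    (h0 : ∀ x : ℝ × ℝ, x.1 ^ 2 + x.2 ^ 2 = 1 → v x = 0) {Z : ℝ × ℝ}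
    (hZ : Z.1 ^ 2 + Z.2 ^ 2 = 1) :
    Z.2 ^ 2 * D1 (D1 v) Z - 2 * (Z.1 * Z.2 * D1 (D2 v) Z) + Z.1 ^ 2 * D2 (D2 v) Z =
      Z.1 * D1 v Z + Z.2 * D2 v Z := by
  -- the angle
  obtain ⟨θ, hθ1, hθ2⟩ : ∃ θ : ℝ, Real.cos θ = Z.1 ∧ Real.sin θ = Z.2 := by
    have hne : (⟨Z.1, Z.2⟩ : ℂ) ≠ 0 := by
      intro h
      have a := congrArg Complex.re h
      have b := congrArg Complex.im h
      simp only [Complex.zero_re, Complex.zero_im] at a b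
      rw [a, b] at hZ
      norm_num at hZ
    have hnorm : ‖(⟨Z.1, Z.2⟩ : ℂ)‖ = 1 := by
      have : ‖(⟨Z.1, Z.2⟩ : ℂ)‖ ^ 2 = 1 := by
        rw [← Complex.normSq_eq_norm_sq, Complex.normSq_mk]
        linarith
      nlinarith [norm_nonneg (⟨Z.1, Z.2⟩ : ℂ)]
    refine ⟨Complex.arg ⟨Z.1, Z.2⟩, ?_, ?_⟩
    · rw [Complex.cos_arg hne, hnorm, div_one]
    · rw [Complex.sin_arg, hnorm, div_one]
  have hd0 : Differentiable ℝ v := hv.differentiable (by norm_num)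
  have hc1 : ContDiff ℝ 1 (D1 v) := cd_D1 (n := 1) hv
  have hc2 : ContDiff ℝ 1 (D2 v) := cd_D2 (n := 1) hv
  have hd1 : Differentiable ℝ (D1 v) := hc1.differentiable (by norm_num)
  have hd2 : Differentiable ℝ (D2 v) := hc2.differentiable (by norm_num)
  have hγ : ∀ t : ℝ, HasDerivAt (fun t => (Real.cos t, Real.sin t)) (-Real.sin t, Real.cos t) t :=
    fun t => (Real.hasDerivAt_cos t).prodMk (Real.hasDerivAt_sin t)
  have hcomp : ∀ F : ℝ × ℝ → ℝ, Differentiable ℝ F → ∀ t : ℝ,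
      HasDerivAt (fun t => F (Real.cos t, Real.sin t))
        (-Real.sin t * D1 F (Real.cos t, Real.sin t) +
          Real.cos t * D2 F (Real.cos t, Real.sin t)) t := by
    intro F hF t
    have := (hF (Real.cos t, Real.sin t)).hasFDerivAt.comp_hasDerivAt t (hγ t)
    rw [fderiv_apply_eq] at this
    exact this
  have hz : ∀ t : ℝ, -Real.sin t * D1 v (Real.cos t, Real.sin t) +
          Real.cos t * D2 v (Real.cos t, Real.sin t) = 0 := by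
    intro t
    have h1 := hcomp v hd0 t
    have h2 : (fun t => v (Real.cos t, Real.sin t)) = fun _ => 0 := by
      funext t
      exact h0 _ (Real.cos_sq_add_sin_sq t)
    rw [h2] at h1
    exact h1.unique (hasDerivAt_const t 0)
  have h3 := ((Real.hasDerivAt_sin θ).neg.mul (hcomp _ hd1 θ)).add
    ((Real.hasDerivAt_cos θ).mul (hcomp _ hd2 θ))
  have h4 : ((-Real.sin * fun t => D1 v (Real.cos t, Real.sin t)) +
      (Real.cos * fun t => D2 v (Real.cos t, Real.sin t))) = fun _ => 0 := by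
    funext t
    exact hz t
  rw [h4] at h3
  have h5 := h3.unique (hasDerivAt_const θ 0)
  have h6 : D2 (D1 v) (Real.cos θ, Real.sin θ) = D1 (D2 v) (Real.cos θ, Real.sin θ) :=
    (D12_comm hv.contDiffAt).symm
  simp only [Pi.neg_apply] at h5
  rw [h6] at h5
  have hZe : (Real.cos θ, Real.sin θ) = Z := Prod.ext hθ1 hθ2
  rw [hZe, hθ1, hθ2] at h5
  linear_combination h5

/-- squares of norms along the blow-up -/
lemma sq_expand (X w : ℝ × ℝ) (ρ : ℝ) :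
    (X + ρ • w).1 ^ 2 + (X + ρ • w).2 ^ 2 =
      X.1 ^ 2 + X.2 ^ 2 + ρ * (2 * (X.1 * w.1 + X.2 * w.2) + ρ * (w.1 ^ 2 + w.2 ^ 2)) := by
  simp only [Prod.fst_add, Prod.smul_fst, smul_eq_mul, Prod.snd_add, Prod.smul_snd]
  ring

/-- bounds for the pairing `Z · Du` and the quadratic form along the circle -/
lemma bdry_diff {v : ℝ × ℝ → ℝ} {M : ℝ} (hv : ContDiff ℝ 2 v)
    (h0 : ∀ x : ℝ × ℝ, x.1 ^ 2 + x.2 ^ 2 = 1 → v x = 0)
    (b1 : Bd M (D1 v)) (b2 : Bd M (D2 v)) (b11 : Bd M (D1 (D1 v))) (b12 : Bd M (D1 (D2 v)))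
    (b22 : Bd M (D2 (D2 v))) {Z Z' : ℝ × ℝ}
    (hZ : Z.1 ^ 2 + Z.2 ^ 2 = 1) (hZ' : Z'.1 ^ 2 + Z'.2 ^ 2 = 1) :
    |Z.2 ^ 2 * (D1 (D1 v) Z - D1 (D1 v) Z') - 2 * (Z.1 * Z.2 * (D1 (D2 v) Z - D1 (D2 v) Z')) +
      Z.1 ^ 2 * (D2 (D2 v) Z - D2 (D2 v) Z')| ≤ 20 * M * dist Z Z' := by
  have hM : 0 ≤ M := b1.nonneg
  have hZm : Z ∈ Disc := le_of_eq hZ
  have hZm' : Z' ∈ Disc := le_of_eq hZ'
  have i1 := circle_id hv h0 hZ
  have i2 := circle_id hv h0 hZ'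
  have hc1 : ContDiff ℝ 1 (D1 v) := cd_D1 (n := 1) hv
  have hc2 : ContDiff ℝ 1 (D2 v) := cd_D2 (n := 1) hv
  have hcomm : D2 (D1 v) = D1 (D2 v) := by
    funext x
    exact (D12_comm hv.contDiffAt).symm
  have l1 : |D1 v Z - D1 v Z'| ≤ 2 * M * dist Z Z' :=
    lip_of_bd (hc1.differentiable (by norm_num)) b11 (by rw [hcomm]; exact b12) Z hZm Z' hZm'
  have l2 : |D2 v Z - D2 v Z'| ≤ 2 * M * dist Z Z' :=
    lip_of_bd (hc2.differentiable (by norm_num)) b12 b22 Z hZm Z' hZm'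
  set D := dist Z Z' with hD
  have hD0 : 0 ≤ D := dist_nonneg
  have a1 : |Z.1 - Z'.1| ≤ D := by
    rw [hD, ← Real.dist_eq, Prod.dist_eq]
    exact le_max_left _ _
  have a2 : |Z.2 - Z'.2| ≤ D := by
    rw [hD, ← Real.dist_eq, Prod.dist_eq]
    exact le_max_right _ _
  have z1 := disc_abs1 hZm
  have z2 := disc_abs2 hZm
  have z1' := disc_abs1 hZm'
  have z2' := disc_abs2 hZm'
  have p1 : |Z.1 + Z'.1| ≤ 2 := (abs_add_le _ _).trans (by linarith)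
  have p2 : |Z.2 + Z'.2| ≤ 2 := (abs_add_le _ _).trans (by linarith)
  -- the identity
  have key : Z.2 ^ 2 * (D1 (D1 v) Z - D1 (D1 v) Z') -
      2 * (Z.1 * Z.2 * (D1 (D2 v) Z - D1 (D2 v) Z')) +
      Z.1 ^ 2 * (D2 (D2 v) Z - D2 (D2 v) Z') =
      Z.1 * (D1 v Z - D1 v Z') + (Z.1 - Z'.1) * D1 v Z' +
      (Z.2 * (D2 v Z - D2 v Z') + (Z.2 - Z'.2) * D2 v Z') +
      (-((Z.2 - Z'.2) * (Z.2 + Z'.2)) * D1 (D1 v) Z' +
      2 * ((Z.1 * (Z.2 - Z'.2) + (Z.1 - Z'.1) * Z'.2) * D1 (D2 v) Z') +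
      (-((Z.1 - Z'.1) * (Z.1 + Z'.1)) * D2 (D2 v) Z')) := by
    linear_combination i1 - i2
  have e1 : |Z.1 * (D1 v Z - D1 v Z')| ≤ 2 * M * D := by
    rw [abs_mul]
    exact (mul_le_mul z1 l1 (abs_nonneg _) zero_le_one).trans (by linarith)
  have e2 : |(Z.1 - Z'.1) * D1 v Z'| ≤ M * D := by
    rw [abs_mul]
    exact (mul_le_mul a1 (b1 _ hZm') (abs_nonneg _) hD0).trans (by linarith)
  have e3 : |Z.2 * (D2 v Z - D2 v Z')| ≤ 2 * M * D := by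
    rw [abs_mul]
    exact (mul_le_mul z2 l2 (abs_nonneg _) zero_le_one).trans (by linarith)
  have e4 : |(Z.2 - Z'.2) * D2 v Z'| ≤ M * D := by
    rw [abs_mul]
    exact (mul_le_mul a2 (b2 _ hZm') (abs_nonneg _) hD0).trans (by linarith)
  have e5 : |(-((Z.2 - Z'.2) * (Z.2 + Z'.2))) * D1 (D1 v) Z'| ≤ 2 * M * D := by
    rw [abs_mul, abs_neg, abs_mul]
    refine (mul_le_mul (mul_le_mul a2 p2 (abs_nonneg _) hD0) (b11 _ hZm') (abs_nonneg _)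
      (by positivity)).trans (le_of_eq (by ring))
  have e7 : |(-((Z.1 - Z'.1) * (Z.1 + Z'.1))) * D2 (D2 v) Z'| ≤ 2 * M * D := by
    rw [abs_mul, abs_neg, abs_mul]
    refine (mul_le_mul (mul_le_mul a1 p1 (abs_nonneg _) hD0) (b22 _ hZm') (abs_nonneg _)
      (by positivity)).trans (le_of_eq (by ring))
  have e6 : |2 * ((Z.1 * (Z.2 - Z'.2) + (Z.1 - Z'.1) * Z'.2) * D1 (D2 v) Z')| ≤ 4 * M * D := by
    rw [abs_mul, abs_mul, abs_two]
    have q1 : |Z.1 * (Z.2 - Z'.2) + (Z.1 - Z'.1) * Z'.2| ≤ 2 * D := by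
      refine (abs_add_le _ _).trans ?_
      rw [abs_mul, abs_mul]
      have r1 : |Z.1| * |Z.2 - Z'.2| ≤ 1 * D := mul_le_mul z1 a2 (abs_nonneg _) zero_le_one
      have r2 : |Z.1 - Z'.1| * |Z'.2| ≤ D * 1 := mul_le_mul a1 z2' (abs_nonneg _) hD0
      linarith
    have := mul_le_mul q1 (b12 _ hZm') (abs_nonneg _) (by positivity)
    linarith
  rw [key]
  have t1 := abs_add_le (Z.1 * (D1 v Z - D1 v Z') + (Z.1 - Z'.1) * D1 v Z' +
      (Z.2 * (D2 v Z - D2 v Z') + (Z.2 - Z'.2) * D2 v Z'))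
      (-((Z.2 - Z'.2) * (Z.2 + Z'.2)) * D1 (D1 v) Z' +
      2 * ((Z.1 * (Z.2 - Z'.2) + (Z.1 - Z'.1) * Z'.2) * D1 (D2 v) Z') +
      (-((Z.1 - Z'.1) * (Z.1 + Z'.1)) * D2 (D2 v) Z'))
  have t2 := abs_add_le (Z.1 * (D1 v Z - D1 v Z') + (Z.1 - Z'.1) * D1 v Z')
      (Z.2 * (D2 v Z - D2 v Z') + (Z.2 - Z'.2) * D2 v Z')
  have t3 := abs_add_le (Z.1 * (D1 v Z - D1 v Z')) ((Z.1 - Z'.1) * D1 v Z')
  have t4 := abs_add_le (Z.2 * (D2 v Z - D2 v Z')) ((Z.2 - Z'.2) * D2 v Z')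
  have t5 := abs_add_three (-((Z.2 - Z'.2) * (Z.2 + Z'.2)) * D1 (D1 v) Z')
      (2 * ((Z.1 * (Z.2 - Z'.2) + (Z.1 - Z'.1) * Z'.2) * D1 (D2 v) Z'))
      (-((Z.1 - Z'.1) * (Z.1 + Z'.1)) * D2 (D2 v) Z')
  have hMD : 0 ≤ M * D := by positivity
  linarith

/-- the tangential second difference -/
noncomputable def qq (u : ℝ × ℝ → ℝ) (X : ℝ × ℝ) (ρ T n1 n2 : ℝ) (w : ℝ × ℝ) : ℝ :=
  n2 ^ 2 * rs (D1 (D1 u)) X ρ T w - 2 * (n1 * n2 * rs (D1 (D2 u)) X ρ T w) +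
    n1 ^ 2 * rs (D2 (D2 u)) X ρ T w

lemma abs_Tm {n1 n2 : ℝ} (c : ℝ) (hn : n1 ^ 2 + n2 ^ 2 = 1) (y : ℝ × ℝ) :
    |(Tm n1 n2 c y).1| ≤ |c| + |y.2| + |y.1| ∧ |(Tm n1 n2 c y).2| ≤ |c| + |y.2| + |y.1| := by
  obtain ⟨h1, h2⟩ := abs_le_one_of hn
  have key : ∀ p q : ℝ, |p| ≤ 1 → |q| ≤ 1 → |(c - y.2) * p + y.1 * q| ≤ |c| + |y.2| + |y.1| := by
    intro p q hp hq
    have e1 : |c - y.2| ≤ |c| + |y.2| := abs_sub _ _
    calc |(c - y.2) * p + y.1 * q| ≤ |c - y.2| * |p| + |y.1| * |q| := by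
          rw [← abs_mul, ← abs_mul]
          exact abs_add_le _ _
      _ ≤ (|c| + |y.2|) * 1 + |y.1| * 1 := by gcongr
      _ = _ := by ring
  constructor
  · have : (Tm n1 n2 c y).1 = (c - y.2) * n1 + y.1 * (-n2) := by
      simp only [Tm]
      ring
    rw [this]
    exact key _ _ h1 (by rwa [abs_neg])
  · exact key _ _ h2 h1

/-- the boundary estimate at a fixed level -/
lemma bdry_est (h : BU U α u S ρ N X Y) {n1 n2 : ℝ} (c : ℝ) (hn : n1 ^ 2 + n2 ^ 2 = 1) (k : ℕ)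
    {x x' : ℝ × ℝ} {θ θ' B : ℝ} (hx : 0 < x.2) (hx' : 0 < x'.2)
    (hkx : X k + ρ k • Tm n1 n2 c x ∈ Disc) (hkx' : X k + ρ k • Tm n1 n2 c x' ∈ Disc)
    (hθ : θ ∈ Icc 0 (2 * x.2)) (hθ' : θ' ∈ Icc 0 (2 * x'.2))
    (hZ : (X k + ρ k • Tm n1 n2 c (x.1, x.2 - θ)).1 ^ 2 +
      (X k + ρ k • Tm n1 n2 c (x.1, x.2 - θ)).2 ^ 2 = 1)
    (hZ' : (X k + ρ k • Tm n1 n2 c (x'.1, x'.2 - θ')).1 ^ 2 +
      (X k + ρ k • Tm n1 n2 c (x'.1, x'.2 - θ')).2 ^ 2 = 1)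
    (hB : B = (|c| + 3 * x.2 + |x.1|) + (|c| + 3 * x'.2 + |x'.1|)) :
    |qq (u k) (X k) (ρ k) (S k * ρ k ^ α) n1 n2 (Tm n1 n2 c x) -
      qq (u k) (X k) (ρ k) (S k * ρ k ^ α) n1 n2 (Tm n1 n2 c x')| ≤
      16 * (x.2 ^ α + x'.2 ^ α) + 20 * B * (N k * ρ k / (S k * ρ k ^ α)) +
      8 * B ^ α * (|(X k).1 - n1| + |(X k).2 - n2| + ρ k * B) := by
  have hα := h.α0
  have hρ := h.ρ_pos k
  have hS := h.Spos k
  have hT : 0 < S k * ρ k ^ α := mul_pos hS (Real.rpow_pos_of_pos hρ _)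
  obtain ⟨hn1, hn2⟩ := abs_le_one_of hn
  set w := Tm n1 n2 c (x.1, x.2 - θ) with hw
  set w' := Tm n1 n2 c (x'.1, x'.2 - θ') with hw'
  set Z := X k + ρ k • w with hZd
  set Z' := X k + ρ k • w' with hZd'
  have hZm : Z ∈ Disc := le_of_eq hZ
  have hZm' : Z' ∈ Disc := le_of_eq hZ'
  -- bounds
  have hy2 : ∀ (z : ℝ × ℝ) (ϑ : ℝ), 0 < z.2 → ϑ ∈ Icc 0 (2 * z.2) → |z.2 - ϑ| ≤ 3 * z.2 := by
    intro z ϑ hz hϑ
    rw [abs_le]
    constructor <;> linarith [hϑ.1, hϑ.2]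
  have hwb := abs_Tm c hn (x.1, x.2 - θ)
  have hwb' := abs_Tm c hn (x'.1, x'.2 - θ')
  rw [← hw] at hwb
  rw [← hw'] at hwb'
  simp only at hwb hwb'
  have b1 := hy2 x θ hx hθ
  have b2 := hy2 x' θ' hx' hθ'
  have hB0 : 0 < B := by
    rw [hB]
    positivity
  have hB1 : |c| + 3 * x.2 + |x.1| ≤ B := by
    rw [hB]
    have : 0 ≤ |c| + 3 * x'.2 + |x'.1| := by positivity
    linarith
  have hdw : dist w w' ≤ B := by
    rw [Prod.dist_eq, Real.dist_eq, Real.dist_eq, hB]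
    refine max_le ((abs_sub _ _).trans ?_) ((abs_sub _ _).trans ?_)
    · linarith [hwb.1, hwb'.1]
    · linarith [hwb.2, hwb'.2]
  have hdwα : dist w w' ^ α ≤ B ^ α := Real.rpow_le_rpow dist_nonneg hdw hα.le
  -- shift inside
  have shift : ∀ (z : ℝ × ℝ) (ϑ : ℝ), 0 < z.2 → ϑ ∈ Icc 0 (2 * z.2) →
      X k + ρ k • Tm n1 n2 c z ∈ Disc → X k + ρ k • Tm n1 n2 c (z.1, z.2 - ϑ) ∈ Disc →
      |qq (u k) (X k) (ρ k) (S k * ρ k ^ α) n1 n2 (Tm n1 n2 c z) -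
        qq (u k) (X k) (ρ k) (S k * ρ k ^ α) n1 n2 (Tm n1 n2 c (z.1, z.2 - ϑ))| ≤
        16 * z.2 ^ α := by
    intro z ϑ hz hϑ hz1 hz2
    have hdist : dist (Tm n1 n2 c z) (Tm n1 n2 c (z.1, z.2 - ϑ)) ≤ 4 * z.2 := by
      refine (dist_Tm c hn _ _).trans ?_
      have : dist z (z.1, z.2 - ϑ) ≤ 2 * z.2 := by
        rw [Prod.dist_eq]
        refine max_le ?_ ?_
        · simp only [dist_self]
          positivity
        · rw [Real.dist_eq]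
          simp only [sub_sub_cancel]
          rw [abs_of_nonneg hϑ.1]
          exact hϑ.2
      linarith
    have hpow : dist (Tm n1 n2 c z) (Tm n1 n2 c (z.1, z.2 - ϑ)) ^ α ≤ 4 * z.2 ^ α := by
      calc dist (Tm n1 n2 c z) (Tm n1 n2 c (z.1, z.2 - ϑ)) ^ α ≤ (4 * z.2) ^ α :=
            Real.rpow_le_rpow dist_nonneg hdist hα.le
        _ = 4 ^ α * z.2 ^ α := Real.mul_rpow (by norm_num) hz.le
        _ ≤ 4 ^ (1 : ℝ) * z.2 ^ α := by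
            refine mul_le_mul_of_nonneg_right ?_ (by positivity)
            exact Real.rpow_le_rpow_of_exponent_le (by norm_num) h.α1.le
        _ = 4 * z.2 ^ α := by rw [Real.rpow_one]
    have r1 := (rs_diff hS hρ (h.hol11 k) hz1 hz2).trans hpow
    have r2 := (rs_diff hS hρ (h.hol12 k) hz1 hz2).trans hpow
    have r3 := (rs_diff hS hρ (h.hol22 k) hz1 hz2).trans hpow
    have s1 : |n1 ^ 2| ≤ 1 := by
      rw [abs_pow]
      exact pow_le_one₀ (abs_nonneg _) hn1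
    have s2 : |n2 ^ 2| ≤ 1 := by
      rw [abs_pow]
      exact pow_le_one₀ (abs_nonneg _) hn2
    have s12' : |2 * (n1 * n2)| ≤ 2 := by
      rw [abs_mul, abs_two, abs_mul]
      have : |n1| * |n2| ≤ 1 := mul_le_one₀ hn1 (abs_nonneg _) hn2
      linarith
    have hid : ∀ a b d a' b' d' : ℝ, (n2 ^ 2 * a - 2 * (n1 * n2 * b) + n1 ^ 2 * d) -
        (n2 ^ 2 * a' - 2 * (n1 * n2 * b') + n1 ^ 2 * d') =
        n2 ^ 2 * (a - a') + (-(2 * (n1 * n2))) * (b - b') + n1 ^ 2 * (d - d') := by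
      intro a b d a' b' d'
      ring
    unfold qq
    rw [hid]
    refine (abs_add_three _ _ _).trans ?_
    rw [abs_mul, abs_mul, abs_mul, abs_neg]
    have hz0 : 0 ≤ 4 * z.2 ^ α := by positivity
    have m1 := mul_le_mul s2 r1 (abs_nonneg _) zero_le_one
    have m2 := mul_le_mul s12' r2 (abs_nonneg _) zero_le_two
    have m3 := mul_le_mul s1 r3 (abs_nonneg _) zero_le_one
    linarith
  have sh1 := shift x θ hx hθ hkx hZm
  have sh2 := shift x' θ' hx' hθ' hkx' hZm'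
  rw [← hw] at sh1
  rw [← hw'] at sh2
  -- the middle term
  obtain ⟨nb1, nb2, nb11, nb12, nb22⟩ := h.N_bd k
  have hmid := bdry_diff (h.cd k) (h.bc k) nb1 nb2 nb11 nb12 nb22 hZ hZ'
  have hdZ : dist Z Z' = ρ k * dist w w' := dist_scale _ _ _ hρ
  have hN : 0 ≤ N k := nb1.nonneg
  rw [hdZ] at hmid
  set Δ1 := D1 (D1 (u k)) Z - D1 (D1 (u k)) Z' with hΔ1
  set Δ2 := D1 (D2 (u k)) Z - D1 (D2 (u k)) Z' with hΔ2
  set Δ3 := D2 (D2 (u k)) Z - D2 (D2 (u k)) Z' with hΔ3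
  have hqd : qq (u k) (X k) (ρ k) (S k * ρ k ^ α) n1 n2 w -
      qq (u k) (X k) (ρ k) (S k * ρ k ^ α) n1 n2 w' =
      (Z.2 ^ 2 * Δ1 - 2 * (Z.1 * Z.2 * Δ2) + Z.1 ^ 2 * Δ3) / (S k * ρ k ^ α) +
      ((n2 ^ 2 - Z.2 ^ 2) * Δ1 - 2 * ((n1 * n2 - Z.1 * Z.2) * Δ2) + (n1 ^ 2 - Z.1 ^ 2) * Δ3) /
        (S k * ρ k ^ α) := by
    unfold qq rs
    rw [← hZd, ← hZd', hΔ1, hΔ2, hΔ3]
    ring
  have hA : |(Z.2 ^ 2 * Δ1 - 2 * (Z.1 * Z.2 * Δ2) + Z.1 ^ 2 * Δ3) / (S k * ρ k ^ α)| ≤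
      20 * B * (N k * ρ k / (S k * ρ k ^ α)) := by
    rw [abs_div, abs_of_pos hT, div_le_iff₀ hT]
    have : 20 * B * (N k * ρ k / (S k * ρ k ^ α)) * (S k * ρ k ^ α) = 20 * N k * (ρ k * B) := by
      field_simp
    rw [this]
    refine hmid.trans ?_
    gcongr
  have hZ1 : |Z.1 - n1| ≤ |(X k).1 - n1| + |(X k).2 - n2| + ρ k * B := by
    have : Z.1 - n1 = ((X k).1 - n1) + ρ k * w.1 := by
      simp only [hZd, Prod.fst_add, Prod.smul_fst, smul_eq_mul]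
      ring
    rw [this]
    refine (abs_add_le _ _).trans ?_
    rw [abs_mul, abs_of_pos hρ]
    have e1 : ρ k * |w.1| ≤ ρ k * B := by
      refine mul_le_mul_of_nonneg_left ?_ hρ.le
      linarith [hwb.1]
    linarith [abs_nonneg ((X k).2 - n2)]
  have hZ2 : |Z.2 - n2| ≤ |(X k).1 - n1| + |(X k).2 - n2| + ρ k * B := by
    have : Z.2 - n2 = ((X k).2 - n2) + ρ k * w.2 := by
      simp only [hZd, Prod.snd_add, Prod.smul_snd, smul_eq_mul]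
      ring
    rw [this]
    refine (abs_add_le _ _).trans ?_
    rw [abs_mul, abs_of_pos hρ]
    have e1 : ρ k * |w.2| ≤ ρ k * B := by
      refine mul_le_mul_of_nonneg_left ?_ hρ.le
      linarith [hwb.2]
    linarith [abs_nonneg ((X k).1 - n1)]
  set ε := |(X k).1 - n1| + |(X k).2 - n2| + ρ k * B with hε
  have hε0 : 0 ≤ ε := by positivity
  have hΔ : ∀ F : ℝ × ℝ → ℝ, Hol α (S k) F → |F Z - F Z'| ≤ (S k * ρ k ^ α) * B ^ α := by
    intro F hF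
    refine (hF Z hZm Z' hZm').trans ?_
    rw [hdZ, Real.mul_rpow hρ.le dist_nonneg, ← mul_assoc]
    exact mul_le_mul_of_nonneg_left hdwα hT.le
  have d1 := hΔ _ (h.hol11 k)
  have d2 := hΔ _ (h.hol12 k)
  have d3 := hΔ _ (h.hol22 k)
  rw [← hΔ1] at d1
  rw [← hΔ2] at d2
  rw [← hΔ3] at d3
  have z1 := disc_abs1 hZm
  have z2 := disc_abs2 hZm
  have c1 : |n2 ^ 2 - Z.2 ^ 2| ≤ 2 * ε := by
    have : n2 ^ 2 - Z.2 ^ 2 = (-(Z.2 - n2)) * (n2 + Z.2) := by ring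
    rw [this, abs_mul, abs_neg]
    have e1 : |n2 + Z.2| ≤ 2 := (abs_add_le _ _).trans (by linarith)
    exact (mul_le_mul hZ2 e1 (abs_nonneg _) hε0).trans (by linarith)
  have c3 : |n1 ^ 2 - Z.1 ^ 2| ≤ 2 * ε := by
    have : n1 ^ 2 - Z.1 ^ 2 = (-(Z.1 - n1)) * (n1 + Z.1) := by ring
    rw [this, abs_mul, abs_neg]
    have e1 : |n1 + Z.1| ≤ 2 := (abs_add_le _ _).trans (by linarith)
    exact (mul_le_mul hZ1 e1 (abs_nonneg _) hε0).trans (by linarith)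
  have c2 : |n1 * n2 - Z.1 * Z.2| ≤ 2 * ε := by
    have : n1 * n2 - Z.1 * Z.2 = (-n1) * (Z.2 - n2) + (-(Z.1 - n1)) * Z.2 := by ring
    rw [this]
    refine (abs_add_le _ _).trans ?_
    rw [abs_mul, abs_mul, abs_neg, abs_neg]
    have e1 := mul_le_mul hn1 hZ2 (abs_nonneg _) zero_le_one
    have e2 := mul_le_mul hZ1 z2 (abs_nonneg _) hε0
    linarith
  have hC : |((n2 ^ 2 - Z.2 ^ 2) * Δ1 - 2 * ((n1 * n2 - Z.1 * Z.2) * Δ2) +
      (n1 ^ 2 - Z.1 ^ 2) * Δ3) / (S k * ρ k ^ α)| ≤ 8 * B ^ α * ε := by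
    rw [abs_div, abs_of_pos hT, div_le_iff₀ hT]
    have e0 : (n2 ^ 2 - Z.2 ^ 2) * Δ1 - 2 * ((n1 * n2 - Z.1 * Z.2) * Δ2) +
      (n1 ^ 2 - Z.1 ^ 2) * Δ3 = (n2 ^ 2 - Z.2 ^ 2) * Δ1 + (-2) * ((n1 * n2 - Z.1 * Z.2) * Δ2) +
      (n1 ^ 2 - Z.1 ^ 2) * Δ3 := by ring
    rw [e0]
    refine (abs_add_three _ _ _).trans ?_
    rw [abs_mul, abs_mul, abs_mul, abs_mul, abs_neg, abs_two]
    have m1 := mul_le_mul c1 d1 (abs_nonneg _) (by positivity)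
    have m2 := mul_le_mul c2 d2 (abs_nonneg _) (by positivity)
    have m3 := mul_le_mul c3 d3 (abs_nonneg _) (by positivity)
    linarith
  have hmid2 : |qq (u k) (X k) (ρ k) (S k * ρ k ^ α) n1 n2 w -
      qq (u k) (X k) (ρ k) (S k * ρ k ^ α) n1 n2 w'| ≤
      20 * B * (N k * ρ k / (S k * ρ k ^ α)) + 8 * B ^ α * ε := by
    rw [hqd]
    exact (abs_add_le _ _).trans (add_le_add hA hC)
  have hsplit : qq (u k) (X k) (ρ k) (S k * ρ k ^ α) n1 n2 (Tm n1 n2 c x) -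
      qq (u k) (X k) (ρ k) (S k * ρ k ^ α) n1 n2 (Tm n1 n2 c x') =
      (qq (u k) (X k) (ρ k) (S k * ρ k ^ α) n1 n2 (Tm n1 n2 c x) -
        qq (u k) (X k) (ρ k) (S k * ρ k ^ α) n1 n2 w) +
      (qq (u k) (X k) (ρ k) (S k * ρ k ^ α) n1 n2 w -
        qq (u k) (X k) (ρ k) (S k * ρ k ^ α) n1 n2 w') +
      (-(qq (u k) (X k) (ρ k) (S k * ρ k ^ α) n1 n2 (Tm n1 n2 c x') -
        qq (u k) (X k) (ρ k) (S k * ρ k ^ α) n1 n2 w')) := by ring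
  rw [hsplit]
  refine (abs_add_three _ _ _).trans ?_
  rw [abs_neg]
  linarith

/-- distance to the circle, rescaled -/
noncomputable def kap (X : ℝ × ℝ) (ρ : ℝ) : ℝ := (1 - (X.1 ^ 2 + X.2 ^ 2)) / ρ

lemma mem_disc_iff {X w : ℝ × ℝ} {ρ : ℝ} (hρ : 0 < ρ) :
    X + ρ • w ∈ Disc ↔
      2 * (X.1 * w.1 + X.2 * w.2) + ρ * (w.1 ^ 2 + w.2 ^ 2) ≤ kap X ρ := by
  show (X + ρ • w).1 ^ 2 + (X + ρ • w).2 ^ 2 ≤ 1 ↔ _
  rw [sq_expand, kap, le_div_iff₀ hρ]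
  constructor <;> intro h <;> linarith

lemma mem_circle_iff {X w : ℝ × ℝ} {ρ : ℝ} (hρ : 0 < ρ) :
    (X + ρ • w).1 ^ 2 + (X + ρ • w).2 ^ 2 = 1 ↔
      2 * (X.1 * w.1 + X.2 * w.2) + ρ * (w.1 ^ 2 + w.2 ^ 2) = kap X ρ := by
  rw [sq_expand, kap, eq_div_iff hρ.ne']
  constructor <;> intro h <;> linarith

lemma kap_nonneg (h : BU U α u S ρ N X Y) (k : ℕ) : 0 ≤ kap (X k) (ρ k) := by
  have h1 := h.X_mem k
  have h2 : (X k).1 ^ 2 + (X k).2 ^ 2 ≤ 1 := h1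
  exact div_nonneg (by linarith) (h.ρ_pos k).le

lemma lim_pair {n1 n2 : ℝ} (hρl : Tendsto ρ U (𝓝 0)) (hX1 : Tendsto (fun k => (X k).1) U (𝓝 n1))
    (hX2 : Tendsto (fun k => (X k).2) U (𝓝 n2)) {w : ℕ → ℝ × ℝ} {w0 : ℝ × ℝ}
    (hw : Tendsto w U (𝓝 w0)) :
    Tendsto (fun k => 2 * ((X k).1 * (w k).1 + (X k).2 * (w k).2) +
      ρ k * ((w k).1 ^ 2 + (w k).2 ^ 2)) U (𝓝 (2 * (n1 * w0.1 + n2 * w0.2))) := by
  have h1 : Tendsto (fun k => (w k).1) U (𝓝 w0.1) := (continuous_fst.tendsto _).comp hw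
  have h2 : Tendsto (fun k => (w k).2) U (𝓝 w0.2) := (continuous_snd.tendsto _).comp hw
  have h3 := (((hX1.mul h1).add (hX2.mul h2)).const_mul 2).add
    (hρl.mul ((h1.pow 2).add (h2.pow 2)))
  rwa [zero_mul, add_zero] at h3

lemma pair_Tm {n1 n2 : ℝ} (c : ℝ) (hn : n1 ^ 2 + n2 ^ 2 = 1) (y : ℝ × ℝ) :
    n1 * (Tm n1 n2 c y).1 + n2 * (Tm n1 n2 c y).2 = c - y.2 := by
  simp only [Tm]
  linear_combination (c - y.2) * hn

/-- points of the half plane are eventually mapped into the disc -/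
lemma half_in (h : BU U α u S ρ N X Y) {n1 n2 κ : ℝ} (hn : n1 ^ 2 + n2 ^ 2 = 1)
    (hX1 : Tendsto (fun k => (X k).1) U (𝓝 n1)) (hX2 : Tendsto (fun k => (X k).2) U (𝓝 n2))
    (hκ : Tendsto (fun k => kap (X k) (ρ k)) U (𝓝 κ)) {y : ℝ × ℝ} (hy : 0 < y.2) :
    ∀ᶠ k in (U : Filter ℕ), X k + ρ k • Tm n1 n2 (κ / 2) y ∈ Disc := by
  have h1 := lim_pair h.ρ_lim hX1 hX2 (w := fun _ => Tm n1 n2 (κ / 2) y)
    (w0 := Tm n1 n2 (κ / 2) y) tendsto_const_nhds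
  rw [pair_Tm (κ / 2) hn y] at h1
  have h2 := h1.sub hκ
  have h3 : 2 * (κ / 2 - y.2) - κ < 0 := by linarith
  filter_upwards [h2.eventually (gt_mem_nhds h3)] with k hk
  rw [mem_disc_iff (h.ρ_pos k)]
  linarith

lemma exists_circle (h : BU U α u S ρ N X Y) {n1 n2 κ : ℝ} (hn : n1 ^ 2 + n2 ^ 2 = 1)
    (hX1 : Tendsto (fun k => (X k).1) U (𝓝 n1)) (hX2 : Tendsto (fun k => (X k).2) U (𝓝 n2))
    (hκ : Tendsto (fun k => kap (X k) (ρ k)) U (𝓝 κ)) {y : ℝ × ℝ} (hy : 0 < y.2) :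
    ∀ᶠ k in (U : Filter ℕ), ∃ θ ∈ Icc 0 (2 * y.2),
      (X k + ρ k • Tm n1 n2 (κ / 2) (y.1, y.2 - θ)).1 ^ 2 +
      (X k + ρ k • Tm n1 n2 (κ / 2) (y.1, y.2 - θ)).2 ^ 2 = 1 := by
  have h2 := lim_pair h.ρ_lim hX1 hX2 (w := fun _ => Tm n1 n2 (κ / 2) (y.1, y.2 - 2 * y.2))
    (w0 := Tm n1 n2 (κ / 2) (y.1, y.2 - 2 * y.2)) tendsto_const_nhds
  rw [pair_Tm (κ / 2) hn _] at h2
  simp only at h2
  have h3 := h2.sub hκ
  have h4 : 0 < 2 * (κ / 2 - (y.2 - 2 * y.2)) - κ := by linarith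
  filter_upwards [half_in h hn hX1 hX2 hκ hy, h3.eventually (lt_mem_nhds h4)] with k hk1 hk2
  have hρ := h.ρ_pos k
  rw [mem_disc_iff hρ] at hk1
  set φ : ℝ → ℝ := fun θ => 2 * ((X k).1 * (Tm n1 n2 (κ / 2) (y.1, y.2 - θ)).1 +
      (X k).2 * (Tm n1 n2 (κ / 2) (y.1, y.2 - θ)).2) +
      ρ k * ((Tm n1 n2 (κ / 2) (y.1, y.2 - θ)).1 ^ 2 +
      (Tm n1 n2 (κ / 2) (y.1, y.2 - θ)).2 ^ 2) with hφ
  have hcont : Continuous φ := by
    rw [hφ]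
    unfold Tm
    fun_prop
  have hiv := intermediate_value_Icc (show (0 : ℝ) ≤ 2 * y.2 by positivity)
    hcont.continuousOn (f := φ)
  have hmem : kap (X k) (ρ k) ∈ Icc (φ 0) (φ (2 * y.2)) := by
    constructor
    · simp only [hφ, sub_zero]
      exact hk1
    · simp only [hφ]
      linarith
  obtain ⟨θ, hθ, hθ2⟩ := hiv hmem
  refine ⟨θ, hθ, ?_⟩
  rw [mem_circle_iff hρ]
  exact hθ2

/-- **Module H1**: the blow-up limit -/
theorem blowup_limit (h : BU U α u S ρ N X Y) :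
    ∃ (H : Set (ℝ × ℝ)) (T : ℝ × ℝ → ℝ × ℝ) (n1 n2 C : ℝ) (G1 G2 h11 h12 h22 : ℝ × ℝ → ℝ),
      n1 ^ 2 + n2 ^ 2 = 1 ∧ LO H α C G1 G2 h11 h12 h22 ∧
      (H = univ ∨ (H = {x : ℝ × ℝ | 0 < x.2} ∧ ∀ x y : ℝ × ℝ, 0 < x.2 → 0 < y.2 →
        |h11 x - h11 y| ≤ C * (x.2 ^ α + y.2 ^ α))) ∧
      (∀ x ∈ H, ∀ᶠ k in U, X k + ρ k • T x ∈ Disc) ∧
      (∀ x ∈ H, ∃ m11 m12 m22 : ℝ,
        Tendsto (fun k => rs (D1 (D1 (u k))) (X k) (ρ k) (S k * ρ k ^ α) (T x)) U (𝓝 m11) ∧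
        Tendsto (fun k => rs (D1 (D2 (u k))) (X k) (ρ k) (S k * ρ k ^ α) (T x)) U (𝓝 m12) ∧
        Tendsto (fun k => rs (D2 (D2 (u k))) (X k) (ρ k) (S k * ρ k ^ α) (T x)) U (𝓝 m22) ∧
        h11 x = n2 ^ 2 * m11 - 2 * (n1 * n2 * m12) + n1 ^ 2 * m22 ∧
        h12 x = n1 * n2 * m11 + (n2 ^ 2 - n1 ^ 2) * m12 - n1 * n2 * m22 ∧
        h22 x = n1 ^ 2 * m11 + 2 * (n1 * n2 * m12) + n2 ^ 2 * m22) ∧
      ∃ x ∈ H, ∃ y ∈ H, ¬ (h11 x = h11 y ∧ h12 x = h12 y ∧ h22 x = h22 y) := by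
  by_cases hκ : Tendsto (fun k => kap (X k) (ρ k)) U atTop
  · -- interior case
    have hn : (0 : ℝ) ^ 2 + 1 ^ 2 = 1 := by norm_num
    have hH : ∀ x ∈ (univ : Set (ℝ × ℝ)), ∀ᶠ k in (U : Filter ℕ),
        X k + ρ k • Tm 0 1 0 x ∈ Disc := by
      intro x _
      set w := Tm 0 1 0 x with hw
      filter_upwards [hκ.eventually (eventually_ge_atTop
        (2 * (|w.1| + |w.2|) + (w.1 ^ 2 + w.2 ^ 2))),
        h.ρ_lim.eventually (gt_mem_nhds (show (0 : ℝ) < 1 by norm_num))] with k hk1 hk2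
      rw [mem_disc_iff (h.ρ_pos k)]
      refine le_trans ?_ hk1
      have e1 : (X k).1 * w.1 ≤ |w.1| := by
        refine (le_abs_self _).trans ?_
        rw [abs_mul]
        exact mul_le_of_le_one_left (abs_nonneg _) (disc_abs1 (h.X_mem k))
      have e2 : (X k).2 * w.2 ≤ |w.2| := by
        refine (le_abs_self _).trans ?_
        rw [abs_mul]
        exact mul_le_of_le_one_left (abs_nonneg _) (disc_abs2 (h.X_mem k))
      have e3 : ρ k * (w.1 ^ 2 + w.2 ^ 2) ≤ w.1 ^ 2 + w.2 ^ 2 :=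
        mul_le_of_le_one_left (by positivity) hk2.le
      linarith
    obtain ⟨G1, G2, h11, h12, h22, hLO, hlim⟩ := core h 0 hn univ hH
    refine ⟨univ, Tm 0 1 0, 0, 1, 16, G1, G2, h11, h12, h22, hn, hLO, Or.inl rfl, hH, hlim, ?_⟩
    refine nonconst h 0 hn univ hH h11 h12 h22 hlim fun z _ δ hδ => ?_
    refine ⟨(0, 0), mem_univ _, (-z.1, -z.2), mem_univ _, ?_, ?_⟩
    · have : Tm 0 1 0 (0, 0) = 0 := by
        ext <;> simp [Tm]
      rw [this, dist_self]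
      exact hδ.le
    · have : Tm 0 1 0 (-z.1, -z.2) = z := by
        ext <;> simp [Tm]
      rw [this, dist_self]
      exact hδ.le
  · -- boundary case
    obtain ⟨κ, hκl⟩ : ∃ κ, Tendsto (fun k => kap (X k) (ρ k)) U (𝓝 κ) := by
      rw [tendsto_atTop] at hκ
      push Not at hκ
      obtain ⟨b, hb⟩ := hκ
      have hb' : ∀ᶠ k in (U : Filter ℕ), kap (X k) (ρ k) < b := hb
      refine exists_lim (B := b) ?_
      filter_upwards [hb'] with k hk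
      rw [abs_of_nonneg (kap_nonneg h k)]
      exact hk.le
    have hκ0 : 0 ≤ κ := ge_of_tendsto' hκl fun k => kap_nonneg h k
    obtain ⟨n, hnl⟩ : ∃ n, Tendsto X U (𝓝 n) := by
      have h1 : ((U.map X : Ultrafilter (ℝ × ℝ)) : Filter (ℝ × ℝ)) ≤ 𝓟 Disc := by
        rw [le_principal_iff]
        show ∀ᶠ k in (U : Filter ℕ), X k ∈ Disc
        exact Eventually.of_forall fun k => h.X_mem k
      obtain ⟨z, -, hz⟩ := disc_compact.ultrafilter_le_nhds (U.map X) h1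
      exact ⟨z, hz⟩
    obtain ⟨n1, n2⟩ := n
    have hX1 : Tendsto (fun k => (X k).1) U (𝓝 n1) := (continuous_fst.tendsto _).comp hnl
    have hX2 : Tendsto (fun k => (X k).2) U (𝓝 n2) := (continuous_snd.tendsto _).comp hnl
    have hn : n1 ^ 2 + n2 ^ 2 = 1 := by
      have h1 : Tendsto (fun k => (X k).1 ^ 2 + (X k).2 ^ 2) U (𝓝 (n1 ^ 2 + n2 ^ 2)) :=
        (hX1.pow 2).add (hX2.pow 2)
      have h2 : Tendsto (fun k => 1 - kap (X k) (ρ k) * ρ k) U (𝓝 (1 - κ * 0)) :=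
        tendsto_const_nhds.sub (hκl.mul h.ρ_lim)
      have h3 : (fun k => 1 - kap (X k) (ρ k) * ρ k) =
          fun k => (X k).1 ^ 2 + (X k).2 ^ 2 := by
        funext k
        have := (h.ρ_pos k).ne'
        unfold kap
        field_simp
        ring
      rw [h3] at h2
      have := tendsto_nhds_unique h1 h2
      rw [this]
      ring
    have hH : ∀ x ∈ {x : ℝ × ℝ | 0 < x.2}, ∀ᶠ k in (U : Filter ℕ),
        X k + ρ k • Tm n1 n2 (κ / 2) x ∈ Disc :=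
      fun x hx => half_in h hn hX1 hX2 hκl hx
    obtain ⟨G1, G2, h11, h12, h22, hLO, hlim⟩ := core h (κ / 2) hn _ hH
    refine ⟨{x : ℝ × ℝ | 0 < x.2}, Tm n1 n2 (κ / 2), n1, n2, 16, G1, G2, h11, h12, h22, hn, hLO,
      Or.inr ⟨rfl, ?_⟩, hH, hlim, ?_⟩
    · intro x y hx hy
      obtain ⟨a11, a12, a22, ta11, ta12, ta22, ea1, -, -⟩ := hlim x hx
      obtain ⟨b11, b12, b22, tb11, tb12, tb22, eb1, -, -⟩ := hlim y hy
      set B : ℝ := (|κ / 2| + 3 * x.2 + |x.1|) + (|κ / 2| + 3 * y.2 + |y.1|) with hB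
      have tx : Tendsto (fun k => qq (u k) (X k) (ρ k) (S k * ρ k ^ α) n1 n2
          (Tm n1 n2 (κ / 2) x)) U (𝓝 (h11 x)) := by
        rw [ea1]
        exact ((ta11.const_mul _).sub ((ta12.const_mul _).const_mul 2)).add (ta22.const_mul _)
      have ty : Tendsto (fun k => qq (u k) (X k) (ρ k) (S k * ρ k ^ α) n1 n2
          (Tm n1 n2 (κ / 2) y)) U (𝓝 (h11 y)) := by
        rw [eb1]
        exact ((tb11.const_mul _).sub ((tb12.const_mul _).const_mul 2)).add (tb22.const_mul _)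
      have tl : Tendsto (fun k => 16 * (x.2 ^ α + y.2 ^ α) +
          20 * B * (N k * ρ k / (S k * ρ k ^ α)) +
          8 * B ^ α * (|(X k).1 - n1| + |(X k).2 - n2| + ρ k * B)) U
          (𝓝 (16 * (x.2 ^ α + y.2 ^ α) + 20 * B * 0 +
            8 * B ^ α * (|n1 - n1| + |n2 - n2| + 0 * B))) :=
        (tendsto_const_nhds.add (h.N_lim.const_mul _)).add
          (((((hX1.sub_const n1).abs).add ((hX2.sub_const n2).abs)).add
            (h.ρ_lim.mul_const B)).const_mul _)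
      have hev : ∀ᶠ k in (U : Filter ℕ), |qq (u k) (X k) (ρ k) (S k * ρ k ^ α) n1 n2
          (Tm n1 n2 (κ / 2) x) - qq (u k) (X k) (ρ k) (S k * ρ k ^ α) n1 n2
          (Tm n1 n2 (κ / 2) y)| ≤ 16 * (x.2 ^ α + y.2 ^ α) +
          20 * B * (N k * ρ k / (S k * ρ k ^ α)) +
          8 * B ^ α * (|(X k).1 - n1| + |(X k).2 - n2| + ρ k * B) := by
        filter_upwards [hH x hx, hH y hy, exists_circle h hn hX1 hX2 hκl hx,
          exists_circle h hn hX1 hX2 hκl hy] with k k1 k2 k3 k4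
        obtain ⟨θ, hθ, hθ2⟩ := k3
        obtain ⟨θ', hθ', hθ2'⟩ := k4
        exact bdry_est h (κ / 2) hn k hx hy k1 k2 hθ hθ' hθ2 hθ2' hB
      have hfin := le_of_tendsto_of_tendsto (tx.sub ty).abs tl hev
      simpa using hfin
    · refine nonconst h (κ / 2) hn _ hH h11 h12 h22 hlim fun z hz δ hδ => ?_
      obtain ⟨hn1, hn2⟩ := abs_le_one_of hn
      have hzn : 2 * (n1 * z.1 + n2 * z.2) ≤ κ := by
        have h1 := lim_pair h.ρ_lim hX1 hX2 hz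
        refine le_of_tendsto_of_tendsto h1 hκl (Eventually.of_forall fun k => ?_)
        rw [← mem_disc_iff (h.ρ_pos k), smul_inv_smul₀ (h.ρ_pos k).ne']
        have : X k + (Y k - X k) = Y k := by abel
        rw [this]
        exact h.Y_mem k
      have hdd : ∀ v : ℝ × ℝ, ∀ y : ℝ × ℝ, Tm n1 n2 (κ / 2) y = (v.1 - δ * n1, v.2 - δ * n2) →
          dist (Tm n1 n2 (κ / 2) y) v ≤ δ := by
        intro v y hv
        rw [hv, Prod.dist_eq, Real.dist_eq, Real.dist_eq]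
        refine max_le ?_ ?_
        · have : v.1 - δ * n1 - v.1 = -(δ * n1) := by ring
          simp only
          rw [this, abs_neg, abs_mul, abs_of_pos hδ]
          exact mul_le_of_le_one_right hδ.le hn1
        · have : v.2 - δ * n2 - v.2 = -(δ * n2) := by ring
          simp only
          rw [this, abs_neg, abs_mul, abs_of_pos hδ]
          exact mul_le_of_le_one_right hδ.le hn2
      refine ⟨(0, κ / 2 + δ), ?_, (-n2 * z.1 + n1 * z.2,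
        κ / 2 - (n1 * z.1 + n2 * z.2) + δ), ?_, ?_, ?_⟩
      · show 0 < κ / 2 + δ
        positivity
      · show 0 < κ / 2 - (n1 * z.1 + n2 * z.2) + δ
        linarith
      · refine hdd 0 _ ?_
        ext
        · simp only [Tm, Prod.fst_zero]
          ring
        · simp only [Tm, Prod.snd_zero]
          ring
      · refine hdd z _ ?_
        ext
        · simp only [Tm]
          linear_combination z.1 * hn
        · simp only [Tm]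
          linear_combination z.2 * hn

end AQ95
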