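import Pool.Agent.Lib_helper42.AQ.Norms

/-! Module K, part 1: families of functions with `C^{0,α}` norms bounded by a universal
constant times `M i`. -/

namespace AQ95

open AP AQ Set Filter Topology
open scoped ContDiff

variable {ι : Type*} {α : ℝ}

/-- the `C^{0,α}` norm of `f i` is at most a constant times `M i` -/
def UB (α : ℝ) (f : ι → ℝ × ℝ → ℝ) (M : ι → ℝ) : Prop :=
  ∃ C : ℝ, 0 ≤ C ∧ ∀ i, N0 α (C * M i) (f i)

lemma UB.add {f g : ι → ℝ × ℝ → ℝ} {M : ι → ℝ} (hf : UB α f M) (hg : UB α g M) :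
    UB α (fun i x => f i x + g i x) M := by
  obtain ⟨C, hC, h1⟩ := hf
  obtain ⟨D, hD, h2⟩ := hg
  refine ⟨C + D, by positivity, fun i => ?_⟩
  rw [add_mul]
  exact (h1 i).add (h2 i)

lemma UB.neg {f : ι → ℝ × ℝ → ℝ} {M : ι → ℝ} (hf : UB α f M) :
    UB α (fun i x => -f i x) M := by
  obtain ⟨C, hC, h1⟩ := hf
  exact ⟨C, hC, fun i => (h1 i).neg⟩

lemma UB.sub {f g : ι → ℝ × ℝ → ℝ} {M : ι → ℝ} (hf : UB α f M) (hg : UB α g M) :
    UB α (fun i x => f i x - g i x) M := by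
  obtain ⟨C, hC, h1⟩ := hf
  obtain ⟨D, hD, h2⟩ := hg
  refine ⟨C + D, by positivity, fun i => ?_⟩
  rw [add_mul]
  exact (h1 i).sub (h2 i)

lemma UB.mul {f g : ι → ℝ × ℝ → ℝ} {M M' : ι → ℝ} (hf : UB α f M) (hg : UB α g M') :
    UB α (fun i x => f i x * g i x) (fun i => M i * M' i) := by
  obtain ⟨C, hC, h1⟩ := hf
  obtain ⟨D, hD, h2⟩ := hg
  refine ⟨2 * C * D, by positivity, fun i => ?_⟩
  have := (h1 i).mul (h2 i)
  have e : 2 * (C * M i) * (D * M' i) = 2 * C * D * (M i * M' i) := by ring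
  rwa [e] at this

lemma UB.mul1 {f g : ι → ℝ × ℝ → ℝ} {M : ι → ℝ} (hf : UB α f (fun _ => 1)) (hg : UB α g M) :
    UB α (fun i x => f i x * g i x) M := by
  have := hf.mul hg
  simpa using this

lemma UB.mono {f : ι → ℝ × ℝ → ℝ} {M M' : ι → ℝ} (hf : UB α f M) {c : ℝ} (hc : 0 ≤ c)
    (h : ∀ i, M i ≤ c * M' i) : UB α f M' := by
  obtain ⟨C, hC, h1⟩ := hf
  refine ⟨C * c, by positivity, fun i => (h1 i).mono ?_⟩
  rw [mul_assoc]
  exact mul_le_mul_of_nonneg_left (h i) hC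

lemma UB.fixed (hα0 : 0 < α) (hα1 : α < 1) {g : ℝ × ℝ → ℝ} (hg : ContDiff ℝ ∞ g) :
    UB α (fun _ : ι => g) (fun _ => 1) := by
  obtain ⟨M, hM, h⟩ := exists_N0 hα0 hα1 (hg.of_le (by exact_mod_cast le_top))
  exact ⟨M, hM, fun _ => by rwa [mul_one]⟩

lemma UB.fmul (hα0 : 0 < α) (hα1 : α < 1) {g : ℝ × ℝ → ℝ} (hg : ContDiff ℝ ∞ g)
    {f : ι → ℝ × ℝ → ℝ} {M : ι → ℝ} (hf : UB α f M) :
    UB α (fun i x => g x * f i x) M := (UB.fixed hα0 hα1 hg).mul1 hf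

lemma UB.congr {f g : ι → ℝ × ℝ → ℝ} {M : ι → ℝ} (hf : UB α f M)
    (h : ∀ i, ∀ x ∈ Disc, f i x = g i x) : UB α g M := by
  obtain ⟨C, hC, h1⟩ := hf
  exact ⟨C, hC, fun i => (h1 i).congr (h i)⟩

/-- division by a function bounded below -/
lemma UB.div {f h : ι → ℝ × ℝ → ℝ} {M : ι → ℝ} (hM : ∀ i, 0 ≤ M i) {c : ℝ} (hc : 0 < c)
    (hh : UB α h (fun _ => 1)) (hlow : ∀ i, ∀ x ∈ Disc, c ≤ h i x)
    (hf : UB α (fun i x => h i x * f i x) M) : UB α f M := by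
  obtain ⟨C, hC, h1⟩ := hf
  obtain ⟨D, hD, h2⟩ := hh
  refine ⟨C / c + C * D / c ^ 2, by positivity, fun i => ?_⟩
  have hMi := hM i
  have key : ∀ x ∈ Disc, f i x = h i x * f i x / h i x := by
    intro x hx
    have : h i x ≠ 0 := (lt_of_lt_of_le hc (hlow i x hx)).ne'
    field_simp
  have hb : ∀ x ∈ Disc, |f i x| ≤ C * M i / c := by
    intro x hx
    have hx1 := (h1 i).1 x hx
    have hx2 := hlow i x hx
    have hpos : 0 < h i x := lt_of_lt_of_le hc hx2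
    simp only at hx1
    rw [abs_mul, abs_of_pos hpos] at hx1
    rw [le_div_iff₀ hc]
    calc |f i x| * c ≤ |f i x| * h i x := mul_le_mul_of_nonneg_left hx2 (abs_nonneg _)
      _ = h i x * |f i x| := mul_comm _ _
      _ ≤ C * M i := hx1
  constructor
  · intro x hx
    refine (hb x hx).trans ?_
    have : 0 ≤ C * D / c ^ 2 * M i := by positivity
    have e : C * M i / c = C / c * M i := by ring
    rw [e]
    linarith
  · intro x hx y hy
    have hx2 := hlow i x hx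
    have hpos : 0 < h i x := lt_of_lt_of_le hc hx2
    have a1 := (h1 i).2 x hx y hy
    have a2 := (h2 i).2 x hx y hy
    rw [mul_one] at a2
    simp only at a1
    have hid : h i x * (f i x - f i y) = (h i x * f i x - h i y * f i y) +
        f i y * (h i y - h i x) := by ring
    have h3 : h i x * |f i x - f i y| ≤
        C * M i * dist x y ^ α + (C * M i / c) * (D * dist x y ^ α) := by
      have e0 : h i x * |f i x - f i y| = |h i x * (f i x - f i y)| := by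
        rw [abs_mul, abs_of_pos hpos]
      rw [e0, hid]
      refine (abs_add_le _ _).trans (add_le_add a1 ?_)
      rw [abs_mul]
      refine mul_le_mul (hb y hy) ?_ (abs_nonneg _) (by positivity)
      rw [abs_sub_comm]
      exact a2
    have h4 : c * |f i x - f i y| ≤
        C * M i * dist x y ^ α + (C * M i / c) * (D * dist x y ^ α) :=
      (mul_le_mul_of_nonneg_right hx2 (abs_nonneg _)).trans h3
    have h5 : |f i x - f i y| ≤
        (C * M i * dist x y ^ α + (C * M i / c) * (D * dist x y ^ α)) / c := by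
      rw [le_div_iff₀ hc]
      linarith
    refine h5.trans (le_of_eq ?_)
    field_simp

lemma smi1 {f : ℝ × ℝ → ℝ} (h : ContDiff ℝ ∞ f) : ContDiff ℝ ∞ (D1 f) :=
  contDiff_infty.2 fun n => cd_D1 (contDiff_infty.1 h (n + 1))

lemma smi2 {f : ℝ × ℝ → ℝ} (h : ContDiff ℝ ∞ f) : ContDiff ℝ ∞ (D2 f) :=
  contDiff_infty.2 fun n => cd_D2 (contDiff_infty.1 h (n + 1))

lemma smd {f : ℝ × ℝ → ℝ} (h : ContDiff ℝ ∞ f) : Differentiable ℝ f :=
  h.differentiable (by simp)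

lemma smc {f : ℝ × ℝ → ℝ} (h : ContDiff ℝ ∞ f) : D2 (D1 f) = D1 (D2 f) :=
  D12_comm_fun (contDiff_infty.1 h 2)

section jets

variable {P Q u : ℝ × ℝ → ℝ} (hP : ContDiff ℝ ∞ P) (hQ : ContDiff ℝ ∞ Q) (hu : ContDiff ℝ ∞ u)
include hP hQ hu

lemma jet1 : D1 (fun y => P y * D1 u y + Q y * D2 u y) =
    fun x => (D1 P x * D1 u x + P x * D1 (D1 u) x) + (D1 Q x * D2 u x + Q x * D1 (D2 u) x) := by
  have a1 := smd hP
  have a2 := smd hQ
  have a3 := smd (smi1 hu)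
  have a4 := smd (smi2 hu)
  rw [D1_addf (a1.fun_mul a3) (a2.fun_mul a4), D1_mulf a1 a3, D1_mulf a2 a4]

lemma jet2 : D2 (fun y => P y * D1 u y + Q y * D2 u y) =
    fun x => (D2 P x * D1 u x + P x * D1 (D2 u) x) + (D2 Q x * D2 u x + Q x * D2 (D2 u) x) := by
  have a1 := smd hP
  have a2 := smd hQ
  have a3 := smd (smi1 hu)
  have a4 := smd (smi2 hu)
  rw [D2_addf (a1.fun_mul a3) (a2.fun_mul a4), D2_mulf a1 a3, D2_mulf a2 a4, smc hu]

lemma jet11 : D1 (D1 (fun y => P y * D1 u y + Q y * D2 u y)) =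
    fun x => (D1 (D1 P) x * D1 u x + 2 * (D1 P x * D1 (D1 u) x) + P x * D1 (D1 (D1 u)) x) +
      (D1 (D1 Q) x * D2 u x + 2 * (D1 Q x * D1 (D2 u) x) + Q x * D1 (D1 (D2 u)) x) := by
  have p1 := smd (smi1 hP)
  have q1 := smd (smi1 hQ)
  have p0 := smd hP
  have q0 := smd hQ
  have u1 := smd (smi1 hu)
  have u2 := smd (smi2 hu)
  have u11 := smd (smi1 (smi1 hu))
  have u12 := smd (smi1 (smi2 hu))
  rw [jet1 hP hQ hu, D1_addf ((p1.fun_mul u1).fun_add (p0.fun_mul u11)) ((q1.fun_mul u2).fun_add (q0.fun_mul u12)),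
    D1_addf (p1.fun_mul u1) (p0.fun_mul u11), D1_addf (q1.fun_mul u2) (q0.fun_mul u12), D1_mulf p1 u1,
    D1_mulf p0 u11, D1_mulf q1 u2, D1_mulf q0 u12]
  funext x
  ring

lemma jet12 : D1 (D2 (fun y => P y * D1 u y + Q y * D2 u y)) =
    fun x => (D1 (D2 P) x * D1 u x + D2 P x * D1 (D1 u) x + D1 P x * D1 (D2 u) x +
      P x * D1 (D1 (D2 u)) x) +
      (D1 (D2 Q) x * D2 u x + D2 Q x * D1 (D2 u) x + D1 Q x * D2 (D2 u) x +
      Q x * D1 (D2 (D2 u)) x) := by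
  have p2 := smd (smi2 hP)
  have q2 := smd (smi2 hQ)
  have p0 := smd hP
  have q0 := smd hQ
  have u1 := smd (smi1 hu)
  have u2 := smd (smi2 hu)
  have u12 := smd (smi1 (smi2 hu))
  have u22 := smd (smi2 (smi2 hu))
  rw [jet2 hP hQ hu, D1_addf ((p2.fun_mul u1).fun_add (p0.fun_mul u12)) ((q2.fun_mul u2).fun_add (q0.fun_mul u22)),
    D1_addf (p2.fun_mul u1) (p0.fun_mul u12), D1_addf (q2.fun_mul u2) (q0.fun_mul u22), D1_mulf p2 u1,
    D1_mulf p0 u12, D1_mulf q2 u2, D1_mulf q0 u22]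
  funext x
  ring

lemma jet22 : D2 (D2 (fun y => P y * D1 u y + Q y * D2 u y)) =
    fun x => (D2 (D2 P) x * D1 u x + 2 * (D2 P x * D1 (D2 u) x) + P x * D1 (D2 (D2 u)) x) +
      (D2 (D2 Q) x * D2 u x + 2 * (D2 Q x * D2 (D2 u) x) + Q x * D2 (D2 (D2 u)) x) := by
  have p2 := smd (smi2 hP)
  have q2 := smd (smi2 hQ)
  have p0 := smd hP
  have q0 := smd hQ
  have u1 := smd (smi1 hu)
  have u2 := smd (smi2 hu)
  have u12 := smd (smi1 (smi2 hu))
  have u22 := smd (smi2 (smi2 hu))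
  rw [jet2 hP hQ hu, D2_addf ((p2.fun_mul u1).fun_add (p0.fun_mul u12)) ((q2.fun_mul u2).fun_add (q0.fun_mul u22)),
    D2_addf (p2.fun_mul u1) (p0.fun_mul u12), D2_addf (q2.fun_mul u2) (q0.fun_mul u22), D2_mulf p2 u1,
    D2_mulf p0 u12, D2_mulf q2 u2, D2_mulf q0 u22, smc hu, smc (smi2 hu)]
  funext x
  ring

end jets

section lops

variable {a11 a12 a22 b1 b2 u : ℝ × ℝ → ℝ} (h11 : ContDiff ℝ ∞ a11) (h12 : ContDiff ℝ ∞ a12)
  (h22 : ContDiff ℝ ∞ a22) (hb1 : ContDiff ℝ ∞ b1) (hb2 : ContDiff ℝ ∞ b2)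
  (hu : ContDiff ℝ ∞ u)
include h11 h12 h22 hb1 hb2 hu

lemma lop1 : D1 (Lop a11 a12 a22 b1 b2 u) = fun x =>
    (a11 x * D1 (D1 (D1 u)) x + 2 * (a12 x * D1 (D1 (D2 u)) x) + a22 x * D1 (D2 (D2 u)) x) +
    (D1 a11 x * D1 (D1 u) x + 2 * (D1 a12 x * D1 (D2 u) x) + D1 a22 x * D2 (D2 u) x +
      D1 b1 x * D1 u x + D1 b2 x * D2 u x) + (b1 x * D1 (D1 u) x + b2 x * D1 (D2 u) x) := by
  have d11 := smd h11
  have d12 := smd h12
  have d22 := smd h22
  have e1 := smd hb1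
  have e2 := smd hb2
  have u1 := smd (smi1 hu)
  have u2 := smd (smi2 hu)
  have u11 := smd (smi1 (smi1 hu))
  have u12 := smd (smi1 (smi2 hu))
  have u22 := smd (smi2 (smi2 hu))
  have m12 : Differentiable ℝ (fun x => 2 * (a12 x * D1 (D2 u) x)) := (d12.fun_mul u12).const_mul 2
  have hL : Lop a11 a12 a22 b1 b2 u = fun x => a11 x * D1 (D1 u) x + 2 * (a12 x * D1 (D2 u) x) +
    a22 x * D2 (D2 u) x + b1 x * D1 u x + b2 x * D2 u x := rfl
  rw [hL, D1_addf ((((d11.fun_mul u11).fun_add m12).fun_add (d22.fun_mul u22)).fun_add (e1.fun_mul u1)) (e2.fun_mul u2),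
    D1_addf (((d11.fun_mul u11).fun_add m12).fun_add (d22.fun_mul u22)) (e1.fun_mul u1),
    D1_addf ((d11.fun_mul u11).fun_add m12) (d22.fun_mul u22), D1_addf (d11.fun_mul u11) m12,
    D1_smulf 2 (d12.fun_mul u12), D1_mulf d11 u11, D1_mulf d12 u12, D1_mulf d22 u22,
    D1_mulf e1 u1, D1_mulf e2 u2]
  funext x
  ring

lemma lop2 : D2 (Lop a11 a12 a22 b1 b2 u) = fun x =>
    (a11 x * D1 (D1 (D2 u)) x + 2 * (a12 x * D1 (D2 (D2 u)) x) + a22 x * D2 (D2 (D2 u)) x) +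
    (D2 a11 x * D1 (D1 u) x + 2 * (D2 a12 x * D1 (D2 u) x) + D2 a22 x * D2 (D2 u) x +
      D2 b1 x * D1 u x + D2 b2 x * D2 u x) + (b1 x * D1 (D2 u) x + b2 x * D2 (D2 u) x) := by
  have d11 := smd h11
  have d12 := smd h12
  have d22 := smd h22
  have e1 := smd hb1
  have e2 := smd hb2
  have u1 := smd (smi1 hu)
  have u2 := smd (smi2 hu)
  have u11 := smd (smi1 (smi1 hu))
  have u12 := smd (smi1 (smi2 hu))
  have u22 := smd (smi2 (smi2 hu))
  have m12 : Differentiable ℝ (fun x => 2 * (a12 x * D1 (D2 u) x)) := (d12.fun_mul u12).const_mul 2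
  have hL : Lop a11 a12 a22 b1 b2 u = fun x => a11 x * D1 (D1 u) x + 2 * (a12 x * D1 (D2 u) x) +
    a22 x * D2 (D2 u) x + b1 x * D1 u x + b2 x * D2 u x := rfl
  rw [hL, D2_addf ((((d11.fun_mul u11).fun_add m12).fun_add (d22.fun_mul u22)).fun_add (e1.fun_mul u1)) (e2.fun_mul u2),
    D2_addf (((d11.fun_mul u11).fun_add m12).fun_add (d22.fun_mul u22)) (e1.fun_mul u1),
    D2_addf ((d11.fun_mul u11).fun_add m12) (d22.fun_mul u22), D2_addf (d11.fun_mul u11) m12,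
    D2_smulf 2 (d12.fun_mul u12), D2_mulf d11 u11, D2_mulf d12 u12, D2_mulf d22 u22,
    D2_mulf e1 u1, D2_mulf e2 u2, smc (smi1 hu), smc hu, smc (smi2 hu)]
  funext x
  ring

end lops

end AQ95
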